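import Pool.Agent.P.MP_e6a929_co.AS.Iface

/-! Step BAD of the asymptotic Sperner project. -/

namespace Pool.Agent.P.MP_e6a929_co.AS

open Finset Function Filter

open scoped Classical

namespace BADx

theorem emp {N : ℕ} {z : ℝ} {U : Set Fn} (h : ∀ g, g ∉ U) :
    ((sec U (W N)).card : ℝ) ≤ 2 ^ N * Real.exp (-z) := by
  rw [sec, filter_eq_empty_iff.mpr fun g _ => h g, card_empty, Nat.cast_zero]
  positivity

theorem seg (hHOEF : S_HOEF) (N : ℕ) {z ε : ℝ} (hz : 0 ≤ z) (hε : |ε| = 1) (i j : ℕ) :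
    ((sec {h | i < j ∧ j ≤ N ∧ √(2 * z * ((j : ℝ) - i)) ≤ ε * ((h j : ℝ) - h i)} (W N)).card : ℝ) ≤
      2 ^ N * Real.exp (-z) := by
  by_cases hij : i < j ∧ j ≤ N
  · have h0 : (0 : ℝ) < (j : ℝ) - i := sub_pos.mpr (Nat.cast_lt.mpr hij.1)
    have h1 : ∀ F : ℕ → ℝ, ∑ p ∈ range N, (if p ∈ Ico i j then F p else 0) = ∑ p ∈ Ico i j, F p :=
      fun F => by
        rw [sum_ite_mem, inter_eq_right.mpr fun p hp =>
          mem_range.mpr ((mem_Ico.mp hp).2.trans_le hij.2)]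
    have h2 := hHOEF N (fun p _ => if p ∈ Ico i j then ε else 0)
      (fun p => if p ∈ Ico i j then 1 else 0) (√(2 * z * ((j : ℝ) - i))) ((j : ℝ) - i)
      (fun _ _ _ _ => rfl) (fun p _ _ _ => by split_ifs <;> simp [hε]) (Real.sqrt_nonneg _) h0
      (by simp only [ite_pow, one_pow, zero_pow two_ne_zero, h1]; simp [hij.1.le])
    rw [Real.sq_sqrt (by positivity), show 2 * z * ((j : ℝ) - i) / (2 * ((j : ℝ) - i)) = z by
      field_simp] at h2
    simp only [ite_mul, zero_mul, h1, ← mul_sum] at h2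
    have h3 := fun h : Fn => sum_Ico_sub (fun p => (h p : ℝ)) hij.1.le
    simpa only [hij.1, hij.2, true_and, h3] using h2
  · exact emp fun h H => hij ⟨H.1, H.2.1⟩

theorem val_eq {N : ℕ} {h : Fn} (hh : h ∈ W N) (ω : ℕ → ℝ) (h0 : ω 0 = 0) (hN : ω N = 0) :
    ∑ p ∈ range N, (if val h p then ω p else 0) = (∑ p ∈ range N, ω p) / 4 - ∑ i ∈ range N,
      (ω (i + 1) - ω i * (1 - ((h i : ℝ) - h (i - 1)))) / 4 * ((h (i + 1) : ℝ) - h i) := by
  have h1 := (sum_range_succ' (fun p => ω p * ((h p : ℝ) - h (p - 1))) N).symm.trans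
    (sum_range_succ _ N)
  simp only [h0, hN, zero_mul, add_zero, Nat.add_sub_cancel] at h1
  have h2 : ∑ p ∈ range N, (if val h p then ω p else 0) = ∑ p ∈ range N,
      (ω p - ω p * ((h p : ℝ) - h (p - 1)) +
        ω p * (1 - ((h p : ℝ) - h (p - 1))) * ((h (p + 1) : ℝ) - h p)) / 4 := by
    refine sum_congr rfl fun p hp => ?_
    rcases p with _ | p
    · simp [h0]
    · have h3 := mem_range.mp hp
      simp only [val, Nat.add_sub_cancel]
      rcases W_step hh h3 with a | a <;> rcases W_step hh (show p < N by omega) with b | b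
      · rw [if_neg (by omega), a, b]; push_cast; ring
      · rw [if_pos (by omega), a, b]; push_cast; ring
      · rw [if_neg (by omega), a, b]; push_cast; ring
      · rw [if_neg (by omega), a, b]; push_cast; ring
  rw [h2, ← sum_div, sum_add_distrib, sum_sub_distrib, ← h1]
  simp only [div_mul_eq_mul_div, ← sum_div]
  simp only [sub_mul (ω _), sum_sub_distrib]
  ring

theorem ten (hTENT : S_TENT) (hHOEF : S_HOEF) (N : ℕ) {z H : ℝ} (hz : 0 ≤ z) (hH : 0 ≤ H)
    (hN : 2 * z * N ≤ H ^ 2) (b l k : ℕ) :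
    ((sec {h | b + l ≤ N ∧ k ≤ l ∧ Val (tent b l k) (Ioo b (b + l)) h <
      (k : ℝ) * ((l : ℝ) - k) * ((l : ℝ) / 8 - H)} (W N)).card : ℝ) ≤ 2 ^ N * Real.exp (-z) := by
  by_cases hc : b + l ≤ N ∧ k ≤ l ∧ (k : ℝ) * ((l : ℝ) - k) ≠ 0
  · obtain ⟨c1, c2, c3⟩ := hc
    obtain ⟨-, t2, t3, -⟩ := hTENT b l k c2
    have hm : 0 < (k : ℝ) * ((l : ℝ) - k) :=
      (mul_nonneg (Nat.cast_nonneg k) (sub_nonneg.mpr (Nat.cast_le.mpr c2))).lt_of_ne' c3
    have hN0 : (0 : ℝ) < N := Nat.cast_pos.mpr (Nat.pos_of_ne_zero fun h => c3 (by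
      rw [show k = 0 by omega, Nat.cast_zero, zero_mul]))
    generalize (k : ℝ) * ((l : ℝ) - k) = m at *
    obtain ⟨ω, hω⟩ : ∃ ω : ℕ → ℝ, ∀ p, ω p = if p ∈ Ioo b (b + l) then tent b l k p else 0 :=
      ⟨_, fun _ => rfl⟩
    have w1 : ∀ p, 0 ≤ ω p ∧ ω p ≤ m := fun p => by
      rw [hω]
      split_ifs with h
      exacts [t3 p h, ⟨le_rfl, hm.le⟩]
    have w0 : ω 0 = 0 := by simp [hω]
    have wN : ω N = 0 := by rw [hω, if_neg]; rw [mem_Ioo]; omega
    have h1 : ∀ F : ℕ → ℝ, ∑ p ∈ range N, (if p ∈ Ioo b (b + l) then F p else 0) =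
        ∑ p ∈ Ioo b (b + l), F p := fun F => by
      rw [sum_ite_mem, inter_eq_right.mpr fun p hp =>
        mem_range.mpr ((mem_Ioo.mp hp).2.trans_le c1)]
    have h2 := hHOEF N (fun i h => (ω (i + 1) - ω i * (1 - ((h i : ℝ) - h (i - 1)))) / 4)
      (fun _ => m / 2) (H * m) (N * (m / 2) ^ 2)
      (fun i h h' e => by rw [e i le_rfl, e (i - 1) (Nat.sub_le _ _)])
      (fun i hi h hh => by
        have a1 := w1 i
        have a2 := w1 (i + 1)
        rw [abs_le]
        rcases i with _ | i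
        · rw [w0]; constructor <;> linarith
        · rw [Nat.add_sub_cancel]
          rcases W_step hh (show i < N by omega) with a | a <;> rw [a] <;> push_cast <;>
            constructor <;> linarith)
      (by positivity) (by positivity) (by simp)
    refine (Nat.cast_le.mpr (card_le_card fun h hh => ?_)).trans (h2.trans ?_)
    · obtain ⟨a1, -, -, a2⟩ := mem_sec.mp hh
      refine mem_sec.mpr ⟨a1, ?_⟩
      have a3 := val_eq a1 ω w0 wN
      have a4 : ∑ p ∈ range N, ω p = m * l / 2 := by simp only [hω, h1, t2]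
      have a5 : Val (tent b l k) (Ioo b (b + l)) h = ∑ p ∈ range N, if val h p then ω p else 0 := by
        rw [Val, ← h1]
        refine sum_congr rfl fun p _ => ?_
        rw [hω]
        split_ifs <;> rfl
      rw [a5, a3, a4] at a2
      simp only [Set.mem_ofPred_eq]
      linarith
    · gcongr
      rw [le_div_iff₀ (by positivity)]
      nlinarith [mul_le_mul_of_nonneg_right hN (sq_nonneg m), mul_nonneg (mul_nonneg hz hN0.le)
        (sq_nonneg m)]
  · refine emp fun h H => hc ⟨H.1, H.2.1, fun e => ?_⟩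
    have h1 := H.2.2
    rw [e, zero_mul] at h1
    refine h1.not_ge (sum_nonneg fun p hp => ?_)
    split_ifs
    exacts [((hTENT b l k H.2.1).2.2.1 p hp).1, le_rfl]

end BADx

open BADx in
theorem p_BAD (hTENT : S_TENT) (hHOEF : S_HOEF) : S_BAD := by
  intro N z H hz hH hN
  let A : ℝ → ℕ → ℕ → Finset Fn := fun ε i j =>
    sec {h | i < j ∧ j ≤ N ∧ √(2 * z * ((j : ℝ) - i)) ≤ ε * ((h j : ℝ) - h i)} (W N)
  let B : ℕ → ℕ → ℕ → Finset Fn := fun b l k =>
    sec {h | b + l ≤ N ∧ k ≤ l ∧ Val (tent b l k) (Ioo b (b + l)) h <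
      (k : ℝ) * ((l : ℝ) - k) * ((l : ℝ) / 8 - H)} (W N)
  have h1 : bad N z H ⊆ (range (N + 1) ×ˢ range (N + 1) ×ˢ range (N + 1)).biUnion fun x =>
      A 1 x.1 x.2.1 ∪ A (-1) x.1 x.2.1 ∪ B x.1 x.2.1 x.2.2 := by
    intro h hh
    obtain ⟨a1, a2⟩ := mem_bad.mp hh
    simp only [Good, not_and_or, not_forall, not_le] at a2
    rw [mem_biUnion]
    rcases a2 with ⟨i, j, b1, b2, b3⟩ | ⟨b, l, k, b1, b2, b3⟩
    · have b4 : i < j := b1.lt_of_ne fun e => by simp [e] at b3
      refine ⟨(i, j, 0), by simp only [mem_product, mem_range]; omega, mem_union_left _ ?_⟩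
      have b5 := Real.sqrt_le_sqrt b3.le
      rw [Real.sqrt_sq_eq_abs, le_abs] at b5
      exact mem_union.mpr (b5.imp (fun e => mem_sec.mpr ⟨a1, b4, b2, by simpa using e⟩)
        fun e => mem_sec.mpr ⟨a1, b4, b2, by simpa using e⟩)
    · exact ⟨(b, l, k), by simp only [mem_product, mem_range]; omega,
        mem_union_right _ (mem_sec.mpr ⟨a1, b1, b2, b3⟩)⟩
  refine (Nat.cast_le.mpr ((card_le_card h1).trans card_biUnion_le)).trans ?_
  rw [Nat.cast_sum]
  refine (sum_le_card_nsmul _ _ (3 * (2 ^ N * Real.exp (-z))) fun x _ => ?_).trans_eq ?_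
  · have a1 := (card_union_le _ (B x.1 x.2.1 x.2.2)).trans
      (Nat.add_le_add_right (card_union_le (A 1 x.1 x.2.1) (A (-1) x.1 x.2.1)) _)
    have a2 := (Nat.cast_le (α := ℝ)).mpr a1
    push_cast at a2
    linarith [seg hHOEF N hz abs_one x.1 x.2.1, seg hHOEF N hz (ε := -1) (by simp) x.1 x.2.1,
      ten hTENT hHOEF N hz hH hN x.1 x.2.1 x.2.2]
  · simp only [card_product, card_range, nsmul_eq_mul]
    push_cast
    ring

end Pool.Agent.P.MP_e6a929_co.AS
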