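import Pool.Agent.P.MP_e6a929_co.AS.Iface

/-! Step BAL of the asymptotic Sperner project. -/

namespace Pool.Agent.P.MP_e6a929_co.AS

open Finset Function Filter

open scoped Classical

namespace BALx

theorem nn {a : ℕ} {g : Fn} (hg : g ∈ W a) (c : ℤ) :
    (∀ i, 0 ≤ update g (a + 1) c i) ↔ (∀ i, 0 ≤ g i) ∧ 0 ≤ c := by
  refine ⟨fun h => ⟨fun i => ?_, by simpa using h (a + 1)⟩, fun h i => ?_⟩
  · by_cases e : i = a + 1
    · rw [W_after hg (by omega)]
    · simpa [update_of_ne e] using h i
  · by_cases e : i = a + 1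
    · rw [e, update_self]; exact h.2
    · rw [update_of_ne e]; exact h.1 i

theorem last (a : ℕ) (σ τ : ℤ) (h0 : 0 ≤ σ) (h : σ = τ + 1 ∨ σ = τ - 1) :
    (sec {g | g a = τ} (bal (a + 1) σ)).card = (bal a τ).card := by
  rw [sec, bal, bal, filter_filter, card_filter, card_filter, sum_W_succ]
  refine sum_congr rfl fun g hg => ?_
  simp only [nn hg, update_self, Set.mem_ofPred_eq, update_of_ne (show a ≠ a + 1 by omega)]
  by_cases e : ∀ i, 0 ≤ g i
  · simp only [e, implies_true, true_and]
    split_ifs <;> omega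
  · simp only [e, false_and, if_false]

theorem step (a : ℕ) (σ : ℤ) (h0 : 0 ≤ σ) :
    (bal (a + 1) σ).card = (bal a (σ - 1)).card + (bal a (σ + 1)).card := by
  rw [← last a σ (σ - 1) h0 (by omega), ← last a σ (σ + 1) h0 (by omega),
    ← card_union_of_disjoint]
  · refine congrArg card (Finset.ext fun g => ?_)
    simp only [mem_union, mem_sec, Set.mem_ofPred_eq]
    refine ⟨fun h => ?_, fun h => h.elim (·.1) (·.1)⟩
    have h1 := W_step (mem_bal.1 h).1 (Nat.lt_succ_self a)
    have h2 := (mem_bal.1 h).2.2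
    rcases h1 with h1 | h1
    · exact Or.inl ⟨h, by omega⟩
    · exact Or.inr ⟨h, by omega⟩
  · rw [disjoint_left]
    intro g h1 h2
    have e1 : g a = σ - 1 := (mem_sec.1 h1).2
    have e2 : g a = σ + 1 := (mem_sec.1 h2).2
    omega

theorem empty {a : ℕ} {τ : ℤ} (h : τ < 0 ∨ (a : ℤ) < τ) : (bal a τ).card = 0 := by
  rw [card_eq_zero, eq_empty_iff_forall_notMem]
  intro g hg
  obtain ⟨h1, h2, h3⟩ := mem_bal.1 hg
  have := h2 a
  have := W_lip h1 (Nat.zero_le a) le_rfl
  have := W_zero h1
  omega

theorem main (a : ℕ) : ∀ (k : ℕ) (σ : ℤ), σ + 2 * k = a → -1 ≤ σ →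
    (bal a σ).card + (a + 1).choose k = 2 * a.choose k := by
  induction a with
  | zero =>
    intro k σ h1 h2
    obtain rfl : k = 0 := by omega
    obtain rfl : σ = 0 := by omega
    have : bal 0 0 = {0} := by
      ext g
      simp only [mem_bal, W, mem_singleton]
      exact ⟨fun h => h.1, fun h => by simp [h]⟩
    simp [this]
  | succ a ih =>
    intro k σ h1 h2
    rcases h2.eq_or_lt with h2 | h2
    · obtain ⟨m, rfl⟩ : ∃ m, k = m + 1 := ⟨k - 1, by omega⟩
      obtain rfl : a = 2 * m := by omega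
      rw [empty (by omega), Nat.choose_succ_succ', Nat.choose_symm_half]
      omega
    · rw [step a σ (by omega)]
      have e1 := ih k (σ - 1) (by omega) (by omega)
      cases k with
      | zero =>
        rw [empty (τ := σ + 1) (by omega)]
        simpa using e1
      | succ m =>
        have e2 := ih m (σ + 1) (by omega) (by omega)
        have e3 := Nat.choose_succ_succ' (a + 1) m
        have e4 := Nat.choose_succ_succ' a m
        omega

end BALx

open BALx in
theorem p_BAL : S_BAL := by
  refine ⟨fun σ k => ?_, fun n => ?_, last⟩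
  · have h1 := main (σ + 2 * k) k σ (by push_cast; rfl) (by omega)
    have h2 := Nat.choose_mul_succ_eq (σ + 2 * k) k
    rw [show σ + 2 * k + 1 - k = σ + k + 1 by omega] at h2
    zify at h1 h2 ⊢
    linear_combination ((σ : ℤ) + 2 * k + 1) * h1 + 2 * h2
  · have h1 := main (2 * n) n 0 (by push_cast; ring) (by omega)
    have h2 := Nat.choose_mul_succ_eq (2 * n) n
    rw [show 2 * n + 1 - n = n + 1 by omega] at h2
    rw [Dy, Nat.centralBinom_eq_two_mul_choose]
    zify at h1 h2 ⊢
    linear_combination ((n : ℤ) + 1) * h1 + h2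

end Pool.Agent.P.MP_e6a929_co.AS
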