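import Pool.Agent.P.MP_e6a929_co.AS.Iface

/-! Step BIN of the asymptotic Sperner project. -/

namespace Pool.Agent.P.MP_e6a929_co.AS

open Finset Function Filter

open scoped Classical

namespace BINx

theorem up (j : ℕ) : j.centralBinom ^ 2 * (2 * j + 1) ≤ 16 ^ j := by
  induction j with
  | zero => simp
  | succ j ih =>
    have h := Nat.succ_mul_centralBinom_succ j
    refine Nat.le_of_mul_le_mul_left (c := (j + 1) ^ 2) ?_ (by positivity)
    calc (j + 1) ^ 2 * ((j + 1).centralBinom ^ 2 * (2 * (j + 1) + 1))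
        = ((j + 1) * (j + 1).centralBinom) ^ 2 * (2 * j + 3) := by ring
      _ = (4 * ((2 * j + 1) * (2 * j + 3))) * (j.centralBinom ^ 2 * (2 * j + 1)) := by
          rw [h]; ring
      _ ≤ (16 * (j + 1) ^ 2) * 16 ^ j := Nat.mul_le_mul (by nlinarith) ih
      _ = _ := by ring

theorem low (n : ℕ) : 16 ^ (n + 1) ≤ 4 * (n + 1) * (n + 1).centralBinom ^ 2 := by
  induction n with
  | zero => decide
  | succ n ih =>
    have h := Nat.succ_mul_centralBinom_succ (n + 1)
    refine Nat.le_of_mul_le_mul_left (c := n + 1 + 1) ?_ (by positivity)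
    calc (n + 1 + 1) * 16 ^ (n + 1 + 1) = (16 * (n + 2)) * 16 ^ (n + 1) := by ring
      _ ≤ (16 * (n + 2)) * (4 * (n + 1) * (n + 1).centralBinom ^ 2) := Nat.mul_le_mul_left _ ih
      _ = (16 * (4 * ((n + 1) * (n + 2)))) * (n + 1).centralBinom ^ 2 := by ring
      _ ≤ (16 * (2 * n + 3) ^ 2) * (n + 1).centralBinom ^ 2 :=
          Nat.mul_le_mul_right _ (by nlinarith)
      _ = 4 * ((n + 1 + 1) * (n + 1 + 1).centralBinom) ^ 2 := by rw [h]; ring
      _ = _ := by ring

end BINx

theorem p_BIN : S_BIN := by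
  refine ⟨fun k i => ?_, fun n => ?_⟩
  · refine le_trans (Nat.mul_le_mul_right _ (Nat.pow_le_pow_left (Nat.choose_le_middle i k) 2)) ?_
    rcases Nat.even_or_odd' k with ⟨j, rfl | rfl⟩
    · have := BINx.up j
      rw [show 2 * j / 2 = j by omega, ← Nat.centralBinom_eq_two_mul_choose, pow_mul]
      exact le_trans (Nat.mul_le_mul_left _ (Nat.le_succ _)) this
    · have h1 := BINx.up (j + 1)
      have h2 : (j + 1).centralBinom = 2 * (2 * j + 1).choose j := by
        rw [Nat.centralBinom_eq_two_mul_choose, show 2 * (j + 1) = (2 * j + 1) + 1 by ring,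
          Nat.choose_succ_succ, Nat.choose_symm_half]
        ring
      rw [show (2 * j + 1) / 2 = j by omega, pow_succ 4, pow_mul]
      rw [h2, pow_succ 16] at h1
      norm_num
      nlinarith
  · cases n with
    | zero => simp
    | succ n =>
      exact (BINx.low n).trans (Nat.mul_le_mul_right _ (by omega))

end Pool.Agent.P.MP_e6a929_co.AS
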