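import Pool.Agent.P.MP_e6a929_co.AS.Iface

/-! Step BLK of the asymptotic Sperner project. -/

namespace Pool.Agent.P.MP_e6a929_co.AS

open Finset Function Filter

open scoped Classical

theorem p_BLK (hSBP : S_SBP) (hTENT : S_TENT) : S_BLK := by
  intro N X b l k hX hb hk hU
  obtain ⟨t1, -, t3, -⟩ := hTENT b l k hk
  obtain ⟨s1, s2⟩ := hSBP N X (Ioo b (b + l)) (tent b l k) hX
    (fun p hp => by have := mem_Ioo.1 hp; omega) hU
  simp only [t1] at s1 s2
  exact ⟨fun A U θ hC hA h0 hθ => s1 A U θ hC hA (fun p hp => (t3 p hp).1) h0 hθ, s2⟩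

end Pool.Agent.P.MP_e6a929_co.AS
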