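import Pool.Agent.P.MP_e6a929_co.AS.Iface

/-! Step BR of the asymptotic Sperner project. -/

namespace Pool.Agent.P.MP_e6a929_co.AS

open Finset Function Filter

open scoped Classical

namespace BRx

theorem mem_E {n : ℕ} {A : Finset (Finset (Fin n))} :
    A ∈ E n ↔ A ⊆ Itv n ∧ ∀ I ∈ A, ∀ J ∈ A, I ⊆ J → I = J := by
  unfold E
  rw [mem_filter, mem_powerset]

theorem antisymm {n : ℕ} {A B : Finset (Finset (Fin n))} (hA : A ∈ E n) (h1 : Le A B)
    (h2 : Le B A) : A ⊆ B := by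
  intro I hI
  obtain ⟨J, hJ, hJI⟩ := h1 I hI
  obtain ⟨I', hI', hIJ⟩ := h2 J hJ
  have e : I' = I := (mem_E.1 hA).2 I' hI' I hI (hIJ.trans hJI)
  have e' : J = I := Subset.antisymm hJI (e ▸ hIJ)
  exact e' ▸ hJ

theorem eq_of_rank {n : ℕ} {A B : Finset (Finset (Fin n))} (hA : A ∈ E n) (hB : B ∈ E n)
    (h : Le A B) (hr : rank n A = rank n B) : A = B := by
  have hsub : ((Itv n).filter fun K => ∃ J ∈ A, J ⊆ K) ⊆
      (Itv n).filter fun K => ∃ J ∈ B, J ⊆ K := by
    intro K hK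
    obtain ⟨hK1, I, hI, hIK⟩ := mem_filter.1 hK
    obtain ⟨J, hJ, hJI⟩ := h I hI
    exact mem_filter.2 ⟨hK1, J, hJ, hJI.trans hIK⟩
  have heq := eq_of_subset_of_card_le hsub (le_of_eq hr.symm)
  have h2 : Le B A := by
    intro J hJ
    have : J ∈ (Itv n).filter fun K => ∃ J ∈ B, J ⊆ K :=
      mem_filter.2 ⟨(mem_E.1 hB).1 hJ, J, hJ, Subset.refl _⟩
    rw [← heq] at this
    exact (mem_filter.1 this).2
  exact Subset.antisymm (antisymm hA h h2) (antisymm hB h2 h)

theorem le_width {n : ℕ} {F : Finset (Finset (Finset (Fin n)))} (hF : F ⊆ E n)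
    (h : ∀ A ∈ F, ∀ B ∈ F, Le A B → A = B) : F.card ≤ width n := by
  unfold width
  exact Finset.le_sup (f := card) (mem_filter.2 ⟨mem_powerset.2 hF, h⟩)

theorem exists_width (n : ℕ) : ∃ F : Finset (Finset (Finset (Fin n))), F ⊆ E n ∧
    (∀ A ∈ F, ∀ B ∈ F, Le A B → A = B) ∧ F.card = width n := by
  unfold width
  obtain ⟨F, hF, h⟩ := Finset.exists_mem_eq_sup
    ((E n).powerset.filter fun F => ∀ A ∈ F, ∀ B ∈ F, Le A B → A = B)
    ⟨∅, mem_filter.2 ⟨mem_powerset.2 (empty_subset _), fun A hA => absurd hA (notMem_empty A)⟩⟩ card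
  exact ⟨F, mem_powerset.1 (mem_filter.1 hF).1, (mem_filter.1 hF).2, h.symm⟩

theorem le_level {n : ℕ} {A : Finset (Finset (Fin n))} (hA : A ∈ E n)
    {F : Finset (Finset (Finset (Fin n)))} (hF : ∀ B ∈ F, B ∈ E n ∧ rank n B = rank n A) :
    F.card ≤ maxLevel n := by
  unfold maxLevel
  refine le_trans (card_le_card fun B hB => mem_filter.2 (hF B hB))
    (Finset.le_sup (f := fun A => ((E n).filter fun B => rank n B = rank n A).card) hA)

end BRx

open BRx in
theorem p_BR (hBRA : S_BRA) (hBRB : S_BRB) (hBRC : S_BRC) : S_BR := by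
  intro n
  have hinj : ∀ h ∈ Dy (n + 1), ∀ h' ∈ Dy (n + 1), Psi n h = Psi n h' → h = h' :=
    fun h hh h' hh' e => (hBRB n h hh).2 h' hh' ((hBRA n h hh).2.2.2 h' hh' e)
  refine ⟨?_, ?_, fun k => ?_, ?_⟩
  · have h0 : (∅ : Finset (Finset (Fin n))) ∈ E n :=
      mem_E.2 ⟨empty_subset _, fun I hI => absurd hI (notMem_empty I)⟩
    have := le_level (F := {∅}) h0 fun B hB => by
      rw [mem_singleton.1 hB]
      exact ⟨h0, rfl⟩
    simpa using this
  · unfold maxLevel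
    refine Finset.sup_le fun A _ => le_width (filter_subset _ _) fun B hB C hC hle => ?_
    obtain ⟨hB1, hB2⟩ := mem_filter.1 hB
    obtain ⟨hC1, hC2⟩ := mem_filter.1 hC
    exact eq_of_rank hB1 hC1 hle (hB2.trans hC2.symm)
  · rcases (lev (n + 1) k).eq_empty_or_nonempty with h | ⟨h₀, hh₀⟩
    · rw [h, card_empty]
      exact Nat.zero_le _
    · have hc : ((lev (n + 1) k).image (Psi n)).card = (lev (n + 1) k).card :=
        card_image_of_injOn fun h hh h' hh' e =>
          hinj h (mem_lev.1 hh).1 h' (mem_lev.1 hh').1 e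
      rw [← hc]
      refine le_level (hBRA n h₀ (mem_lev.1 hh₀).1).1 fun B hB => ?_
      obtain ⟨h, hh, rfl⟩ := mem_image.1 hB
      refine ⟨(hBRA n h (mem_lev.1 hh).1).1, ?_⟩
      rw [(hBRA n h (mem_lev.1 hh).1).2.1, (hBRA n h₀ (mem_lev.1 hh₀).1).2.1]
      have e1 := (hBRB n h (mem_lev.1 hh).1).1
      have e2 := (hBRB n h₀ (mem_lev.1 hh₀).1).1
      rw [(mem_lev.1 hh).2] at e1
      rw [(mem_lev.1 hh₀).2] at e2
      omega
  · obtain ⟨F, hF, hanti, hcard⟩ := exists_width n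
    by_cases h0 : ({∅} : Finset (Finset (Fin n))) ∈ F
    · left
      rw [← hcard]
      refine card_le_one.2 fun A hA B hB => ?_
      have key : ∀ C ∈ F, C = {∅} := fun C hC =>
        hanti C hC _ h0 fun I _ => ⟨∅, mem_singleton_self _, empty_subset _⟩
      rw [key A hA, key B hB]
    · right
      refine ⟨(Dy (n + 1)).filter fun h => Psi n h ∈ F, filter_subset _ _,
        fun h hh h' hh' hle => ?_, ?_⟩
      · obtain ⟨h1, h2⟩ := mem_filter.1 hh
        obtain ⟨h1', h2'⟩ := mem_filter.1 hh'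
        exact hinj h h1 h' h1' (hanti _ h2' _ h2 ((hBRA n h h1).2.2.1 h' hle)).symm
      · rw [← hcard]
        refine card_bij (fun h _ => Psi n h) (fun h hh => (mem_filter.1 hh).2)
          (fun h hh h' hh' e => hinj h (mem_filter.1 hh).1 h' (mem_filter.1 hh').1 e)
          fun A hA => ?_
        rcases hBRC n A (hF hA) with e | ⟨h, hh, e⟩
        · exact absurd (e ▸ hA) h0
        · exact ⟨h, mem_filter.2 ⟨hh, e ▸ hA⟩, e⟩

end Pool.Agent.P.MP_e6a929_co.AS
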