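import Pool.Agent.P.MP_e6a929_co.AS.Iface

/-! Step BRA of the asymptotic Sperner project. -/

namespace Pool.Agent.P.MP_e6a929_co.AS

open Finset Function Filter

open scoped Classical

namespace BRAx

theorem mem_Dh {n : ℕ} {h : Fn} {I : Finset (Fin n)} : I ∈ Dh n h ↔ ∃ i j : Fin n, i ≤ j ∧
    h (i.val + j.val + 2) ≤ (j.val : ℤ) - i.val ∧ Icc i j = I := by
  unfold Dh
  simp only [mem_image, mem_filter, mem_univ, true_and, Prod.exists, and_assoc]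

theorem mem_Itv {n : ℕ} {I : Finset (Fin n)} :
    I ∈ Itv n ↔ ∀ x ∈ I, ∀ y ∈ I, ∀ z, x ≤ z → z ≤ y → z ∈ I := by
  unfold Itv
  simp only [mem_filter, mem_univ, true_and]

theorem Dh_sub {n : ℕ} {h : Fn} : Dh n h ⊆ Itv n := by
  intro I hI
  obtain ⟨i, j, -, -, rfl⟩ := mem_Dh.1 hI
  refine mem_Itv.2 fun x hx y hy z h1 h2 => ?_
  rw [mem_Icc] at *
  exact ⟨hx.1.trans h1, h2.trans hy.2⟩

theorem mem_Psi {n : ℕ} {h : Fn} {I : Finset (Fin n)} :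
    I ∈ Psi n h ↔ I ∈ Dh n h ∧ ∀ J ∈ Dh n h, J ⊆ I → J = I := mem_filter

theorem exists_min {n : ℕ} {h : Fn} {I : Finset (Fin n)} (hI : I ∈ Dh n h) :
    ∃ J ∈ Psi n h, J ⊆ I := by
  obtain ⟨J, hJ, hm⟩ := exists_min_image ((Dh n h).filter (· ⊆ I)) card
    ⟨I, mem_filter.2 ⟨hI, Subset.rfl⟩⟩
  obtain ⟨h1, h2⟩ := mem_filter.1 hJ
  exact ⟨J, mem_Psi.2 ⟨h1, fun K hK hKJ =>
    eq_of_subset_of_card_le hKJ (hm K (mem_filter.2 ⟨hK, hKJ.trans h2⟩))⟩, h2⟩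

theorem key {n : ℕ} {h : Fn} (hh : h ∈ Dy (n + 1)) :
    ((Itv n).filter fun K => ∃ J ∈ Psi n h, J ⊆ K) = Dh n h := by
  ext K
  rw [mem_filter]
  refine ⟨fun ⟨hK, J, hJ, hJK⟩ => ?_, fun hK => ⟨Dh_sub hK, exists_min hK⟩⟩
  obtain ⟨i, j, hij, hle, rfl⟩ := mem_Dh.1 (mem_Psi.1 hJ).1
  have hi : i ∈ K := hJK (mem_Icc.2 ⟨le_rfl, hij⟩)
  have hj : j ∈ K := hJK (mem_Icc.2 ⟨hij, le_rfl⟩)
  have hne : K.Nonempty := ⟨i, hi⟩
  have a1 : K.min' hne ≤ i := min'_le K i hi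
  have a2 : j ≤ K.max' hne := le_max' K j hj
  refine mem_Dh.2 ⟨K.min' hne, K.max' hne, a1.trans (hij.trans a2), ?_, ?_⟩
  · generalize K.min' hne = i' at *
    generalize K.max' hne = j' at *
    have hW := (mem_Dy.1 hh).1
    have b1 := i.2
    have b2 := j.2
    have b3 := i'.2
    have b4 := j'.2
    rw [Fin.le_def] at a1 a2 hij
    rcases le_total (i.val + j.val + 2) (i'.val + j'.val + 2) with e | e
    · have := (W_lip hW e (by omega)).1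
      push_cast at this
      omega
    · have := (W_lip hW e (by omega)).2
      push_cast at this
      omega
  · ext z
    rw [mem_Icc]
    exact ⟨fun hz => mem_Itv.1 hK _ (min'_mem K hne) _ (max'_mem K hne) z hz.1 hz.2,
      fun hz => ⟨min'_le K z hz, le_max' K z hz⟩⟩

end BRAx

open BRAx in
theorem p_BRA : S_BRA := by
  intro n h hh
  refine ⟨?_, ?_, fun h' hle I hI => ?_, fun h' hh' e => ?_⟩
  · unfold E
    refine mem_filter.2 ⟨mem_powerset.2 fun I hI => Dh_sub (mem_Psi.1 hI).1,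
      fun I hI J hJ hIJ => (mem_Psi.1 hJ).2 I (mem_Psi.1 hI).1 hIJ⟩
  · unfold rank
    rw [← key hh]
  · obtain ⟨i, j, hij, h1, rfl⟩ := mem_Dh.1 (mem_Psi.1 hI).1
    exact exists_min (mem_Dh.2 ⟨i, j, hij, (hle _).trans h1, rfl⟩)
  · rw [← key hh, ← key hh', e]

end Pool.Agent.P.MP_e6a929_co.AS
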