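import Pool.Agent.P.MP_e6a929_co.AS.Iface

/-! Step BRB of the asymptotic Sperner project. -/

namespace Pool.Agent.P.MP_e6a929_co.AS

open Finset Function Filter

open scoped Classical

namespace BRBx

theorem icc_inj {n : ℕ} {a b c d : Fin n} (hab : a ≤ b) (e : Icc a b = Icc c d) :
    a = c ∧ b = d := by
  have h1 : a ∈ Icc c d := e ▸ mem_Icc.2 ⟨le_rfl, hab⟩
  have h2 : b ∈ Icc c d := e ▸ mem_Icc.2 ⟨hab, le_rfl⟩
  rw [mem_Icc] at h1 h2
  have hcd : c ≤ d := h1.1.trans h1.2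
  have h3 : c ∈ Icc a b := e.symm ▸ mem_Icc.2 ⟨le_rfl, hcd⟩
  have h4 : d ∈ Icc a b := e.symm ▸ mem_Icc.2 ⟨hcd, le_rfl⟩
  rw [mem_Icc] at h3 h4
  exact ⟨le_antisymm h3.1 h1.1, le_antisymm h2.2 h4.2⟩

theorem bounds {n p : ℕ} {h : Fn} (hh : h ∈ Dy (n + 1)) (hp : p ≤ 2 * (n + 1)) :
    0 ≤ h p ∧ h p ≤ p ∧ h p ≤ 2 * (n : ℤ) + 2 - p ∧ h p % 2 = (p : ℤ) % 2 := by
  obtain ⟨hW, h0, hN⟩ := mem_Dy.1 hh
  have a1 := W_lip hW (Nat.zero_le p) hp
  have a2 := W_lip hW hp le_rfl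
  have a3 := W_zero hW
  have a4 := W_parity hW hp
  have a5 := h0 p
  push_cast at a1 a2
  refine ⟨a5, by omega, by omega, a4⟩

theorem sum_min (m : ℕ) :
    ∑ p ∈ range (2 * m), min (p : ℤ) (2 * (m : ℤ) - p) = (m : ℤ) ^ 2 := by
  induction m with
  | zero => simp
  | succ m ih =>
    rw [show 2 * (m + 1) = 2 * m + 1 + 1 by ring, sum_range_succ']
    have e : ∀ p ∈ range (2 * m + 1), min (((p + 1 : ℕ) : ℤ)) (2 * ((m + 1 : ℕ) : ℤ) - (p + 1 : ℕ)) =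
        min (p : ℤ) (2 * (m : ℤ) - p) + 1 := by
      intro p _
      push_cast
      omega
    rw [sum_congr rfl e, sum_add_distrib, sum_range_succ, ih]
    have e1 : min (((2 * m : ℕ) : ℤ)) (2 * (m : ℤ) - (2 * m : ℕ)) = 0 := by
      push_cast
      omega
    have e2 : min (((0 : ℕ) : ℤ)) (2 * ((m + 1 : ℕ) : ℤ) - (0 : ℕ)) = 0 := by
      push_cast
      omega
    rw [e1, e2]
    simp only [sum_const, card_range, nsmul_eq_mul]
    push_cast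
    ring

/-- The pairs. -/
def Pr (n : ℕ) (h : Fn) : Finset (Fin n × Fin n) :=
  univ.filter fun p : Fin n × Fin n =>
    p.1 ≤ p.2 ∧ h (p.1.val + p.2.val + 2) ≤ (p.2.val : ℤ) - p.1.val

theorem mem_Pr {n : ℕ} {h : Fn} {q : Fin n × Fin n} : q ∈ Pr n h ↔
    q.1 ≤ q.2 ∧ h (q.1.val + q.2.val + 2) ≤ (q.2.val : ℤ) - q.1.val := by
  simp [Pr]

theorem card_Dh (n : ℕ) (h : Fn) : (Dh n h).card = (Pr n h).card := by
  refine card_image_of_injOn ?_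
  intro q hq q' _ e
  have hq1 := (mem_Pr.1 hq).1
  obtain ⟨e1, e2⟩ := icc_inj hq1 e
  exact Prod.ext e1 e2

theorem card_fib {n p : ℕ} {h : Fn} (hh : h ∈ Dy (n + 1)) (hp : p < 2 * (n + 1)) :
    2 * ((((Pr n h).filter fun q => q.1.val + q.2.val + 2 = p).card : ℕ) : ℤ) =
      min (p : ℤ) (2 * ((n + 1 : ℕ) : ℤ) - p) - h p := by
  obtain ⟨b1, b2, b3, b4⟩ := bounds hh hp.le
  have key : ((Pr n h).filter fun q => q.1.val + q.2.val + 2 = p).card =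
      (Ico ((h p + p - 2) / 2) (min ((p : ℤ) - 1) n)).card := by
    refine card_bij (fun q _ => (q.2.val : ℤ)) ?_ ?_ ?_
    · intro q hq
      obtain ⟨hq1, hq2⟩ := mem_filter.1 hq
      obtain ⟨hq3, hq4⟩ := mem_Pr.1 hq1
      rw [hq2] at hq4
      have := q.2.isLt
      rw [mem_Ico]
      omega
    · intro q hq q' hq' e
      have hq2 := (mem_filter.1 hq).2
      have hq2' := (mem_filter.1 hq').2
      refine Prod.ext (Fin.ext ?_) (Fin.ext ?_) <;> omega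
    · intro z hz
      rw [mem_Ico] at hz
      have hz0 : 0 ≤ z := by omega
      obtain ⟨j, rfl⟩ := Int.eq_ofNat_of_zero_le hz0
      have hj : j < n := by omega
      have hi : p - 2 - j < n := by omega
      have hs : p - 2 - j + j + 2 = p := by omega
      refine ⟨(⟨p - 2 - j, hi⟩, ⟨j, hj⟩), mem_filter.2 ⟨mem_Pr.2 ⟨?_, ?_⟩, hs⟩, rfl⟩
      · show p - 2 - j ≤ j
        omega
      · show h (p - 2 - j + j + 2) ≤ (j : ℤ) - (p - 2 - j : ℕ)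
        rw [hs]
        omega
  rw [key, Int.card_Ico]
  push_cast
  omega

theorem mono {n : ℕ} {h h' : Fn} (hh : h ∈ Dy (n + 1)) (hh' : h' ∈ Dy (n + 1))
    (hs : Dh n h ⊆ Dh n h') (p : ℕ) : h' p ≤ h p := by
  by_contra hlt
  rcases Nat.lt_or_ge (2 * (n + 1)) p with hp | hp
  · rw [W_after (mem_Dy.1 hh).1 hp, W_after (mem_Dy.1 hh').1 hp] at hlt
    exact hlt le_rfl
  obtain ⟨b1, b2, b3, b4⟩ := bounds hh hp
  obtain ⟨c1, c2, c3, c4⟩ := bounds hh' hp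
  obtain ⟨l, hl⟩ := Int.eq_ofNat_of_zero_le b1
  have hi : (p - 2 - l) / 2 < n := by omega
  have hj : (p - 2 + l) / 2 < n := by omega
  have hsum : (p - 2 - l) / 2 + (p - 2 + l) / 2 + 2 = p := by omega
  have hij : (⟨(p - 2 - l) / 2, hi⟩ : Fin n) ≤ ⟨(p - 2 + l) / 2, hj⟩ := by
    show (p - 2 - l) / 2 ≤ (p - 2 + l) / 2
    omega
  have hm : Icc (⟨(p - 2 - l) / 2, hi⟩ : Fin n) ⟨(p - 2 + l) / 2, hj⟩ ∈ Dh n h := by
    refine mem_image.2 ⟨(⟨(p - 2 - l) / 2, hi⟩, ⟨(p - 2 + l) / 2, hj⟩),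
      (mem_Pr (h := h)).2 ⟨hij, ?_⟩, rfl⟩
    show h ((p - 2 - l) / 2 + (p - 2 + l) / 2 + 2) ≤
      (((p - 2 + l) / 2 : ℕ) : ℤ) - ((p - 2 - l) / 2 : ℕ)
    rw [hsum]
    omega
  obtain ⟨q, hq, e⟩ := mem_image.1 (hs hm)
  obtain ⟨e1, e2⟩ := icc_inj hij e.symm
  have hq2 := ((mem_Pr (h := h')).1 hq).2
  rw [← e1, ← e2] at hq2
  change h' ((p - 2 - l) / 2 + (p - 2 + l) / 2 + 2) ≤
      (((p - 2 + l) / 2 : ℕ) : ℤ) - ((p - 2 - l) / 2 : ℕ) at hq2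
  rw [hsum] at hq2
  omega

end BRBx

theorem p_BRB : S_BRB := by
  intro n h hh
  refine ⟨?_, fun h' hh' e => funext fun p =>
    le_antisymm (BRBx.mono hh' hh e.ge p) (BRBx.mono hh hh' e.le p)⟩
  have hc : (BRBx.Pr n h).card = ∑ p ∈ range (2 * (n + 1)),
      ((BRBx.Pr n h).filter fun q => q.1.val + q.2.val + 2 = p).card := by
    refine card_eq_sum_card_fiberwise ?_
    intro q _
    have := q.1.isLt
    have := q.2.isLt
    simp only [coe_range, Set.mem_Iio]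
    omega
  have hs := BRBx.sum_min (n + 1)
  rw [BRBx.card_Dh, hc, Nat.cast_sum, mul_sum,
    sum_congr rfl fun p hp => BRBx.card_fib hh (mem_range.1 hp), sum_sub_distrib, hs, ar]
  push_cast
  ring

end Pool.Agent.P.MP_e6a929_co.AS
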