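import Pool.Agent.P.MP_e6a929_co.AS.Iface

/-! Step BULK of the asymptotic Sperner project. -/

namespace Pool.Agent.P.MP_e6a929_co.AS

open Finset Function Filter

open scoped Classical

namespace BULKx

theorem dens_nonneg (U : Set Fn) (X : Finset Fn) : 0 ≤ dens U X := by unfold dens; positivity

theorem dens_le (U : Set Fn) (X : Finset Fn) : dens U X ≤ 1 :=
  div_le_one_of_le₀ (Nat.cast_le.2 (card_le_card (sec_subset U X))) (Nat.cast_nonneg _)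

theorem card_dens (U : Set Fn) (X : Finset Fn) : X.card * dens U X = (sec U X).card := by
  rcases X.eq_empty_or_nonempty with rfl | h
  · simp [sec]
  · exact mul_div_cancel₀ _ (Nat.cast_ne_zero.2 h.card_pos.ne')

/-- The average over a layer. -/
noncomputable def avg (g : Geo) (φ : (ℕ → ℕ) → ℝ) (t : ℕ) : ℝ :=
  (∑ x ∈ g.L t, (g.fib x).card * φ x) / g.Z t

theorem Z0 (g : Geo) (t : ℕ) : 0 ≤ g.Z t := sum_nonneg fun _ _ => Nat.cast_nonneg _

theorem avg_bd (g : Geo) {φ : (ℕ → ℕ) → ℝ} {B : ℝ} (h : ∀ x, 0 ≤ φ x ∧ φ x ≤ B) (t : ℕ) :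
    0 ≤ avg g φ t ∧ avg g φ t ≤ B := by
  refine ⟨div_nonneg (sum_nonneg fun x _ => mul_nonneg (Nat.cast_nonneg _) (h x).1) (Z0 g t),
    div_le_of_le_mul₀ (Z0 g t) ((h 0).1.trans (h 0).2) ?_⟩
  rw [Geo.Z, mul_sum]
  exact sum_le_sum fun x _ => by
    rw [mul_comm B]; exact mul_le_mul_of_nonneg_left (h x).2 (Nat.cast_nonneg _)

theorem avg_add (g : Geo) (φ ψ : (ℕ → ℕ) → ℝ) (c : ℝ) (t : ℕ) :
    avg g (fun x => φ x + c * ψ x) t = avg g φ t + c * avg g ψ t := by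
  simp only [avg, mul_add, sum_add_distrib, add_div, mul_left_comm _ c, ← mul_sum, mul_div_assoc]

theorem tele (F e : ℕ → ℝ) (c : ℝ) (T : ℕ)
    (h : ∀ t < T, F t + c * e t ≤ F (t + 1) + -c * e (t + 1)) :
    2 * c * ∑ t ∈ range T, e t ≤ F T - F 0 + c * (e 0 - e T) := by
  induction T with
  | zero => simp
  | succ T ih =>
    have := ih fun t ht => h t (by omega)
    have := h T (by omega)
    rw [sum_range_succ]
    linarith

theorem cover {g : Geo} {y ρ : ℕ} (hO : g.Ok y ρ) (hN : Num g y ρ) {h : Fn} (hh : h ∈ Dy g.n)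
    (hG : Good (2 * g.n) ((y : ℝ) ^ 2) (3 * y ^ 21 * ρ : ℕ) h) (hβ : ∀ j ≤ g.M, (g.β : ℤ) ≤ h (g.q j)) :
    ∃ t ≤ 6 * y ^ 61 * ρ, ∃ x ∈ g.L t, h ∈ g.fib x := by
  obtain ⟨h1, h2, h3⟩ := mem_Dy.1 hh
  let x : ℕ → ℕ := fun j => if j ≤ g.M then ((h (g.q j) - g.β) / 2).toNat else 0
  have e : ∀ j ≤ g.M, h (g.q j) = g.β + 2 * (x j : ℤ) := fun j hj => by
    have a := W_parity h1 (i := g.q j) (by have := Geo.q_le (g := g) hj; omega)
    have b := hβ j hj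
    have c := hO.par
    have d : g.q j = g.a + 2 * (g.μ * j) := by rw [Geo.q, mul_assoc]
    simp only [x, if_pos hj]
    omega
  have b : ∀ j ∈ range (g.M + 1), x j ≤ 3 * y ^ 21 * ρ := fun j hj => by
    have hj' : j ≤ g.M := Nat.lt_succ_iff.1 (mem_range.1 hj)
    have a : g.q j ≤ 2 * g.n := by have := Geo.q_le (g := g) hj'; omega
    have a1 := hG.1 0 _ (Nat.zero_le _) a
    have a2 : (g.q j : ℝ) ≤ 2 * g.n := by exact_mod_cast a
    have a3 : 4 * (y : ℝ) ^ 2 * g.n ≤ ((3 * y ^ 21 * ρ : ℕ) : ℝ) ^ 2 := by exact_mod_cast hN.big1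
    rw [W_zero h1, Int.cast_zero, Nat.cast_zero, sub_zero, sub_zero] at a1
    have a4 : (h (g.q j) : ℝ) ≤ ((3 * y ^ 21 * ρ : ℕ) : ℝ) :=
      (abs_le_of_sq_le_sq' (by nlinarith [mul_le_mul_of_nonneg_left a2 (sq_nonneg (y : ℝ))])
        (Nat.cast_nonneg _)).2
    have a5 : h (g.q j) ≤ ((3 * y ^ 21 * ρ : ℕ) : ℤ) := by exact_mod_cast a4
    have := e j hj'
    omega
  refine ⟨_, ?_, x, mem_lay.2 ⟨rfl, fun j hj => ?_⟩,
    Geo.mem_fib.2 ⟨h1, h3, fun i _ => h2 i, fun i _ => h2 i, e⟩⟩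
  · refine (sum_le_card_nsmul _ _ _ b).trans ?_
    rw [card_range]
    exact hN.top1
  · exact mem_range.2 (Nat.lt_succ_iff.2 (by_contra fun a => hj (if_neg a)))

end BULKx

open BULKx in
theorem p_BULK (hNUM : S_NUM) (hNMG : S_NMG) (hCOV : S_COV) : S_BULK := by
  intro g y ρ A U Zm hO hC hA hG hZ
  have hN := hNUM g y ρ hO
  have y0 : (100 : ℝ) ≤ y := by exact_mod_cast hO.hy
  have m0 : (0 : ℝ) < g.μ := by exact_mod_cast hN.mu0
  have r0 : (1 : ℝ) ≤ ρ := by exact_mod_cast hN.rho0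
  obtain ⟨c, hc⟩ : ∃ c : ℝ, c = g.μ * (1 - 5 / y) := ⟨_, rfl⟩
  obtain ⟨ν, hν⟩ : ∃ ν : ℝ, ν = 17 / ((y : ℝ) ^ 20 * g.μ * ρ) := ⟨_, rfl⟩
  have k := hCOV g y ρ A U c ν hO hC (fun h hh => ⟨(mem_Dy.1 (hA hh)).1, (hG h hh).1⟩) hc hν
  have y5 : 5 / (y : ℝ) ≤ 1 := by rw [div_le_one (by linarith)]; linarith
  have c0 : 0 ≤ c := hc ▸ mul_nonneg m0.le (by linarith)
  have n0 : 0 ≤ ν := hν ▸ by positivity
  have c1 : c * ν ≤ 17 / ((y : ℝ) ^ 20 * ρ) := by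
    refine (mul_le_mul_of_nonneg_right (show c ≤ g.μ from hc ▸ mul_le_of_le_one_right m0.le
      (sub_le_self _ (by positivity))) n0).trans_eq ?_
    rw [hν]; field_simp
  set φ : (ℕ → ℕ) → ℝ := fun x => dens U (g.fib x) + 2 * c * ν * g.pot (2 * y ^ 19 * ρ) x
  set ψ : (ℕ → ℕ) → ℝ := fun x => dens A (g.fib x)
  have s := fun t (ht : t ≤ 6 * y ^ 61 * ρ) => hNMG g y ρ t (fun x => φ x + c * ψ x)
    (fun x => φ x + -c * ψ x) hO ht fun x hx j hj => by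
      have := (k x).2 (fun i => (le_of_mem_lay hx i).trans ht) j hj
      simp only [φ, ψ]
      linarith
  have t1 := tele (avg g φ) (avg g ψ) c (6 * y ^ 61 * ρ + 1) fun t ht => by
    rw [← avg_add, ← avg_add]; exact (s t (by omega)).2
  have b1 := avg_bd g (φ := φ) (B := 1 + 2 * c * ν * (4 * y ^ 19 * ρ)) fun x =>
    ⟨add_nonneg (dens_nonneg _ _) (by positivity), add_le_add (dens_le _ _)
      (mul_le_mul_of_nonneg_left (by
        have : g.pot (2 * y ^ 19 * ρ) x ≤ 4 * y ^ 19 * ρ :=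
          (add_le_add (min_le_right _ _) (min_le_right _ _)).trans_eq (by ring)
        exact_mod_cast this) (by positivity))⟩
  have b2 := avg_bd g (φ := ψ) (B := ν) fun x => ⟨dens_nonneg _ _, (k x).1⟩
  have t2 : 2 * c * ∑ t ∈ range (6 * y ^ 61 * ρ + 1), avg g ψ t ≤ 1 + 140 / y := by
    have a1 : (8 * (y : ℝ) ^ 19 * ρ + 1) * (17 / ((y : ℝ) ^ 20 * ρ)) ≤ 140 / y := by
      have : (100 : ℝ) ≤ y ^ 19 * ρ :=
        (y0.trans (le_self_pow₀ (by linarith) (by norm_num))).trans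
          (le_mul_of_one_le_right (by positivity) r0)
      rw [← mul_div_assoc, div_le_div_iff₀ (by positivity) (by positivity), pow_succ (y : ℝ) 19]
      nlinarith [mul_le_mul_of_nonneg_right this (show (0 : ℝ) ≤ y by positivity)]
    have a2 := mul_le_mul_of_nonneg_left c1 (show 0 ≤ 8 * (y : ℝ) ^ 19 * ρ + 1 by positivity)
    have a3 := mul_le_mul_of_nonneg_left (show avg g ψ 0 - avg g ψ (6 * y ^ 61 * ρ + 1) ≤ ν by
      linarith [(b2 0).2, (b2 (6 * y ^ 61 * ρ + 1)).1]) c0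
    linarith [(b1 0).1, (b1 (6 * y ^ 61 * ρ + 1)).2]
  have t3 : (A.card : ℝ) ≤ Zm * ∑ t ∈ range (6 * y ^ 61 * ρ + 1), avg g ψ t := by
    have a1 : A.card ≤ ∑ t ∈ range (6 * y ^ 61 * ρ + 1), ∑ x ∈ g.L t, (sec A (g.fib x)).card := by
      refine le_trans (card_le_card fun h hh => ?_)
        (card_biUnion_le.trans (sum_le_sum fun t _ => card_biUnion_le))
      obtain ⟨t, ht, x, hx, hf⟩ := cover hO hN (hA hh) (hG h hh).1 (hG h hh).2
      exact mem_biUnion.2 ⟨t, mem_range.2 (by omega), mem_biUnion.2 ⟨x, hx, mem_sec.2 ⟨hf, hh⟩⟩⟩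
    refine (Nat.cast_le.2 a1).trans ?_
    rw [mul_sum, Nat.cast_sum]
    refine sum_le_sum fun t ht => ?_
    have ht' : t ≤ 6 * y ^ 61 * ρ := Nat.lt_succ_iff.1 (mem_range.1 ht)
    refine le_trans (le_of_eq ?_) (mul_le_mul_of_nonneg_right (hZ t ht') (b2 t).1)
    rw [avg, mul_div_cancel₀ _ (s t ht').1.ne', Nat.cast_sum]
    exact sum_congr rfl fun x _ => (card_dens _ _).symm
  have z0 : 0 ≤ Zm := (Z0 g 0).trans (hZ 0 (Nat.zero_le _))
  rw [mul_assoc, ← hc]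
  refine (mul_le_mul_of_nonneg_right t3 (by positivity)).trans ?_
  rw [mul_assoc, mul_comm _ (2 * c)]
  exact mul_le_mul_of_nonneg_left t2 z0

end Pool.Agent.P.MP_e6a929_co.AS
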