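import Pool.Agent.P.MP_e6a929_co.AS.Iface

/-! Step CORE of the asymptotic Sperner project. -/

namespace Pool.Agent.P.MP_e6a929_co.AS

open Finset Function Filter

open scoped Classical

namespace COREx

theorem arith {u m L B c : ℝ} (hu0 : 0 ≤ u) (hu : u ≤ 1 / 100) (hm : 1 ≤ m) (hL : 0 ≤ L)
    (hB : B ≤ u * L)
    (h : c * (2 * m * (1 - 5 * u)) ≤ (2 * m * (1 + u) * L + B) / (1 - u) * (1 + 140 * u)) :
    c ≤ (1 + 197 * u) * L := by
  have h1 : 0 < 1 - u := by linarith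
  have h5 : 0 < 1 - 5 * u := by linarith
  have hm0 : 0 < 2 * m := by linarith
  rw [div_mul_eq_mul_div, le_div_iff₀ h1] at h
  have hB' : B ≤ 2 * m * (u * L) := by
    have := mul_nonneg hu0 hL
    nlinarith
  have e1 : (2 * m * (1 + u) * L + B) * (1 + 140 * u) ≤
      2 * m * (L * ((1 + 2 * u) * (1 + 140 * u))) := by
    have : 2 * m * (1 + u) * L + B ≤ 2 * m * (L * (1 + 2 * u)) := by linarith
    calc _ ≤ 2 * m * (L * (1 + 2 * u)) * (1 + 140 * u) :=
          mul_le_mul_of_nonneg_right this (by linarith)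
      _ = _ := by ring
  have e2 : (1 + 2 * u) * (1 + 140 * u) ≤ (1 + 197 * u) * ((1 - 5 * u) * (1 - u)) := by
    have a1 : u * u ≤ u * (1 / 100) := mul_le_mul_of_nonneg_left hu hu0
    have a2 : 0 ≤ u * u * u := by positivity
    nlinarith
  have e3 : 2 * m * (c * ((1 - 5 * u) * (1 - u))) ≤
      2 * m * ((1 + 197 * u) * L * ((1 - 5 * u) * (1 - u))) := by
    calc _ = c * (2 * m * (1 - 5 * u)) * (1 - u) := by ring
      _ ≤ _ := h
      _ ≤ _ := e1
      _ ≤ 2 * m * (L * ((1 + 197 * u) * ((1 - 5 * u) * (1 - u)))) :=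
          mul_le_mul_of_nonneg_left (mul_le_mul_of_nonneg_left e2 hL) hm0.le
      _ = _ := by ring
  exact le_of_mul_le_mul_right (le_of_mul_le_mul_left e3 hm0) (mul_pos h5 h1)

end COREx

theorem p_CORE (hNUM : S_NUM) (hBULK : S_BULK) (hZMAX : S_ZMAX) (hREST : S_REST) : S_CORE := by
  intro g y ρ Λ A ok hexp hlev hA hanti
  obtain ⟨U, hU⟩ := exists_cut hanti
  have num := hNUM g y ρ ok
  obtain ⟨r1, r2⟩ := hREST g y ρ Λ ok hexp hlev
  have hΛ : 0 ≤ Λ := (Nat.cast_nonneg _).trans (hlev 0)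
  have hy : (100 : ℝ) ≤ y := by exact_mod_cast ok.hy
  have hy0 : (0 : ℝ) < y := by linarith
  set z : ℝ := (y : ℝ) ^ 2 with hz
  set H : ℝ := ((3 * y ^ 21 * ρ : ℕ) : ℝ) with hH
  set B : ℝ := ((bad (2 * g.n) z H).card : ℝ) with hB
  have hB0 : 0 ≤ B := Nat.cast_nonneg _
  have hyn : (y : ℝ) ≤ g.n := by
    have := num.Mn
    have h2 : y ≤ y * (g.M + 1) := Nat.le_mul_of_pos_right _ (Nat.succ_pos _)
    exact_mod_cast h2.trans this
  have hBy : B ≤ 1 / y * Λ := by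
    rw [one_div, inv_mul_eq_div, le_div_iff₀ hy0]
    exact (mul_le_mul_of_nonneg_left hyn hB0).trans r1
  have hu0 : (0 : ℝ) ≤ 1 / y := by positivity
  have hu : (1 : ℝ) / y ≤ 1 / 100 := one_div_le_one_div_of_le (by norm_num) hy
  have hμ : (1 : ℝ) ≤ g.μ := by exact_mod_cast num.mu0
  set A₁ := A.filter fun h => ¬Good (2 * g.n) z H h with hA₁
  set A₂ := A.filter fun h => Good (2 * g.n) z H h ∧ ∃ j ≤ g.M, h (g.q j) ≤ g.β with hA₂
  set A₃ := A.filter fun h => Good (2 * g.n) z H h ∧ ∀ j ≤ g.M, (g.β : ℤ) ≤ h (g.q j) with hA₃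
  have hsub : A ⊆ A₁ ∪ A₂ ∪ A₃ := by
    intro h hh
    simp only [hA₁, hA₂, hA₃, mem_union, mem_filter]
    by_cases c1 : Good (2 * g.n) z H h
    · by_cases c2 : ∃ j ≤ g.M, h (g.q j) ≤ g.β
      · exact Or.inl (Or.inr ⟨hh, c1, c2⟩)
      · refine Or.inr ⟨hh, c1, fun j hj => ?_⟩
        by_contra c3
        exact c2 ⟨j, hj, by omega⟩
    · exact Or.inl (Or.inl ⟨hh, c1⟩)
  have hcard : (A.card : ℝ) ≤ A₁.card + A₂.card + A₃.card := by
    have := (card_le_card hsub).trans ((card_union_le _ _).trans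
      (Nat.add_le_add_right (card_union_le _ _) _))
    exact_mod_cast this
  have c1 : (A₁.card : ℝ) ≤ B := by
    rw [hB]
    refine Nat.cast_le.2 (card_le_card fun h hh => ?_)
    obtain ⟨h1, h2⟩ := mem_filter.1 hh
    exact mem_bad.2 ⟨(mem_Dy.1 (hA h1)).1, h2⟩
  have c2 : (A₂.card : ℝ) ≤ 2 * (1 / y * Λ) := by
    have := r2 A₂ U (hU.mono (filter_subset _ _)) ((filter_subset _ _).trans hA)
      fun h hh => (mem_filter.1 hh).2
    rw [← le_div_iff₀ hy0] at this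
    calc _ ≤ _ := this
      _ = _ := by ring
  have c3 : (A₃.card : ℝ) ≤ (1 + 197 * (1 / y)) * Λ := by
    have h1 : (0 : ℝ) < 1 - 1 / y := by linarith
    have := hBULK g y ρ A₃ U ((2 * g.μ * (1 + 1 / y) * Λ + B) / (1 - 1 / y)) ok
      (hU.mono (filter_subset _ _)) ((filter_subset _ _).trans hA)
      (fun h hh => (mem_filter.1 hh).2)
      fun t ht => (le_div_iff₀ h1).2 (hZMAX g y ρ t H Λ ok ht hlev)
    refine COREx.arith hu0 hu hμ hΛ hBy ?_
    rw [show (5 : ℝ) * (1 / y) = 5 / y by ring, show (140 : ℝ) * (1 / y) = 140 / y by ring]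
    exact this
  calc (A.card : ℝ) ≤ 1 / y * Λ + 2 * (1 / y * Λ) + (1 + 197 * (1 / y)) * Λ := by linarith
    _ = _ := by ring

end Pool.Agent.P.MP_e6a929_co.AS
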