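import Pool.Agent.P.MP_e6a929_co.AS.Iface

/-! Step COV of the asymptotic Sperner project. -/

namespace Pool.Agent.P.MP_e6a929_co.AS

open Finset Function Filter

open scoped Classical

namespace COVx

theorem dens_nonneg (U : Set Fn) (X : Finset Fn) : 0 ≤ dens U X := by
  unfold dens
  positivity

theorem dens_zero {A : Finset Fn} {X : Finset Fn} (h : ∀ f ∈ X, f ∉ A) : dens A X = 0 := by
  have : sec A X = ∅ := eq_empty_of_forall_notMem fun f hf => h f (mem_sec.1 hf).1 (mem_sec.1 hf).2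
  simp [dens, this]

theorem ends {g : Geo} {z H : ℝ} {R j : ℕ} {x : ℕ → ℕ} {h : Fn} (hz : 2 * z * g.a ≤ (R : ℝ) ^ 2)
    (hR : 0 < R) (hj : j = 0 ∨ j = g.M) (hx : R ≤ x j) (hh : h ∈ g.fib x) :
    ¬Good (2 * g.n) z H h := by
  intro hG
  obtain ⟨hW, f1, -, -, f4⟩ := Geo.mem_fib.1 hh
  have e1 := Geo.q_M (g := g)
  have key : ((h (g.q j) : ℤ) : ℝ) ^ 2 ≤ (R : ℝ) ^ 2 := by
    rcases hj with rfl | rfl
    · have := hG.1 0 g.a (Nat.zero_le _) (by omega)
      rw [W_zero hW] at this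
      rw [Geo.q_zero]
      simpa using this.trans (by simpa using hz)
    · have := hG.1 (g.q g.M) (2 * g.n) (by omega) le_rfl
      rw [f1, ← e1] at this
      simpa using this.trans (by simpa using hz)
  rw [f4 j (by omega)] at key
  push_cast at key
  have h1 : (R : ℝ) ≤ x j := by exact_mod_cast hx
  have h2 : (0 : ℝ) < R := by exact_mod_cast hR
  have h3 : (0 : ℝ) ≤ g.β := Nat.cast_nonneg _
  nlinarith

end COVx

open COVx in
theorem p_COV (hNUM : S_NUM) (hRAT : S_RAT) (hDAY : S_DAY) (hMIC : S_MIC) (hFIB : S_FIB) :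
    S_COV := by
  intro g y ρ A U c ν hok hC hA hc hν
  have N := hNUM g y ρ hok
  have hy : (100 : ℝ) ≤ y := by exact_mod_cast hok.hy
  have hy0 : (0 : ℝ) < y := by linarith
  have hμ : (0 : ℝ) < g.μ := by exact_mod_cast N.mu0
  have hρ : (0 : ℝ) < ρ := by exact_mod_cast N.rho0
  have m4 : (y : ℝ) * (4 * ((3 * y ^ 21 * ρ : ℕ) : ℝ)) ≤ g.μ := by exact_mod_cast N.mic4
  have hH0 : (0 : ℝ) ≤ ((3 * y ^ 21 * ρ : ℕ) : ℝ) := Nat.cast_nonneg _
  have hν0 : 0 < ν := by rw [hν]; positivity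
  have hc0 : 0 ≤ c := by
    rw [hc]
    refine mul_nonneg hμ.le (sub_nonneg.2 ?_)
    rw [div_le_one hy0]
    linarith
  have part1 : ∀ x : ℕ → ℕ, dens A (g.fib x) ≤ ν := fun x => by
    have h1 := hFIB g x _ _ A U (by nlinarith) hC fun h hh => (hA h hh).2
    have h2 : (ρ : ℝ) ^ 2 ≤ 2 * g.μ := by exact_mod_cast hok.r2
    have h3 : 128 ≤ ν ^ 2 * (g.M * (g.μ : ℝ) ^ 3) := by
      have e : ν ^ 2 * (g.M * (g.μ : ℝ) ^ 3) = 289 * g.μ / (ρ : ℝ) ^ 2 := by
        rw [hν, hok.hM]
        push_cast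
        field_simp
        norm_num
      rw [e, le_div_iff₀ (by positivity)]
      linarith
    have h4 : (0 : ℝ) < g.M * (g.μ : ℝ) ^ 3 := by
      have : (0 : ℝ) < g.M := by have := N.M2; exact_mod_cast (by omega : 0 < g.M)
      positivity
    exact (pow_le_pow_iff_left₀ (dens_nonneg _ _) hν0.le two_ne_zero).1
      (le_of_mul_le_mul_right (h1.trans h3) h4)
  refine fun x => ⟨part1 x, fun hx j hj => ?_⟩
  have hM := N.M2
  have hne : ∀ x' : ℕ → ℕ, (∀ i, x' i ≤ 6 * y ^ 61 * ρ + 1) → (g.fib x').Nonempty := fun x' h =>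
    (hRAT g x' (by omega) N.mu0 hok.par fun i => by
      have h1 := h i
      have h2 := N.top2
      have h3 := N.rat
      have h4 : 1 * (4 * (8 * y ^ 61 * ρ + 1)) ≤ g.μ :=
        (Nat.mul_le_mul_right _ (by have := hok.hy; omega)).trans N.low2
      omega).2
  have hX := hne x fun i => (hx i).trans (Nat.le_succ _)
  have hX' := hne (inc x j) fun i => (le_inc x j i).2.trans (Nat.succ_le_succ (hx i))
  by_cases hend : j = 0 ∨ j = g.M
  · have hD := hDAY g x j U hC.upper hX'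
    by_cases hR : x j < 2 * y ^ 19 * ρ
    · have hp : g.pot (2 * y ^ 19 * ρ) (inc x j) = g.pot (2 * y ^ 19 * ρ) x + 1 := by
        unfold Geo.pot
        rcases hend with rfl | rfl
        · rw [inc_self, inc_of_ne x (by omega)]
          omega
        · rw [inc_self, inc_of_ne x (by omega)]
          omega
      rw [hp]
      push_cast
      have := mul_le_mul_of_nonneg_left (part1 x) hc0
      have := mul_le_mul_of_nonneg_left (part1 (inc x j)) hc0
      linarith
    · have w1 : 2 * (y : ℝ) ^ 2 * g.a ≤ ((2 * y ^ 19 * ρ : ℕ) : ℝ) ^ 2 := by exact_mod_cast N.win1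
      have hR0 : 0 < 2 * y ^ 19 * ρ := by
        have := N.rho0
        have : 0 < y := by have := hok.hy; omega
        positivity
      have z1 : dens A (g.fib x) = 0 := dens_zero fun f hf hfA =>
        ends w1 hR0 hend (not_lt.1 hR) hf (hA f hfA).2
      have z2 : dens A (g.fib (inc x j)) = 0 := dens_zero fun f hf hfA =>
        ends w1 hR0 hend ((not_lt.1 hR).trans (le_inc x j j).1) hf (hA f hfA).2
      have hp : (g.pot (2 * y ^ 19 * ρ) x : ℝ) ≤ g.pot (2 * y ^ 19 * ρ) (inc x j) := by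
        have := (le_inc x j 0).1
        have := (le_inc x j g.M).1
        unfold Geo.pot
        exact_mod_cast (by omega)
      have := mul_le_mul_of_nonneg_left hp (by positivity : 0 ≤ 2 * c * ν)
      rw [z1, z2]
      linarith
  · have hp : g.pot (2 * y ^ 19 * ρ) (inc x j) = g.pot (2 * y ^ 19 * ρ) x := by
      unfold Geo.pot
      rw [inc_of_ne x (by omega), inc_of_ne x (by omega)]
    have hL : 0 < 2 * y ^ 2 * ρ := by
      have := N.rho0
      have : 0 < y := by have := hok.hy; omega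
      positivity
    have m1 : 4 * (y : ℝ) ^ 2 * g.μ ≤ (g.β : ℝ) ^ 2 := by exact_mod_cast N.mic1
    have m2 : (g.β : ℝ) ≤ 3 * y * ρ := by exact_mod_cast N.mic2
    have m3 : (y : ℝ) * ((2 * y ^ 2 * ρ : ℕ) : ℝ) ≤ 2 * g.μ := by exact_mod_cast N.mic3
    have m5 : (y : ℝ) * (((6 * y ^ 61 * ρ : ℕ) : ℝ) + 1) ≤ g.μ := by
      have h1 : y * (6 * y ^ 61 * ρ + 1) ≤ g.μ :=
        (Nat.mul_le_mul_left y (by have := N.top2; omega)).trans N.low2
      exact_mod_cast h1
    have := hMIC g x j (6 * y ^ 61 * ρ) (2 * y ^ 2 * ρ) ((y : ℝ) ^ 2) _ (1 / y) A U (by omega)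
      (by omega) hx hL (by positivity) (by rw [div_le_div_iff₀ hy0 (by norm_num)]; linarith) m1
      (by
        have e : 2 * (1 / (y : ℝ)) * ((2 * y ^ 2 * ρ : ℕ) : ℝ) = 4 * y * ρ := by
          push_cast
          field_simp
          norm_num
        rw [e]
        have : (0 : ℝ) ≤ y * ρ := by positivity
        linarith)
      (by rw [mul_one_div, div_mul_eq_mul_div, le_div_iff₀ hy0]; linarith)
      (by rw [one_div_mul_eq_div, le_div_iff₀ hy0]; linarith)
      (by rw [one_div_mul_eq_div, le_div_iff₀ hy0]; linarith) hC (fun h hh => (hA h hh).2) hX hX'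
    rw [hp, hc, ← mul_one_div 5]
    linarith

end Pool.Agent.P.MP_e6a929_co.AS
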