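import Pool.Agent.P.MP_e6a929_co.AS.Iface

/-! Step DAY of the asymptotic Sperner project. -/

namespace Pool.Agent.P.MP_e6a929_co.AS

open Finset Function Filter

open scoped Classical FinsetFamily

namespace DAYx

theorem inf_mem {g : Geo} {x : ℕ → ℕ} {j : ℕ} {a b : Fn} (ha : a ∈ g.fib x)
    (hb : b ∈ g.fib (inc x j)) : a ⊓ b ∈ g.fib x := by
  obtain ⟨a0, a1, a2, a3, a4⟩ := Geo.mem_fib.1 ha
  obtain ⟨b0, b1, b2, b3, b4⟩ := Geo.mem_fib.1 hb
  refine Geo.mem_fib.2 ⟨inf_mem_W a0 b0, by simp [a1, b1], fun i hi => ?_, fun i hi => ?_,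
    fun k hk => ?_⟩
  · exact le_inf (a2 i hi) (b2 i hi)
  · exact le_inf (a3 i hi) (b3 i hi)
  · have := le_inc x j k
    rw [Pi.inf_apply, a4 k hk, b4 k hk]
    omega

theorem sup_mem {g : Geo} {x : ℕ → ℕ} {j : ℕ} {a b : Fn} (ha : a ∈ g.fib x)
    (hb : b ∈ g.fib (inc x j)) : a ⊔ b ∈ g.fib (inc x j) := by
  obtain ⟨a0, a1, a2, a3, a4⟩ := Geo.mem_fib.1 ha
  obtain ⟨b0, b1, b2, b3, b4⟩ := Geo.mem_fib.1 hb
  refine Geo.mem_fib.2 ⟨sup_mem_W a0 b0, by simp [a1, b1], fun i hi => ?_, fun i hi => ?_,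
    fun k hk => ?_⟩
  · exact le_sup_of_le_left (a2 i hi)
  · exact le_sup_of_le_left (a3 i hi)
  · have := le_inc x j k
    rw [Pi.sup_apply, a4 k hk, b4 k hk]
    omega

theorem card_le (g : Geo) (x : ℕ → ℕ) (j : ℕ) {U : Set Fn} (hU : IsUpperSet U) :
    (sec U (g.fib x)).card * (g.fib (inc x j)).card ≤
      (g.fib x).card * (sec U (g.fib (inc x j))).card := by
  refine (le_card_infs_mul_card_sups _ _).trans (Nat.mul_le_mul (card_le_card ?_) (card_le_card ?_))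
  · intro c hc
    obtain ⟨a, ha, b, hb, rfl⟩ := mem_infs.1 hc
    exact inf_mem (mem_sec.1 ha).1 hb
  · intro c hc
    obtain ⟨a, ha, b, hb, rfl⟩ := mem_sups.1 hc
    exact mem_sec.2 ⟨sup_mem (mem_sec.1 ha).1 hb, hU le_sup_left (mem_sec.1 ha).2⟩

end DAYx

theorem p_DAY : S_DAY := by
  intro g x j U hU hne
  unfold dens
  rcases (g.fib x).eq_empty_or_nonempty with e | e
  · rw [e, card_empty, Nat.cast_zero, div_zero]
    positivity
  · have h1 : (0 : ℝ) < (g.fib x).card := by exact_mod_cast e.card_pos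
    have h2 : (0 : ℝ) < (g.fib (inc x j)).card := by exact_mod_cast hne.card_pos
    rw [div_le_div_iff₀ h1 h2, mul_comm ((sec U (g.fib (inc x j))).card : ℝ)]
    exact_mod_cast DAYx.card_le g x j hU

end Pool.Agent.P.MP_e6a929_co.AS
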