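import Pool.Agent.P.MP_e6a929_co.AS.Iface

/-! Step FAC of the asymptotic Sperner project. -/

namespace Pool.Agent.P.MP_e6a929_co.AS

open Finset Function Filter

open scoped Classical

namespace FACx

theorem al1 {m K e d : ℝ} (he : e ≤ 1) (hK : 1 ≤ K) (h : 5 * K ≤ e * m) (hm : 0 ≤ m)
    (hd : |d| ≤ K - 1) :
    (1 - e ≤ (m - d) / (m + d + 1) ∧ (m - d) / (m + d + 1) ≤ 1 + e) ∧
    2 / m * (1 - e) ≤ (m - d) / (m + d + 1) - (m - (d + 1)) / (m + (d + 1) + 1) ∧
    (m - d) / (m + d + 1) - (m - (d + 1)) / (m + (d + 1) + 1) ≤ 2 / m * (1 + e) := by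
  obtain ⟨d1, d2⟩ := abs_le.1 hd
  have he0 : 0 < e := by
    by_contra h0
    nlinarith [mul_nonneg (neg_nonneg.2 (not_lt.1 h0)) hm]
  have hmK : 5 * K ≤ m := h.trans (mul_le_of_le_one_left hm he)
  have hm0 : 0 < m := by linarith
  have p1 : 0 < m + d + 1 := by linarith
  have p2 : 0 < m + (d + 1) + 1 := by linarith
  have k1 : 4 * K ≤ e * (m + d + 1) := by
    nlinarith [mul_nonneg he0.le (show 0 ≤ d + 1 + K by linarith),
      mul_nonneg (sub_nonneg.2 he) (show 0 ≤ K by linarith)]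
  have e1 : (m - d) / (m + d + 1) - (m - (d + 1)) / (m + (d + 1) + 1) =
      (2 * m + 1) / ((m + d + 1) * (m + (d + 1) + 1)) := by
    field_simp; ring
  have q1 : 5 * K * m ≤ e * m * m := mul_le_mul_of_nonneg_right h hm
  have q2 : 0 ≤ K * m := mul_nonneg (by linarith) hm
  have q3 : K * K ≤ K * m := mul_le_mul_of_nonneg_left (by linarith) (by linarith)
  have q4 : e * (K * m) ≤ K * m := mul_le_of_le_one_left q2 he
  have q5 : m ≤ K * m := le_mul_of_one_le_left hm hK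
  refine ⟨⟨?_, ?_⟩, ?_, ?_⟩
  · rw [le_div_iff₀ p1]; linarith
  · rw [div_le_iff₀ p1]; linarith
  · rw [e1, div_mul_eq_mul_div, div_le_div_iff₀ hm0 (mul_pos p1 p2)]
    have r1 : (m + d + 1) * (m + (d + 1) + 1) ≤ (m + K) * (m + 2 * K) :=
      mul_le_mul (by linarith) (by linarith) p2.le (by linarith)
    have r2 := mul_le_mul_of_nonneg_left r1 (sub_nonneg.2 he)
    have r3 : 0 ≤ e * (3 * (K * m) + 2 * (K * K)) := by positivity
    nlinarith
  · rw [e1, div_mul_eq_mul_div, div_le_div_iff₀ (mul_pos p1 p2) hm0]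
    have r1 : (m - K) * (m - K) ≤ (m + d + 1) * (m + (d + 1) + 1) :=
      mul_le_mul (by linarith) (by linarith) (by linarith) p1.le
    have r2 := mul_le_mul_of_nonneg_left r1 (show 0 ≤ 1 + e by linarith)
    have r3 : 0 ≤ (1 + e) * (K * K) := by positivity
    nlinarith

theorem bb1 {a s e : ℝ} (he : e ≤ 1) (hs : 0 ≤ s) (ha : 0 ≤ a) (h1 : 2 ≤ e * (s + 1))
    (h2 : 2 * (s + 6) ≤ e * a) :
    (1 - e ≤ (a - s) * (s + 3) / ((a + s + 4) * (s + 1)) ∧
      (a - s) * (s + 3) / ((a + s + 4) * (s + 1)) ≤ 1 + e) ∧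
    4 / a * (1 - e) ≤ (a - s) * (s + 3) / ((a + s + 4) * (s + 1)) -
      (a - (s + 2)) * (s + 2 + 3) / ((a + (s + 2) + 4) * (s + 2 + 1)) := by
  have he0 : 0 < e := by
    by_contra h0
    nlinarith [mul_nonneg (neg_nonneg.2 (not_lt.1 h0)) ha]
  have h3 : 2 * (s + 6) ≤ a := h2.trans (mul_le_of_le_one_left ha he)
  have ha0 : 0 < a := by linarith
  have p1 : 0 < a + s + 4 := by linarith
  have p2 : 0 < a + (s + 2) + 4 := by linarith
  have p3 : 0 < s + 1 := by linarith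
  have p4 : 0 < s + 2 + 1 := by linarith
  rw [mul_div_mul_comm, mul_div_mul_comm]
  have f1 : 1 - e ≤ (a - s) / (a + s + 4) := by
    rw [le_div_iff₀ p1]; nlinarith [mul_nonneg he0.le (show 0 ≤ s + 4 by linarith)]
  have f2 : (a - s) / (a + s + 4) ≤ 1 := by rw [div_le_one p1]; linarith
  have f3 : 0 ≤ (a - s) / (a + s + 4) := div_nonneg (by linarith) p1.le
  have f4 : 0 ≤ (a - (s + 2)) / (a + (s + 2) + 4) := div_nonneg (by linarith) p2.le
  have g1 : 1 ≤ (s + 3) / (s + 1) := by rw [one_le_div p3]; linarith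
  have g2 : (s + 3) / (s + 1) ≤ 1 + e := by rw [div_le_iff₀ p3]; linarith
  have g3 : (s + 2 + 3) / (s + 2 + 1) ≤ (s + 3) / (s + 1) := by
    rw [div_le_div_iff₀ p4 p3]; nlinarith
  have e1 : (a - s) / (a + s + 4) - (a - (s + 2)) / (a + (s + 2) + 4) =
      (4 * a + 8) / ((a + s + 4) * (a + (s + 2) + 4)) := by
    field_simp; ring
  have k1 : 4 / a * (1 - e) ≤ (a - s) / (a + s + 4) - (a - (s + 2)) / (a + (s + 2) + 4) := by
    rw [e1, div_mul_eq_mul_div, div_le_div_iff₀ ha0 (mul_pos p1 p2)]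
    have r1 : (a + s + 4) * (a + (s + 2) + 4) ≤ (a + (s + 6)) * (a + (s + 6)) :=
      mul_le_mul (by linarith) (by linarith) p2.le (by linarith)
    have r2 := mul_le_mul_of_nonneg_left r1 (sub_nonneg.2 he)
    have r3 := mul_le_mul_of_nonneg_right h2 ha
    have r4 := mul_le_mul_of_nonneg_right h2 (show 0 ≤ s + 6 by linarith)
    have r5 : 0 ≤ e * ((s + 6) * (s + 6)) := by positivity
    have r6 : 0 ≤ (s + 6) * (s + 6) := by positivity
    nlinarith
  have k2 : 0 ≤ 4 / a * (1 - e) := mul_nonneg (by positivity) (sub_nonneg.2 he)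
  refine ⟨⟨f1.trans (le_mul_of_one_le_right f3 g1),
    (mul_le_of_le_one_left (by linarith) f2).trans g2⟩, ?_⟩
  have k3 := mul_le_mul_of_nonneg_left g3 f4
  have k4 := le_mul_of_one_le_right (k2.trans k1) g1
  linarith

end FACx

open FACx in
theorem p_FAC : S_FAC := by
  intro g T e he h1 h2 h3
  have hT : (0 : ℝ) ≤ T := Nat.cast_nonneg T
  have hβ : (0 : ℝ) ≤ g.β := Nat.cast_nonneg _
  have he0 : 0 ≤ e := by
    by_contra h0
    nlinarith [mul_nonneg (neg_nonneg.2 (not_le.1 h0).le) (show 0 ≤ (g.β : ℝ) + 1 by linarith)]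
  have A : ∀ d : ℝ, |d| ≤ T → _ := fun d hd =>
    al1 (d := d) he (by linarith) h1 (Nat.cast_nonneg g.μ) (by linarith)
  have B : ∀ u : ℕ, u ≤ T → _ := fun u hu =>
    bb1 (s := g.β + 2 * u) he (by positivity) (Nat.cast_nonneg g.a)
      (h2.trans (mul_le_mul_of_nonneg_left (by linarith [Nat.cast_nonneg (α := ℝ) u]) he0))
      (le_trans (by linarith [Nat.cast_le (α := ℝ).2 hu]) h3)
  refine ⟨fun d hd => (A d hd).1, fun d hd => (A d hd).2, fun u hu => (B u hu).1, fun u hu => ?_⟩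
  have h4 := (B u hu).2
  have e1 : (g.β : ℝ) + 2 * ((u + 1 : ℕ) : ℝ) = g.β + 2 * u + 2 := by push_cast; ring
  rw [Geo.bb, Geo.bb, e1]
  exact h4

end Pool.Agent.P.MP_e6a929_co.AS
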