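import Pool.Agent.P.MP_e6a929_co.AS.Iface

/-! Step FIB of the asymptotic Sperner project. -/

namespace Pool.Agent.P.MP_e6a929_co.AS

open Finset Function Filter

open scoped Classical

namespace FIBx

/-- The sum of the tent functionals of all the free blocks. -/
noncomputable def Gt (g : Geo) (h : Fn) : ℝ := ∑ j ∈ range g.M, gt (g.q j) (2 * g.μ) g.μ h

theorem gt_up (g : Geo) {j p : ℕ} (hp : p ∈ Ioo (g.q j) (g.q j + 2 * g.μ)) (k : ℕ) (h : Fn) :
    gt (g.q k) (2 * g.μ) g.μ (up h p) - gt (g.q k) (2 * g.μ) g.μ h =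
      if p = g.q k + g.μ then 2 * (g.μ : ℝ) else 0 := by
  obtain ⟨p1, p2⟩ := mem_Ioo.1 hp
  rw [← Geo.q_succ] at p2
  have e1 := Geo.q_ne p1 p2 k
  have e2 := Geo.q_ne p1 p2 (k + 1)
  rw [Geo.q_succ] at e2
  unfold gt
  rw [up_of_ne h e1, up_of_ne h e2]
  split_ifs with c
  · rw [← c, up_self]
    push_cast
    ring
  · rw [up_of_ne h (Ne.symm c)]
    ring

theorem Gt_up (g : Geo) {j p : ℕ} (hj : j < g.M) (hp : p ∈ Ioo (g.q j) (g.q j + 2 * g.μ))
    (h : Fn) : Gt g (up h p) - Gt g h = if p = g.q j + g.μ then 2 * (g.μ : ℝ) else 0 := by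
  unfold Gt
  rw [← sum_sub_distrib, sum_congr rfl fun k _ => gt_up g hp k h,
    sum_eq_single_of_mem j (mem_range.2 hj)]
  intro k _ hk
  obtain ⟨p1, p2⟩ := mem_Ioo.1 hp
  refine if_neg ?_
  rcases lt_or_gt_of_ne hk with e | e
  · have := Geo.q_mono (g := g) (show k + 1 ≤ j from e)
    rw [Geo.q_succ] at this
    omega
  · have := Geo.q_mono (g := g) (show j + 1 ≤ k from e)
    rw [Geo.q_succ] at this
    omega

theorem blk_le (g : Geo) {j : ℕ} (hj : j < g.M) : g.q j + 2 * g.μ ≤ 2 * g.n := by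
  have := Geo.q_le (g := g) (show j + 1 ≤ g.M from hj)
  rw [Geo.q_succ] at this
  omega

theorem upC (g : Geo) (x : ℕ → ℕ) {j : ℕ} (hj : j < g.M) :
    UpC (g.fib x) (Ioo (g.q j) (g.q j + 2 * g.μ)) := by
  rw [← Geo.q_succ]
  exact Geo.fib_upC x hj

theorem dnC (g : Geo) (x : ℕ → ℕ) {j : ℕ} (hj : j < g.M) :
    DnC (g.fib x) (Ioo (g.q j) (g.q j + 2 * g.μ)) := by
  rw [← Geo.q_succ]
  exact Geo.fib_dnC x hj

theorem second (hTENT : S_TENT) (hBLK : S_BLK) (g : Geo) (x : ℕ → ℕ) :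
    ∑ h ∈ g.fib x, Gt g h ^ 2 ≤ (g.fib x).card * (2 * (g.M * (g.μ : ℝ) ^ 3)) := by
  have key : ∀ j ∈ range g.M, ∑ h ∈ g.fib x, gt (g.q j) (2 * g.μ) g.μ h * Gt g h ≤
      (g.fib x).card * (2 * (g.μ : ℝ) ^ 3) := by
    intro j hj
    have hj := mem_range.1 hj
    rw [(hBLK (2 * g.n) (g.fib x) (g.q j) (2 * g.μ) g.μ (Geo.fib_subset x) (blk_le g hj)
      (by omega) (upC g x hj)).2 (dnC g x hj) (Gt g), ← nsmul_eq_mul]
    refine sum_le_card_nsmul _ _ _ fun h _ => ?_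
    have h4 := (hTENT (g.q j) (2 * g.μ) g.μ (by omega)).2.2.2
    have hpos : (0 : ℝ) ≤ 2 * (g.μ : ℝ) ^ 3 := by positivity
    calc _ ≤ ∑ p ∈ Ioo (g.q j) (g.q j + 2 * g.μ),
          if p = g.q j + g.μ then 2 * (g.μ : ℝ) ^ 3 else 0 := by
          refine sum_le_sum fun p hp => ?_
          rw [Gt_up g hj hp]
          by_cases c : p = g.q j + g.μ
          · rw [if_pos c, if_pos c, c, h4]
            split_ifs
            · push_cast
              exact le_of_eq (by ring)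
            · exact hpos
          · rw [if_neg c, if_neg c, mul_zero, ite_self]
      _ ≤ _ := by
          rw [sum_ite_eq']
          split_ifs
          · exact le_rfl
          · exact hpos
  calc ∑ h ∈ g.fib x, Gt g h ^ 2
      = ∑ j ∈ range g.M, ∑ h ∈ g.fib x, gt (g.q j) (2 * g.μ) g.μ h * Gt g h := by
        rw [sum_comm]
        refine sum_congr rfl fun h _ => ?_
        rw [← sum_mul, sq]
        rfl
    _ ≤ _ := by
        refine (sum_le_card_nsmul _ _ _ key).trans (le_of_eq ?_)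
        rw [card_range, nsmul_eq_mul]
        ring

theorem first (hBLK : S_BLK) (g : Geo) (x : ℕ → ℕ) {z H : ℝ} {A : Finset Fn} {U : Set Fn}
    (hH : 8 * H ≤ g.μ) (hc : Cut A U) (hA : ∀ h ∈ A, Good (2 * g.n) z H h) :
    ((sec A (g.fib x)).card : ℝ) * (g.M * (g.μ : ℝ) ^ 3 / 8) ≤
      ∑ h ∈ sec U (g.fib x), Gt g h := by
  have key : ∀ j ∈ range g.M, ((sec A (g.fib x)).card : ℝ) * ((g.μ : ℝ) ^ 3 / 8) ≤
      ∑ h ∈ sec U (g.fib x), gt (g.q j) (2 * g.μ) g.μ h := by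
    intro j hj
    have hj := mem_range.1 hj
    have h1 := (hBLK (2 * g.n) (g.fib x) (g.q j) (2 * g.μ) g.μ (Geo.fib_subset x) (blk_le g hj)
      (by omega) (upC g x hj)).1 (sec A (g.fib x)) U (fun _ => 1)
      (hc.mono fun h hh => (mem_sec.1 hh).2) (sec_subset _ _) (fun _ _ => zero_le_one)
      fun _ _ _ _ _ => rfl
    simp only [one_mul] at h1
    refine le_trans ?_ h1
    rw [← nsmul_eq_mul]
    refine card_nsmul_le_sum _ _ _ fun h hh => ?_
    refine le_trans ?_ ((hA h (mem_sec.1 hh).2).2 (g.q j) (2 * g.μ) g.μ (blk_le g hj) (by omega))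
    push_cast
    have : (0 : ℝ) ≤ (g.μ : ℝ) ^ 2 * (g.μ - 8 * H) := mul_nonneg (sq_nonneg _) (by linarith)
    nlinarith
  unfold Gt
  rw [sum_comm]
  refine le_trans (le_of_eq ?_) (card_nsmul_le_sum _ _ _ key)
  rw [card_range, nsmul_eq_mul]
  ring

end FIBx

theorem p_FIB (hTENT : S_TENT) (hBLK : S_BLK) : S_FIB := by
  intro g x z H A U hH hc hA
  have h1 := FIBx.first hBLK g x hH hc hA
  have h2 := FIBx.second hTENT hBLK g x
  have h3 : (∑ h ∈ sec U (g.fib x), FIBx.Gt g h) ^ 2 ≤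
      ((g.fib x).card : ℝ) * ∑ h ∈ g.fib x, FIBx.Gt g h ^ 2 :=
    sq_sum_le_card_mul_sum_sq.trans (mul_le_mul (by exact_mod_cast card_le_card (sec_subset _ _))
      (sum_le_sum_of_subset_of_nonneg (sec_subset _ _) fun _ _ _ => sq_nonneg _)
      (sum_nonneg fun _ _ => sq_nonneg _) (Nat.cast_nonneg _))
  unfold dens
  set a : ℝ := ((sec A (g.fib x)).card : ℝ)
  set X : ℝ := ((g.fib x).card : ℝ)
  set m : ℝ := (g.M : ℝ) * (g.μ : ℝ) ^ 3
  have ha : 0 ≤ a := Nat.cast_nonneg _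
  have hX : 0 ≤ X := Nat.cast_nonneg _
  have hm : 0 ≤ m := by positivity
  have h4 : (a * (m / 8)) ^ 2 ≤ X * (X * (2 * m)) :=
    (pow_le_pow_left₀ (by positivity) h1 2).trans (h3.trans (mul_le_mul_of_nonneg_left h2 hX))
  rcases hX.eq_or_lt with e | hX
  · rw [← e]
    norm_num
  rcases hm.eq_or_lt with e | hm
  · rw [← e]
    norm_num
  rw [div_pow, div_mul_eq_mul_div, div_le_iff₀ (by positivity)]
  refine le_of_mul_le_mul_right ?_ hm
  nlinarith

end Pool.Agent.P.MP_e6a929_co.AS
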