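import Pool.Agent.P.MP_e6a929_co.AS.Iface

/-! Step FIN of the asymptotic Sperner project. -/

namespace Pool.Agent.P.MP_e6a929_co.AS

open Finset Function Filter

open scoped Classical

theorem FINx.aux {w c L : ℝ} (hc : 0 ≤ c) (hL : 1 ≤ L) (h : w ≤ 1 + c) : w ≤ (1 + c) * L := by
  nlinarith

theorem FINx.bound (f : ℕ → ℕ) (n₀ : ℕ) : ∃ K : ℝ, 0 ≤ K ∧ ∀ m < n₀, (f m : ℝ) * m ≤ K :=
  ⟨∑ m ∈ range n₀, (f m : ℝ) * m, sum_nonneg fun _ _ => by positivity, fun _ hm =>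
    single_le_sum (f := fun m : ℕ => (f m : ℝ) * m) (fun _ _ => by positivity) (mem_range.2 hm)⟩

theorem p_FIN (hCORE : S_CORE) (hPAR : S_PAR) (hBR : S_BR) : S_FIN := by
  obtain ⟨n₀, hn₀⟩ := eventually_atTop.1 hPAR
  obtain ⟨K, hS, hK⟩ := FINx.bound width n₀
  refine ⟨400 + K, fun n hn => ⟨(hBR n).2.1, ?_⟩⟩
  obtain ⟨b1, -, b3, b4⟩ := hBR n
  have h1 := hK n
  generalize width n = w at *
  generalize maxLevel n = Λ at *
  have hn1 : (1 : ℝ) ≤ n := by exact_mod_cast hn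
  have hp : (0 : ℝ) < (n : ℝ) ^ (1 / 450 : ℝ) := Real.rpow_pos_of_pos (by linarith) _
  have hL : (1 : ℝ) ≤ Λ := by exact_mod_cast b1
  have hq : (0 : ℝ) ≤ (400 + K) / (n : ℝ) ^ (1 / 450 : ℝ) := by positivity
  rcases lt_or_ge n n₀ with hlt | hge
  · have h2 : (n : ℝ) ^ (1 / 450 : ℝ) ≤ n := by
      simpa using Real.rpow_le_rpow_of_exponent_le hn1 (show (1 / 450 : ℝ) ≤ 1 by norm_num)
    have h3 : (w : ℝ) ≤ (400 + K) / (n : ℝ) ^ (1 / 450 : ℝ) := by
      rw [le_div_iff₀ hp]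
      have := mul_le_mul_of_nonneg_left h2 (Nat.cast_nonneg (α := ℝ) w)
      have := h1 hlt
      linarith
    exact FINx.aux hq hL (by linarith)
  · rcases b4 with h1 | ⟨A, hA, hanti, hc⟩
    · have : (w : ℝ) ≤ 1 := by exact_mod_cast h1
      exact FINx.aux hq hL (by linarith)
    · obtain ⟨g, y, ρ, hok, hg, he, hy⟩ := hn₀ (n + 1) (by omega)
      have h := hCORE g y ρ Λ A hok (by rwa [hg])
        (fun k => by rw [hg]; exact_mod_cast b3 k) (by rwa [hg]) hanti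
      rw [hc] at h
      have hy0 : (0 : ℝ) < y := by
        have := hok.hy
        exact_mod_cast (by omega : 0 < y)
      have h2 : (n : ℝ) ^ (1 / 450 : ℝ) ≤ 2 * y := by
        have h3 : (n : ℝ) ≤ (2 * y) ^ 450 := by exact_mod_cast (Nat.le_succ n).trans hy
        calc (n : ℝ) ^ (1 / 450 : ℝ) ≤ ((2 * (y : ℝ)) ^ 450) ^ (1 / 450 : ℝ) :=
              Real.rpow_le_rpow (by positivity) h3 (by norm_num)
          _ = 2 * y := by
              rw [one_div]
              exact_mod_cast Real.pow_rpow_inv_natCast (by positivity : (0 : ℝ) ≤ 2 * y)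
                (by norm_num : (450 : ℕ) ≠ 0)
      have h4 : 200 / (y : ℝ) ≤ (400 + K) / (n : ℝ) ^ (1 / 450 : ℝ) := by
        rw [div_le_div_iff₀ hy0 hp]
        have := mul_nonneg hS hy0.le
        linarith
      exact h.trans (mul_le_mul_of_nonneg_right (by linarith) (by linarith))

end Pool.Agent.P.MP_e6a929_co.AS
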