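import Pool.Agent.P.MP_e6a929_co.AS.Iface

/-! Step GL of the asymptotic Sperner project. -/

namespace Pool.Agent.P.MP_e6a929_co.AS

open Finset Function Filter

open scoped Classical

namespace GLx

theorem le (a N : ℕ) (σ : ℤ) (P₁ P₂ Q : Set Fn) (ha : a ≤ N)
    (hP : ∀ h h' : Fn, (∀ i ≤ a, h i = h' i) → (h ∈ P₁ → h' ∈ P₁) ∧ (h ∈ P₂ → h' ∈ P₂))
    (hQ : ∀ h h' : Fn, (∀ i, a ≤ i → h i = h' i) → h ∈ Q → h' ∈ Q)
    (h1 : ∀ h ∈ P₁, h a = σ) (h2 : ∀ h ∈ P₂, h a = σ) :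
    (sec (P₁ ∩ Q) (W N)).card * (sec P₂ (W a)).card ≤
      (sec (P₂ ∩ Q) (W N)).card * (sec P₁ (W a)).card := by
  rw [← card_product, ← card_product]
  refine card_le_card_of_injOn (fun p => (fun i => if i ≤ a then p.2 i else p.1 i, pfx a p.1))
    (fun p hp => ?_) fun p hp p' hp' e => ?_
  · obtain ⟨b1, b2⟩ := mem_product.1 (mem_coe.1 hp)
    obtain ⟨w1, c1, c2⟩ := mem_sec.1 b1
    obtain ⟨w2, c3⟩ := mem_sec.1 b2
    have e : p.2 a = p.1 a := (h2 _ c3).trans (h1 _ c1).symm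
    refine mem_coe.2 (mem_product.2 ⟨mem_sec.2 ⟨mem_W.2 ⟨?_, fun i hi => ?_, fun i hi => ?_⟩,
      (hP p.2 _ fun i hi => (if_pos hi).symm).2 c3, hQ p.1 _ (fun i hi => ?_) c2⟩,
      mem_sec.2 ⟨pfx_mem_W w1 ha, (hP p.1 _ fun i hi => (if_pos hi).symm).1 c1⟩⟩)
    · simpa using W_zero w2
    · dsimp only
      rcases lt_trichotomy i a with h | h | h
      · rw [if_pos (by omega), if_pos h.le]
        exact W_step w2 h
      · rw [if_neg (by omega), if_pos h.le, h, e, ← h]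
        exact W_step w1 hi
      · rw [if_neg (by omega), if_neg (by omega)]
        exact W_step w1 hi
    · exact (if_neg (by omega)).trans (W_after w1 hi)
    · dsimp only
      split_ifs with h
      · rw [le_antisymm h hi, e]
      · rfl
  · have w := (mem_sec.1 (mem_product.1 (mem_coe.1 hp)).2).1
    have w' := (mem_sec.1 (mem_product.1 (mem_coe.1 hp')).2).1
    obtain ⟨e1, e2⟩ := Prod.ext_iff.1 e
    refine Prod.ext (funext fun i => ?_) (funext fun i => ?_)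
    · by_cases h : i ≤ a
      · simpa [pfx, h] using congrFun e2 i
      · simpa [h] using congrFun e1 i
    · by_cases h : i ≤ a
      · simpa [h] using congrFun e1 i
      · rw [W_after w (not_le.1 h), W_after w' (not_le.1 h)]

end GLx

theorem p_GL : S_GL := fun a N σ P₁ P₂ Q ha hP hQ h1 h2 =>
  le_antisymm (GLx.le a N σ P₁ P₂ Q ha hP hQ h1 h2)
    (GLx.le a N σ P₂ P₁ Q ha (fun h h' e => (hP h h' e).symm) hQ h2 h1)

end Pool.Agent.P.MP_e6a929_co.AS
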