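import Pool.Agent.P.MP_e6a929_co.AS.Iface

/-! Step HOEF of the asymptotic Sperner project. -/

namespace Pool.Agent.P.MP_e6a929_co.AS

open Finset Function Filter

open scoped Classical

namespace HOEFx

theorem mgf {c : ℕ → Fn → ℝ} {v : ℕ → ℝ} (s : ℝ)
    (hc : ∀ i h h', (∀ j ≤ i, h j = h' j) → c i h = c i h') : ∀ N : ℕ,
    (∀ i < N, ∀ h ∈ W N, |c i h| ≤ v i) →
    ∑ h ∈ W N, Real.exp (s * ∑ i ∈ range N, c i h * ((h (i + 1) : ℝ) - h i)) ≤
      2 ^ N * Real.exp (s ^ 2 * (∑ i ∈ range N, v i ^ 2) / 2)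
  | 0, _ => by simp [W]
  | N + 1, hv => by
    have e1 : ∀ (h : Fn) (a : ℤ), ∀ i ≤ N, c i (update h (N + 1) a) = c i h := fun h a i hi =>
      hc i _ _ fun j hj => update_of_ne (by omega) _ _
    have hv' : ∀ i ≤ N, ∀ h ∈ W N, |c i h| ≤ v i := fun i hi h hh => by
      rw [← e1 h (h N + 1) i hi]
      exact hv i (by omega) _ (mem_union_left _ (mem_image_of_mem _ hh))
    have e2 : ∀ (h : Fn) (a : ℤ), ∑ i ∈ range (N + 1), c i (update h (N + 1) a) *
        ((update h (N + 1) a (i + 1) : ℝ) - update h (N + 1) a i) =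
        ∑ i ∈ range N, c i h * ((h (i + 1) : ℝ) - h i) + c N h * (a - h N) := fun h a => by
      rw [sum_range_succ, e1 h a N le_rfl, update_self, update_of_ne (by omega)]
      congr 1
      refine sum_congr rfl fun i hi => ?_
      have := mem_range.1 hi
      rw [e1 h a i this.le, update_of_ne (by omega), update_of_ne (by omega)]
    rw [sum_W_succ, sum_range_succ, mul_add, add_div, Real.exp_add, pow_succ, mul_mul_mul_comm]
    refine le_trans ?_ (mul_le_mul_of_nonneg_right (mgf s hc N fun i hi => hv' i hi.le)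
      (by positivity))
    rw [sum_mul]
    refine sum_le_sum fun h hh => ?_
    simp only [e2, mul_add, Real.exp_add]
    rw [← mul_add]
    refine mul_le_mul_of_nonneg_left ?_ (Real.exp_pos _).le
    have h1 := Real.cosh_le_exp_half_sq (s * c N h)
    have h2 : Real.exp ((s * c N h) ^ 2 / 2) ≤ Real.exp (s ^ 2 * v N ^ 2 / 2) := by
      rw [mul_pow, ← sq_abs (c N h)]
      gcongr
      exact hv' N le_rfl h hh
    rw [Real.cosh_eq] at h1
    push_cast
    rw [add_sub_cancel_left, sub_sub_cancel_left, mul_one, mul_neg, mul_neg, mul_one]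
    linarith

end HOEFx

theorem p_HOEF : S_HOEF := by
  intro N c v lam V hc hv hl hV hs
  have s0 : 0 ≤ lam / V := by positivity
  have h1 := HOEFx.mgf (lam / V) hc N hv
  have h2 : Real.exp ((lam / V) ^ 2 * (∑ i ∈ range N, v i ^ 2) / 2) ≤
      Real.exp (-(lam ^ 2 / (2 * V))) * Real.exp (lam / V * lam) := by
    rw [← Real.exp_add]
    refine Real.exp_le_exp.2 (le_trans (by gcongr : _ ≤ (lam / V) ^ 2 * V / 2) (le_of_eq ?_))
    field_simp
    ring
  refine le_of_mul_le_mul_right ?_ (Real.exp_pos (lam / V * lam))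
  rw [mul_assoc]
  refine le_trans ?_ (h1.trans (mul_le_mul_of_nonneg_left h2 (by positivity)))
  rw [← nsmul_eq_mul]
  refine (card_nsmul_le_sum _ _ _ fun h hh => ?_).trans (sum_le_sum_of_subset_of_nonneg
    (filter_subset _ _) fun _ _ _ => (Real.exp_pos _).le)
  exact Real.exp_le_exp.2 (mul_le_mul_of_nonneg_left (mem_filter.1 hh).2 s0)

end Pool.Agent.P.MP_e6a929_co.AS
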