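import Pool.Agent.P.MP_e6a929_co.AS.Iface

/-! Step LAM of the asymptotic Sperner project. -/

namespace Pool.Agent.P.MP_e6a929_co.AS

open Finset Function Filter

open scoped Classical

theorem p_LAM (hBAL : S_BAL) : S_LAM := by
  intro n H z Λ hz hH hΛ
  constructor
  · have hs : Dy n ⊆ (Icc (0 : ℤ) (2 * n * H : ℕ)).biUnion (lev n) ∪ bad (2 * n) z H := by
      intro h hh
      obtain ⟨hW, h0, -⟩ := mem_Dy.1 hh
      by_cases hg : Good (2 * n) z H h
      · refine mem_union_left _ (mem_biUnion.2 ⟨ar (2 * n) h, mem_Icc.2 ⟨?_, ?_⟩,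
          mem_lev.2 ⟨hh, rfl⟩⟩)
        · exact sum_nonneg fun i _ => h0 i
        · have key : ∀ i ∈ range (2 * n), h i ≤ (H : ℤ) := by
            intro i hi
            have hi' : i ≤ 2 * n := (mem_range.1 hi).le
            have h1 := hg.1 0 i (Nat.zero_le _) hi'
            rw [W_zero hW] at h1
            have h2 : (i : ℝ) ≤ 2 * n := by exact_mod_cast hi'
            have h3 : (h i : ℝ) ^ 2 ≤ (H : ℝ) ^ 2 := by
              have := mul_le_mul_of_nonneg_left h2 hz
              simp only [Int.cast_zero, sub_zero, Nat.cast_zero] at h1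
              nlinarith
            have h4 : (h i : ℝ) ≤ H := le_of_sq_le_sq h3 (Nat.cast_nonneg H)
            exact_mod_cast h4
          have := sum_le_card_nsmul _ _ _ key
          rw [card_range, nsmul_eq_mul] at this
          unfold ar
          push_cast at this ⊢
          exact this
      · exact mem_union_right _ (mem_bad.2 ⟨hW, hg⟩)
    have h1 : (Dy n).card ≤ ∑ k ∈ Icc (0 : ℤ) (2 * n * H : ℕ), (lev n k).card +
        (bad (2 * n) z H).card :=
      (card_le_card hs).trans ((card_union_le _ _).trans (Nat.add_le_add_right card_biUnion_le _))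
    have h2 : ((Dy n).card : ℝ) ≤ ∑ k ∈ Icc (0 : ℤ) (2 * n * H : ℕ), ((lev n k).card : ℝ) +
        (bad (2 * n) z H).card := by exact_mod_cast h1
    have h3 := sum_le_card_nsmul (Icc (0 : ℤ) (2 * n * H : ℕ)) (fun k => ((lev n k).card : ℝ)) Λ
      fun k _ => hΛ k
    have h4 : (Icc (0 : ℤ) (2 * n * H : ℕ)).card = 2 * n * H + 1 := by
      rw [Int.card_Icc]
      omega
    rw [h4, nsmul_eq_mul] at h3
    push_cast at h3 h2 ⊢
    linarith
  · have h1 := Nat.four_pow_le_two_mul_add_one_mul_central_binom n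
    have h2 := hBAL.2.1 n
    rw [← Nat.centralBinom_eq_two_mul_choose, ← h2] at h1
    refine h1.trans ?_
    rw [sq, mul_assoc]
    exact Nat.mul_le_mul_left _ (Nat.mul_le_mul_right _ (by omega))

end Pool.Agent.P.MP_e6a929_co.AS
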