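import Pool.Agent.P.MP_e6a929_co.AS.Iface

/-! Step LOW of the asymptotic Sperner project. -/

namespace Pool.Agent.P.MP_e6a929_co.AS

open Finset Function Filter

open scoped Classical

namespace LOWx

theorem abel (c : ℝ) (x : ℕ → ℝ) (m : ℕ) :
    ∑ j ∈ range m, (2 * (j : ℝ) + 1 - c) * (x j - x (j + 1)) =
      2 * ∑ j ∈ range (m + 1), x j - (c + 1) * x 0 - (2 * m + 1 - c) * x m := by
  induction m with
  | zero => simp; ring
  | succ m ih => rw [sum_range_succ, ih, sum_range_succ _ (m + 1)]; push_cast; ring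

theorem sum_quad (c : ℝ) (m : ℕ) :
    ∑ j ∈ range (m + 1), (j : ℝ) * (c - j) =
      c * m * (m + 1) / 2 - m * (m + 1) * (2 * m + 1) / 6 := by
  induction m with
  | zero => simp
  | succ m ih => rw [sum_range_succ, ih]; push_cast; ring

theorem al_ge (g : Geo) {T d : ℝ} (hμ : 4 * (T + 1) ≤ g.μ) (hT : 0 ≤ T) (h1 : -T ≤ d) :
    1 - 2 / (g.μ : ℝ) * (d + 1) ≤ g.al d := by
  have hm : (0 : ℝ) < g.μ := by linarith
  have hd : (0 : ℝ) < g.μ + d + 1 := by linarith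
  unfold Geo.al
  rw [le_div_iff₀ hd]
  have e : (1 - 2 / (g.μ : ℝ) * (d + 1)) * (g.μ + d + 1) =
      g.μ - d - 1 - 2 / (g.μ : ℝ) * (d + 1) ^ 2 := by
    field_simp
    ring
  rw [e]
  have : 0 ≤ 2 / (g.μ : ℝ) * (d + 1) ^ 2 := by positivity
  linarith

theorem bb_ge (g : Geo) (u : ℕ) (ha : (0 : ℝ) < g.a) (h : (g.β : ℝ) + 2 * u ≤ g.a) :
    1 - (2 * ((g.β : ℝ) + 2 * u) + 4) / g.a ≤ g.bb u := by
  unfold Geo.bb
  have hs : (0 : ℝ) ≤ (g.β : ℝ) + 2 * u := by positivity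
  generalize (g.β : ℝ) + 2 * u = σ at h hs
  have hd : (0 : ℝ) < (g.a + σ + 4) * (σ + 1) := by positivity
  rw [le_div_iff₀ hd]
  have e : (1 - (2 * σ + 4) / (g.a : ℝ)) * (g.a + σ + 4) =
      g.a - σ - (2 * σ + 4) / (g.a : ℝ) * (σ + 4) := by
    field_simp
    ring
  have h0 : 0 ≤ (2 * σ + 4) / (g.a : ℝ) * (σ + 4) := by positivity
  rw [← mul_assoc, e]
  nlinarith [mul_nonneg h0 (show (0 : ℝ) ≤ σ + 1 by positivity)]

theorem prod_ge {l r A B δ : ℝ} (hl : 1 - A ≤ l) (hr : 1 - B ≤ r) (hA : |A| ≤ δ) (hB : |B| ≤ δ)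
    (hδ : δ ≤ 1) : 1 - A - B - δ ^ 2 ≤ l * r := by
  have a1 := abs_le.1 hA
  have b1 := abs_le.1 hB
  have h1 : (1 - A) * (1 - B) ≤ l * r :=
    mul_le_mul hl hr (by linarith [b1.2]) (by linarith [a1.2])
  have h2 : |A * B| ≤ δ * δ := by
    rw [abs_mul]
    exact mul_le_mul hA hB (abs_nonneg _) ((abs_nonneg _).trans hA)
  have h3 := (abs_le.1 h2).1
  nlinarith

end LOWx

open LOWx in
theorem p_LOW : S_LOW := by
  intro g T t x hM ha hβ hμ ht hx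
  have hxs : ∑ j ∈ range (g.M + 1), x j = t := (mem_lay.1 hx).1
  have hxT : ∀ j, (x j : ℝ) ≤ T := fun j => by
    exact_mod_cast (le_of_mem_lay hx j).trans ht
  have hx0 : ∀ j, (0 : ℝ) ≤ x j := fun j => Nat.cast_nonneg _
  have hβT : g.β + 2 ≤ T := by nlinarith
  have hM' : (2 : ℝ) ≤ g.M := by exact_mod_cast hM
  have ha' : 2 * (g.μ : ℝ) ≤ g.a := by exact_mod_cast ha
  have hβ' : (g.M : ℝ) * (g.β + 2) ≤ 2 * T := by exact_mod_cast hβ
  have hμ' : 4 * ((T : ℝ) + 1) ≤ g.μ := by exact_mod_cast hμ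
  have ht' : (t : ℝ) ≤ T := by exact_mod_cast ht
  have hβT' : (g.β : ℝ) + 2 ≤ T := by exact_mod_cast hβT
  have hxs' : ∑ j ∈ range (g.M + 1), (x j : ℝ) = t := by exact_mod_cast hxs
  have hT0 : (0 : ℝ) ≤ T := Nat.cast_nonneg _
  have hβ0 : (0 : ℝ) ≤ g.β := Nat.cast_nonneg _
  have hm : (0 : ℝ) < g.μ := by linarith
  have ha0 : (0 : ℝ) < g.a := by linarith
  set δ : ℝ := 4 * ((T : ℝ) + 1) / g.μ with hδ
  have hδ1 : δ ≤ 1 := by rw [hδ, div_le_one hm]; exact hμ'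
  have hE : ∀ u : ℕ, (u : ℝ) ≤ T → |(2 * ((g.β : ℝ) + 2 * u) + 4) / g.a| ≤ δ := fun u hu => by
    have hu0 : (0 : ℝ) ≤ u := Nat.cast_nonneg _
    rw [abs_of_nonneg (by positivity), hδ, div_le_div_iff₀ ha0 hm]
    nlinarith
  have hF : ∀ d : ℝ, -T ≤ d → d ≤ T → |2 / (g.μ : ℝ) * (d + 1)| ≤ δ := fun d h1 h2 => by
    have e : 2 / (g.μ : ℝ) * (d + 1) = 2 * (d + 1) / g.μ := by ring
    rw [e, abs_div, abs_of_pos hm, hδ]
    refine div_le_div_of_nonneg_right ?_ hm.le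
    rw [abs_le]
    constructor <;> linarith
  let A : ℕ → ℝ := fun j => if j = 0 then (2 * ((g.β : ℝ) + 2 * x 0) + 4) / g.a
    else 2 / (g.μ : ℝ) * (((x j : ℝ) - x (j - 1)) + 1)
  let B : ℕ → ℝ := fun j => if j = g.M then (2 * ((g.β : ℝ) + 2 * x g.M) + 4) / g.a
    else 2 / (g.μ : ℝ) * (((x j : ℝ) - x (j + 1)) + 1)
  have hr : ∀ j, 1 - A j - B j - δ ^ 2 ≤ g.r j x := fun j => by
    unfold Geo.r
    refine prod_ge ?_ ?_ ?_ ?_ hδ1
    · unfold Geo.lf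
      simp only [A]
      split_ifs
      · exact bb_ge g _ ha0 (by linarith [hxT 0])
      · exact al_ge g hμ' hT0 (by linarith [hx0 j, hxT (j - 1)])
    · unfold Geo.rt
      simp only [B]
      split_ifs
      · exact bb_ge g _ ha0 (by linarith [hxT g.M])
      · exact al_ge g hμ' hT0 (by linarith [hx0 j, hxT (j + 1)])
    · simp only [A]
      split_ifs
      · exact hE _ (hxT 0)
      · exact hF _ (by linarith [hx0 j, hxT (j - 1)]) (by linarith [hxT j, hx0 (j - 1)])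
    · simp only [B]
      split_ifs
      · exact hE _ (hxT g.M)
      · exact hF _ (by linarith [hx0 j, hxT (j + 1)]) (by linarith [hxT j, hx0 (j + 1)])
  have hc : (0 : ℝ) ≤ g.a * g.M / (2 * g.μ) := by positivity
  have hw : ∀ j ∈ range (g.M + 1), 0 ≤ g.w j := fun j hj => by
    have h1 : (j : ℝ) ≤ g.M := by exact_mod_cast Nat.lt_succ_iff.1 (mem_range.1 hj)
    have h2 : (0 : ℝ) ≤ j := Nat.cast_nonneg _
    unfold Geo.w
    have := mul_nonneg h2 (sub_nonneg.2 h1)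
    linarith
  set S : ℝ := ∑ j ∈ range (g.M + 1), g.w j with hS
  have hSlow : (g.M : ℝ) ^ 3 / 8 ≤ S := by
    have h1 : ∑ j ∈ range (g.M + 1), (j : ℝ) * (g.M - j) ≤ S :=
      sum_le_sum fun j _ => by unfold Geo.w; linarith
    rw [sum_quad] at h1
    have h2 : (0 : ℝ) ≤ g.M * ((g.M : ℝ) ^ 2 - 4) := mul_nonneg (by linarith) (by nlinarith)
    nlinarith
  have hw0 : g.w 0 = g.a * g.M / (2 * g.μ) := by simp [Geo.w]
  have hwM : g.w g.M = g.a * g.M / (2 * g.μ) := by simp [Geo.w]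
  have hA : ∑ j ∈ range (g.M + 1), g.w j * A j =
      ∑ j ∈ range g.M, g.w (j + 1) * (2 / (g.μ : ℝ) * (((x (j + 1) : ℝ) - x j) + 1)) +
        2 / (g.μ : ℝ) * (g.M * (g.β + 2) / 2 + g.M * x 0) := by
    rw [sum_range_succ']
    simp only [A, Nat.add_eq_zero_iff, one_ne_zero, and_false, if_false, if_true,
      Nat.add_sub_cancel]
    rw [hw0, add_right_inj]
    field_simp
    ring
  have hB : ∑ j ∈ range (g.M + 1), g.w j * B j =
      ∑ j ∈ range g.M, g.w j * (2 / (g.μ : ℝ) * (((x j : ℝ) - x (j + 1)) + 1)) +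
        2 / (g.μ : ℝ) * (g.M * (g.β + 2) / 2 + g.M * x g.M) := by
    rw [sum_range_succ, sum_congr rfl fun j hj => show g.w j * B j =
      g.w j * (2 / (g.μ : ℝ) * (((x j : ℝ) - x (j + 1)) + 1)) by
        simp only [B, if_neg (mem_range.1 hj).ne]]
    simp only [B, if_true]
    rw [hwM, add_right_inj]
    field_simp
    ring
  have hedge : ∑ j ∈ range g.M, g.w (j + 1) * (2 / (g.μ : ℝ) * (((x (j + 1) : ℝ) - x j) + 1)) +
      ∑ j ∈ range g.M, g.w j * (2 / (g.μ : ℝ) * (((x j : ℝ) - x (j + 1)) + 1)) =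
      2 / (g.μ : ℝ) * (∑ j ∈ range g.M, (2 * (j : ℝ) + 1 - g.M) * ((x j : ℝ) - x (j + 1)) +
        (∑ j ∈ range g.M, g.w j + ∑ j ∈ range g.M, g.w (j + 1))) := by
    rw [← sum_add_distrib, ← sum_add_distrib, ← sum_add_distrib, mul_sum]
    refine sum_congr rfl fun j _ => ?_
    unfold Geo.w
    push_cast
    ring
  have hab := abel (g.M : ℝ) (fun j => (x j : ℝ)) g.M
  simp only [hxs'] at hab
  have hs1 : ∑ j ∈ range g.M, g.w j ≤ S := by
    rw [hS, sum_range_succ, hwM]; linarith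
  have hs2 : ∑ j ∈ range g.M, g.w (j + 1) ≤ S := by
    rw [hS, sum_range_succ', hw0]; linarith
  have htot : ∑ j ∈ range (g.M + 1), g.w j * A j + ∑ j ∈ range (g.M + 1), g.w j * B j ≤
      2 / (g.μ : ℝ) * (4 * T + 2 * S) := by
    rw [hA, hB, add_add_add_comm, hedge, ← mul_add, ← mul_add]
    refine mul_le_mul_of_nonneg_left ?_ (by positivity)
    rw [hab]
    nlinarith [hx0 0, hx0 g.M]
  have hmain : ∑ j ∈ range (g.M + 1), g.w j * (1 - A j - B j - δ ^ 2) ≤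
      ∑ j ∈ range (g.M + 1), g.w j * g.r j x :=
    sum_le_sum fun j hj => mul_le_mul_of_nonneg_left (hr j) (hw j hj)
  have hexp : ∑ j ∈ range (g.M + 1), g.w j * (1 - A j - B j - δ ^ 2) =
      (1 - δ ^ 2) * S - (∑ j ∈ range (g.M + 1), g.w j * A j +
        ∑ j ∈ range (g.M + 1), g.w j * B j) := by
    rw [hS, mul_sum, ← sum_add_distrib, ← sum_sub_distrib]
    exact sum_congr rfl fun j _ => by ring
  have hM0 : (0 : ℝ) < g.M := by linarith
  have hlast : 8 * (T : ℝ) / g.μ ≤ 64 * T / (g.μ * (g.M : ℝ) ^ 3) * S := by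
    have e : 8 * (T : ℝ) / g.μ = 64 * T / (g.μ * (g.M : ℝ) ^ 3) * ((g.M : ℝ) ^ 3 / 8) := by
      field_simp
      ring
    rw [e]
    exact mul_le_mul_of_nonneg_left hSlow (by positivity)
  have hδ2 : δ ^ 2 = 16 * ((T : ℝ) + 1) ^ 2 / (g.μ : ℝ) ^ 2 := by
    rw [hδ, div_pow]
    ring
  have e2 : 2 / (g.μ : ℝ) * (4 * T + 2 * S) = 8 * (T : ℝ) / g.μ + 4 / g.μ * S := by ring
  rw [← hδ2]
  have e3 : (1 - (64 * T / (g.μ * (g.M : ℝ) ^ 3) + 4 / g.μ + δ ^ 2)) * S =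
      (1 - δ ^ 2) * S - 64 * T / (g.μ * (g.M : ℝ) ^ 3) * S - 4 / g.μ * S := by ring
  rw [e3]
  linarith

end Pool.Agent.P.MP_e6a929_co.AS
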