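import Pool.Agent.P.MP_e6a929_co.AS.Iface

/-! Step MIC of the asymptotic Sperner project. -/

namespace Pool.Agent.P.MP_e6a929_co.AS

open Finset Function Filter

open scoped Classical

namespace MICx

theorem coef {μ L ε v B P₁ P₂ : ℝ} (hL : 0 < L) (hε0 : 0 ≤ ε) (hε : ε ≤ 1 / 5)
    (hv : L * μ ^ 2 * (1 - ε) ^ 2 / 2 ≤ v) (hB : L / 2 * (1 - 2 * ε) ≤ B) (h1 : 0 ≤ P₁)
    (h2 : 0 ≤ P₂) (h3 : P₁ ≤ L / 2 * (1 + ε)) (h4 : P₂ ≤ L / 2 * (1 + ε)) :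
    μ * (1 - 5 * ε) * (2 * μ * (P₁ * P₂)) ≤ v * (B + P₁) := by
  set a := L / 2 * (1 + ε) with ha
  set B₀ := L / 2 * (1 - 2 * ε) with hB0
  have a0 : 0 < a := by positivity
  have b0 : 0 ≤ B₀ := mul_nonneg (by positivity) (by linarith)
  have p0 : 0 ≤ P₁ * P₂ := mul_nonneg h1 h2
  have k1 : P₁ * P₂ ≤ a ^ 2 := by
    rw [sq]
    exact mul_le_mul h3 h4 h2 a0.le
  have k2 : P₁ * P₂ * (B₀ + a) ≤ a ^ 2 * (B₀ + P₁) := by
    have e1 := mul_le_mul_of_nonneg_right k1 b0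
    have e2 := mul_le_mul_of_nonneg_left h4 (mul_nonneg h1 a0.le)
    nlinarith
  have v0 : 0 ≤ L * μ ^ 2 * (1 - ε) ^ 2 / 2 := by positivity
  have k3 : L * μ ^ 2 * (1 - ε) ^ 2 / 2 * (B₀ + P₁) ≤ v * (B + P₁) :=
    mul_le_mul hv (by linarith) (by linarith) (v0.trans hv)
  have k4 : 2 * (1 + ε) ^ 2 * (1 - 5 * ε) ≤ (1 - ε) ^ 2 * (2 - ε) := by
    nlinarith [mul_nonneg hε0 hε0, mul_nonneg hε0 (mul_nonneg hε0 hε0)]
  refine le_trans (le_of_mul_le_mul_left ?_ (pow_pos a0 2)) k3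
  have k5 := mul_le_mul_of_nonneg_left k2 v0
  have k6 := mul_le_mul_of_nonneg_left k4
    (show 0 ≤ L ^ 2 * μ ^ 2 * (P₁ * P₂) / 4 by positivity)
  have e1 : a ^ 2 * (μ * (1 - 5 * ε) * (2 * μ * (P₁ * P₂))) =
      L ^ 2 * μ ^ 2 * (P₁ * P₂) / 4 * (2 * (1 + ε) ^ 2 * (1 - 5 * ε)) := by
    rw [ha]; ring
  have e2 : L * μ ^ 2 * (1 - ε) ^ 2 / 2 * (P₁ * P₂ * (B₀ + a)) =
      L ^ 2 * μ ^ 2 * (P₁ * P₂) / 4 * ((1 - ε) ^ 2 * (2 - ε)) := by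
    rw [ha, hB0]; ring
  rw [e1]
  rw [e2] at k5
  linarith

theorem fin {c u a n u' a' n' p p' : ℝ} (hn : 0 < n) (hn' : 0 < n') (hp : 0 < p) (hp' : 0 < p')
    (hK : p * n = p' * n') (h : p * (u + c * a) ≤ p' * (u' - c * a')) :
    u / n + c * (a / n) ≤ u' / n' - c * (a' / n') := by
  have e1 : u / n + c * (a / n) = p * (u + c * a) / (p * n) := by field_simp
  have e2 : u' / n' - c * (a' / n') = p' * (u' - c * a') / (p' * n') := by field_simp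
  rw [e1, e2, ← hK]
  exact div_le_div_of_nonneg_right h (mul_pos hp hn).le

theorem pbd {μ L ε t : ℝ} (hμ : 0 < μ) (hL : 0 < L) (hε : ε ≤ 1 / 5) (h1 : t ≤ 2 * (ε * μ))
    (h2 : -t ≤ 2 * (ε * μ)) :
    0 < L * (2 * μ + t) / (2 * (2 * μ)) ∧ L * (2 * μ + t) / (2 * (2 * μ)) ≤ L / 2 * (1 + ε) := by
  have : ε * μ ≤ 1 / 5 * μ := mul_le_mul_of_nonneg_right hε hμ.le
  refine ⟨div_pos (mul_pos hL (by linarith)) (by positivity), ?_⟩
  rw [div_le_iff₀ (by positivity)]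
  have := mul_le_mul_of_nonneg_left h1 hL.le
  nlinarith

theorem side (hSTG : S_STG) (g : Geo) (y : ℕ → ℕ) (k T L : ℕ) (z H ε : ℝ) (A : Finset Fn)
    (U : Set Fn) (σ : ℤ) (hσ : σ = 1 ∨ σ = -1) (hk : k + 1 < g.M) (hy : ∀ i, y i ≤ T + 1)
    (hL : 0 < L) (hz : 0 ≤ z) (hε : ε ≤ 1 / 5) (c1 : 4 * z * g.μ ≤ (g.β : ℝ) ^ 2)
    (c2 : (g.β : ℝ) ≤ 2 * ε * L) (c3 : (L : ℝ) ≤ 2 * ε * g.μ) (c4 : 4 * H ≤ ε * g.μ)
    (c5 : (T : ℝ) + 1 ≤ ε * g.μ) (hC : Cut A U) (hG : ∀ h ∈ A, Good (2 * g.n) z H h) :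
    ∃ P : ℝ, 0 < P ∧ ∑ h ∈ g.fib y, uu σ (g.q (k + 1)) L L h = P * (g.fib y).card ∧
      P * (g.μ * (1 - 5 * ε) * (sec A (g.fib y)).card) ≤
        σ * (∑ h ∈ sec U (g.fib y), uu σ (g.q (k + 1)) L L h - P * (sec U (g.fib y)).card) := by
  have hT : (0 : ℝ) ≤ T := Nat.cast_nonneg _
  have hμ0 : (0 : ℝ) ≤ g.μ := Nat.cast_nonneg _
  have hβ0 : (0 : ℝ) ≤ g.β := Nat.cast_nonneg _
  have hLr : (0 : ℝ) < L := Nat.cast_pos.2 hL
  have hε0 : 0 < ε := by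
    by_contra hc
    have := mul_nonpos_of_nonpos_of_nonneg (not_lt.1 hc) hμ0
    linarith
  have hμ : (0 : ℝ) < g.μ := by
    rcases hμ0.eq_or_lt with e | e
    · rw [← e] at c5
      linarith
    · exact e
  have hεμ : ε * g.μ ≤ 1 / 5 * g.μ := mul_le_mul_of_nonneg_right hε hμ0
  have hLm : L ≤ 2 * g.μ := by
    have : (L : ℝ) ≤ 2 * g.μ := by linarith
    exact_mod_cast this
  have e1 : g.q k + 2 * g.μ = g.q (k + 1) := (Geo.q_succ k).symm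
  have e2 : g.q (k + 1) + 2 * g.μ = g.q (k + 1 + 1) := (Geo.q_succ (k + 1)).symm
  have hq := (Geo.q_le (g := g) (show k + 1 + 1 ≤ g.M from hk)).2
  have y1 : (y k : ℝ) ≤ T + 1 := by exact_mod_cast hy k
  have y2 : (y (k + 1) : ℝ) ≤ T + 1 := by exact_mod_cast hy (k + 1)
  have y3 : (y (k + 1 + 1) : ℝ) ≤ T + 1 := by exact_mod_cast hy (k + 1 + 1)
  have y4 : (0 : ℝ) ≤ y k := Nat.cast_nonneg _
  have y5 : (0 : ℝ) ≤ y (k + 1) := Nat.cast_nonneg _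
  have y6 : (0 : ℝ) ≤ y (k + 1 + 1) := Nat.cast_nonneg _
  have hσr : (σ : ℝ) = 1 ∨ (σ : ℝ) = -1 := by
    rcases hσ with rfl | rfl <;> simp
  obtain ⟨p1, p2⟩ := pbd (t := -(σ * (2 * ((y (k + 1) : ℝ) - y k)))) hμ hLr hε
    (by rcases hσr with e | e <;> rw [e] <;> linarith)
    (by rcases hσr with e | e <;> rw [e] <;> linarith)
  obtain ⟨p3, p4⟩ := pbd (t := σ * (2 * ((y (k + 1 + 1) : ℝ) - y (k + 1)))) hμ hLr hε
    (by rcases hσr with e | e <;> rw [e] <;> linarith)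
    (by rcases hσr with e | e <;> rw [e] <;> linarith)
  generalize hP1 : (L : ℝ) * (2 * g.μ + -(σ * (2 * ((y (k + 1) : ℝ) - y k)))) /
    (2 * (2 * g.μ)) = P₁ at p1 p2
  generalize hP2 : (L : ℝ) * (2 * g.μ + σ * (2 * ((y (k + 1 + 1) : ℝ) - y (k + 1)))) /
    (2 * (2 * g.μ)) = P₂ at p3 p4
  have S := hSTG (2 * g.n) (g.fib y) (g.q k) (2 * g.μ) L (2 * ((y (k + 1) : ℤ) - y k))
    (2 * ((y (k + 1 + 1) : ℤ) - y (k + 1))) σ P₁ P₂ hσ (Geo.fib_subset y)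
  rw [e1, e2] at S
  obtain ⟨S1, S2⟩ := S (by omega) hLm (by exact_mod_cast (by positivity : (0 : ℝ) < 2 * g.μ))
    (Geo.fib_upC y (by omega)) (Geo.fib_dnC y (by omega)) (Geo.fib_upC y hk) (Geo.fib_dnC y hk)
    (fun h hh => by
      have f := (Geo.mem_fib.1 hh).2.2.2.2
      rw [f k (by omega), f (k + 1) (by omega), f (k + 1 + 1) (by omega)]
      constructor <;> ring)
    (by rw [← hP1]; push_cast; ring) (by rw [← hP2]; push_cast; ring)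
  refine ⟨P₁ * P₂, mul_pos p1 p3, S1, ?_⟩
  have hv : (L : ℝ) * (g.μ : ℝ) ^ 2 * (1 - ε) ^ 2 / 2 ≤
      L * (2 * g.μ - L) * (2 * g.μ / 8 - H) := by
    have a1 : 2 * g.μ * (1 - ε) ≤ 2 * (g.μ : ℝ) - L := by linarith
    have a2 : g.μ * (1 - ε) / 4 ≤ 2 * (g.μ : ℝ) / 8 - H := by linarith
    have a3 : 0 ≤ (g.μ : ℝ) * (1 - ε) := mul_nonneg hμ0 (by linarith)
    have a4 := mul_le_mul a1 a2 (by positivity) (by linarith)
    have a5 := mul_le_mul_of_nonneg_left a4 hLr.le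
    nlinarith
  have hεL : ε * L ≤ 1 / 5 * L := mul_le_mul_of_nonneg_right hε hLr.le
  have S3 := S2 (sec A (g.fib y)) U (L * (2 * g.μ - L) * (2 * g.μ / 8 - H)) g.β
    (hC.mono fun h hh => (mem_sec.1 hh).2) (sec_subset _ _) (le_trans (by positivity) hv)
    (by linarith) (fun h hh => by
      obtain ⟨G1, G2⟩ := hG h (mem_sec.1 hh).2
      have b1 := G2 (g.q k) (2 * g.μ) (2 * g.μ - L) (by omega) (by omega)
      have b2 := G2 (g.q (k + 1)) (2 * g.μ) L (by omega) hLm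
      have b3 := G1 (g.q (k + 1)) (g.q (k + 1) + L) (by omega) (by omega)
      rw [e1, Nat.cast_sub hLm] at b1
      rw [e2] at b2
      push_cast at b1 b2 b3
      refine ⟨le_of_eq_of_le (by ring) b1, b2, abs_le_of_sq_le_sq' ?_ hβ0 |> abs_le.2⟩
      have : z * L ≤ z * (2 * g.μ) := mul_le_mul_of_nonneg_left (by linarith) hz
      linarith)
  have k1 := coef (B := (L - g.β) / 2) hLr hε0.le hε hv (by linarith) p1.le p3.le p2 p4
  have k2 := mul_le_mul_of_nonneg_right k1 (Nat.cast_nonneg (α := ℝ) (sec A (g.fib y)).card)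
  push_cast at S3
  refine le_of_mul_le_mul_left ?_ (show (0 : ℝ) < 2 * g.μ by positivity)
  linarith

end MICx

open MICx in
theorem p_MIC (hSTG : S_STG) (hSWAP : S_SWAP) : S_MIC := by
  intro g x j T L z H ε A U hj hjM hx hL hz hε c1 c2 c3 c4 c5 hC hG hX hX'
  obtain ⟨k, rfl⟩ : ∃ k, j = k + 1 := ⟨j - 1, by omega⟩
  obtain ⟨P, hP, s1, s2⟩ := side hSTG g x k T L z H ε A U 1 (Or.inl rfl) hjM
    (fun i => (hx i).trans (Nat.le_succ _)) hL hz hε c1 c2 c3 c4 c5 hC hG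
  obtain ⟨P', hP', s1', s2'⟩ := side hSTG g (inc x (k + 1)) k T L z H ε A U (-1) (Or.inr rfl) hjM
    (fun i => (le_inc x _ i).2.trans (Nat.succ_le_succ (hx i))) hL hz hε c1 c2 c3 c4 c5 hC hG
  have hLm : L ≤ 2 * g.μ := by
    have h0 : (0 : ℝ) ≤ g.μ := Nat.cast_nonneg _
    have h1 : ε * g.μ ≤ 1 / 5 * g.μ := mul_le_mul_of_nonneg_right hε h0
    have : (L : ℝ) ≤ 2 * g.μ := by linarith
    exact_mod_cast this
  have e1 := Geo.q_succ (g := g) k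
  have e2 := Geo.q_succ (g := g) (k + 1)
  have hq := (Geo.q_le (g := g) (show k + 1 + 1 ≤ g.M from hjM)).2
  have hup : ∀ h ∈ g.fib x, ∀ i i', g.q (k + 1) ≤ i + L → i < g.q (k + 1) → g.q (k + 1) ≤ i' →
      i' < g.q (k + 1) + L → h (i + 1) = h i - 1 → h (i' + 1) = h i' + 1 →
      rz h i i' (2 * 1) ∈ g.fib (inc x (k + 1)) := fun h hh i i' a1 a2 a3 a4 a5 a6 =>
    Geo.rz_up_mem_fib hh hjM a2 a3 (by omega) (by omega)
      (fun _ => by rw [Nat.add_sub_cancel]; omega) a5 a6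
  have w1 := hSWAP (2 * g.n) (g.fib x) (g.fib (inc x (k + 1))) (g.q (k + 1)) L L 1 (Or.inl rfl)
    (Geo.fib_subset _) (Geo.fib_subset _) (by omega) (by omega) hup
  have w2 := hSWAP (2 * g.n) (g.fib (inc x (k + 1))) (g.fib x) (g.q (k + 1)) L L (-1) (Or.inr rfl)
    (Geo.fib_subset _) (Geo.fib_subset _) (by omega) (by omega)
    fun h hh i i' a1 a2 a3 a4 a5 a6 => Geo.rz_dn_mem_fib hh hjM a2 a3 (by omega) (by omega)
      (fun _ => by rw [Nat.add_sub_cancel]; omega) a5 a6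
  have w3 := hSWAP (2 * g.n) (sec U (g.fib x)) (sec U (g.fib (inc x (k + 1)))) (g.q (k + 1)) L L 1
    (Or.inl rfl) ((sec_subset _ _).trans (Geo.fib_subset _))
    ((sec_subset _ _).trans (Geo.fib_subset _)) (by omega) (by omega)
    fun h hh i i' a1 a2 a3 a4 a5 a6 => mem_sec.2 ⟨hup h (mem_sec.1 hh).1 i i' a1 a2 a3 a4 a5 a6,
      hC.upper (le_rz h i i' (by norm_num)) (mem_sec.1 hh).2⟩
  rw [neg_neg] at w2
  unfold dens
  refine fin (Nat.cast_pos.2 hX.card_pos) (Nat.cast_pos.2 hX'.card_pos) hP hP' (by linarith) ?_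
  push_cast at s2 s2'
  linarith

end Pool.Agent.P.MP_e6a929_co.AS
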