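import Pool.Agent.P.MP_e6a929_co.AS.Iface

/-! Step NM of the asymptotic Sperner project. -/

namespace Pool.Agent.P.MP_e6a929_co.AS

open Finset Function Filter

open scoped Classical

namespace NMx

theorem dec_inc_comm {z : ℕ → ℕ} {p : ℕ} (hp : 0 < z p) (j : ℕ) :
    dec (inc z j) p = inc (dec z p) j := by
  conv_lhs => rw [← inc_dec hp, inc_comm, dec_inc]

theorem den_pos {s : Finset ℕ} {t : ℕ} {w : ℕ → ℝ} (hw : ∀ j ∈ s, 0 < w j) {z : ℕ → ℕ}
    (hz : z ∈ lay s (t + 1)) : 0 < ∑ p ∈ s.filter fun p => 0 < z p, w p := by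
  refine sum_pos (fun p hp => hw p (mem_filter.1 hp).1) ?_
  by_contra h
  rw [not_nonempty_iff_eq_empty, filter_eq_empty_iff] at h
  have h1 := (mem_lay.1 hz).1
  rw [sum_eq_zero fun p hp => Nat.eq_zero_of_not_pos (h hp)] at h1
  omega

theorem d1 {s : Finset ℕ} {t : ℕ} {w : ℕ → ℝ} (hw : ∀ j ∈ s, 0 < w j) {u v : (ℕ → ℕ) → ℝ}
    {m : ℝ} (hm : ∀ x ∈ lay s t, ∀ j ∈ s, u x ≤ v (inc x j) + m) {z : ℕ → ℕ}
    (hz : z ∈ lay s (t + 1)) : dav s w u z ≤ v z + m := by
  unfold dav
  rw [div_le_iff₀ (den_pos hw hz), mul_sum]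
  refine sum_le_sum fun p hp => ?_
  obtain ⟨hp1, hp2⟩ := mem_filter.1 hp
  have := hm _ (dec_mem_lay hz hp2) p hp1
  rw [inc_dec hp2] at this
  rw [mul_comm (v z + m)]
  exact mul_le_mul_of_nonneg_left this (hw p hp1).le

theorem d2 {s : Finset ℕ} {t : ℕ} {w : ℕ → ℝ} (hw : ∀ j ∈ s, 0 < w j) {u v : (ℕ → ℕ) → ℝ}
    {m : ℝ} (hm : ∀ x ∈ lay s t, ∀ j ∈ s, u x ≤ v (inc x j) + m) {z : ℕ → ℕ}
    (hz : z ∈ lay s (t + 1)) {j : ℕ} (hj : j ∈ s) :
    dav s w u z ≤ dav s w v (inc z j) + m := by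
  have hD := den_pos hw hz
  have h1 := d1 hw hm hz
  have key : dav s w u z * ∑ p ∈ s.filter fun p => 0 < z p, w p ≤
      (∑ p ∈ s.filter fun p => 0 < z p, w p * v (dec (inc z j) p)) +
        m * ∑ p ∈ s.filter fun p => 0 < z p, w p := by
    unfold dav
    rw [div_mul_cancel₀ _ hD.ne', mul_sum, ← sum_add_distrib]
    refine sum_le_sum fun p hp => ?_
    obtain ⟨hp1, hp2⟩ := mem_filter.1 hp
    have := mul_le_mul_of_nonneg_left (hm _ (dec_mem_lay hz hp2) j hj) (hw p hp1).le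
    rw [dec_inc_comm hp2]
    linarith
  rw [← sub_le_iff_le_add]
  conv_rhs => unfold dav
  rw [le_div_iff₀ (den_pos hw (inc_mem_lay hz hj))]
  by_cases h0 : 0 < z j
  · have e : (s.filter fun p => 0 < inc z j p) = s.filter fun p => 0 < z p := by
      refine filter_congr fun p _ => ?_
      by_cases e : p = j
      · rw [e, inc_self]
        omega
      · rw [inc_of_ne z e]
    rw [e]
    linarith
  · have e : (s.filter fun p => 0 < inc z j p) = insert j (s.filter fun p => 0 < z p) := by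
      ext p
      rw [mem_insert, mem_filter, mem_filter]
      by_cases e : p = j
      · rw [e, inc_self]
        simp [hj]
      · rw [inc_of_ne z e]
        simp [e]
    have hn : j ∉ s.filter fun p => 0 < z p := fun h => h0 (mem_filter.1 h).2
    rw [e, sum_insert hn, sum_insert hn, dec_inc]
    have := mul_le_mul_of_nonneg_left h1 (hw j hj).le
    linarith

end NMx

open NMx in
theorem p_NM (hPOI : S_POI) : S_NM := by
  intro s t ρ w r f f' hs hw h1 h2 hr hf
  obtain ⟨u, hu⟩ := hPOI s t ρ w r f hs hw h1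
  obtain ⟨v, hv⟩ := hPOI s (t + 1) ρ w r f' hs hw h2
  obtain ⟨⟨x, k⟩, hxk, hmax⟩ := exists_max_image (lay s t ×ˢ s)
    (fun a => u a.1 - v (inc a.1 a.2)) ((lay_nonempty hs t).product hs)
  obtain ⟨hx, hk⟩ : x ∈ lay s t ∧ k ∈ s := mem_product.1 hxk
  have hm : ∀ x' ∈ lay s t, ∀ j ∈ s, u x' ≤ v (inc x' j) + (u x - v (inc x k)) := by
    intro x' hx' j hj
    have := hmax (x', j) (mem_product.2 ⟨hx', hj⟩)
    dsimp only at this
    linarith
  have hy := inc_mem_lay hx hk
  have hA : dav s w u (inc x k) - u x ≤ 0 := by linarith [d1 hw hm hy]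
  have hstep : ∀ j ∈ s, w j * r j x * (dav s w u (inc x j) - u x) +
      (w j * r j (inc x k) - w j * r j x) * (dav s w u (inc x k) - u x) ≤
        w j * r j (inc x k) * (dav s w v (inc (inc x k) j) - v (inc x k)) := by
    intro j hj
    have a1 : dav s w u (inc x k) - u x ≤ dav s w v (inc (inc x k) j) - v (inc x k) := by
      linarith [d2 hw hm hy hj]
    have a2 : dav s w u (inc x j) - u x ≤ dav s w v (inc (inc x k) j) - v (inc x k) := by
      have := d2 hw hm (inc_mem_lay hx hj) hk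
      rw [inc_comm x j k] at this
      linarith
    by_cases e : j = k
    · subst e
      have := mul_le_mul_of_nonneg_left a1 (mul_pos (hw j hj) ((h2 _ hy).2 j hj).1).le
      linarith
    · have b1 := mul_le_mul_of_nonneg_left a2 (mul_pos (hw j hj) ((h1 _ hx).2 j hj).1).le
      have b2 := mul_le_mul_of_nonneg_left a1 (sub_nonneg.2
        (mul_le_mul_of_nonneg_left ((hr x hx k hk).1 j hj e) (hw j hj).le))
      linarith
  have hsum := sum_le_sum hstep
  rw [sum_add_distrib, ← sum_mul, sum_sub_distrib] at hsum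
  have hpos := mul_nonneg_of_nonpos_of_nonpos (sub_nonpos.2 (hr x hx k hk).2) hA
  have e1 := hu x hx
  have e2 := hv _ hy
  unfold gen at e1 e2
  linarith [hf x hx k hk]

end Pool.Agent.P.MP_e6a929_co.AS
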