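import Pool.Agent.P.MP_e6a929_co.AS.Iface

/-! Step NMG of the asymptotic Sperner project. -/

namespace Pool.Agent.P.MP_e6a929_co.AS

open Finset Function Filter

open scoped Classical

namespace NMGx

theorem le_of_cast {c u v : ℕ} (hc : 0 < c) (h : c * u ≤ v) : (u : ℝ) ≤ 1 / (c : ℝ) * v := by
  have hc' : (0 : ℝ) < c := by exact_mod_cast hc
  rw [one_div, inv_mul_eq_div, le_div_iff₀ hc', mul_comm]
  exact_mod_cast h

end NMGx

theorem p_NMG (hNUM : S_NUM) (hRAT : S_RAT) (hNM : S_NM) (hFAC : S_FAC) (hPHI : S_PHI) : S_NMG := by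
  intro g y ρ t f f' ok ht hf
  have num := hNUM g y ρ ok
  have hy : 0 < y := by have := ok.hy; omega
  have hM : 0 < g.M := by have := num.M2; omega
  have hμ : 0 < g.μ := num.mu0
  have ha : 0 < g.a := by have := num.mua; omega
  obtain ⟨T, hT⟩ : ∃ T, 8 * y ^ 61 * ρ = T + 1 := ⟨8 * y ^ 61 * ρ - 1, by have := num.top2; omega⟩
  have htT : t + 1 ≤ T := by have := num.top2; omega
  have hc : 0 < 10 * y ^ 80 := by positivity
  set c := 10 * y ^ 80 with hcdef
  have hc' : (0 : ℝ) < c := by exact_mod_cast hc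
  set e : ℝ := 1 / (c : ℝ) with he
  have he0 : 0 ≤ e := by positivity
  have fac : Fac g (T + 1) e := by
    refine hFAC g (T + 1) e ?_ ?_ ?_ ?_
    · rw [he, div_le_one hc']
      exact_mod_cast hc
    · have := NMGx.le_of_cast hc num.fac1
      rw [hT] at this
      exact_mod_cast this
    · have := NMGx.le_of_cast hc num.fac2
      exact_mod_cast this
    · have := NMGx.le_of_cast hc num.fac3
      rw [hT] at this
      exact_mod_cast this
  have hμ' : (0 : ℝ) < g.μ := by exact_mod_cast hμ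
  have h5 : 5 * e * (g.a * g.M / (2 * g.μ) + (g.M : ℝ) ^ 2) ≤ 1 := by
    have h1 : (g.a : ℝ) * g.M / (2 * g.μ) ≤ (y : ℝ) ^ 80 := by
      rw [div_le_iff₀ (by positivity), mul_comm ((y : ℝ) ^ 80)]
      exact_mod_cast num.fac4
    have h2 : (g.M : ℝ) ^ 2 = (y : ℝ) ^ 80 := by
      rw [ok.hM]
      push_cast
      ring
    have h3 : (c : ℝ) = 10 * (y : ℝ) ^ 80 := by
      rw [hcdef]
      push_cast
      ring
    calc _ ≤ 5 * e * ((y : ℝ) ^ 80 + (y : ℝ) ^ 80) :=
          mul_le_mul_of_nonneg_left (by rw [h2]; linarith) (by positivity)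
      _ = e * c := by rw [h3]; ring
      _ = 1 := by rw [he]; field_simp
  have hTμ : T + 1 ≤ g.μ := by
    have h1 := num.low2
    rw [hT] at h1
    have h2 : 4 * (T + 1 + 1) ≤ y * (4 * (T + 1 + 1)) := Nat.le_mul_of_pos_left _ hy
    omega
  have hTa : g.β + 2 * (T + 1) + 2 ≤ g.a := hT ▸ num.rat
  have key : ∀ s ≤ T, ∀ x ∈ lay (range (g.M + 1)) s, 0 < ((g.fib x).card : ℝ) ∧
      ∀ j ∈ range (g.M + 1), 0 < g.r j x ∧
        ((g.fib (inc x j)).card : ℝ) = g.r j x * (g.fib x).card := by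
    intro s hs x hx
    have hxi : ∀ i, x i ≤ T := fun i => (le_of_mem_lay hx i).trans hs
    obtain ⟨r1, r2⟩ := hRAT g x hM hμ ok.par fun i => by have := hxi i; omega
    obtain ⟨p1, -⟩ := hPHI g T e x hM hμ ha he0 fac h5 hxi
    exact ⟨by exact_mod_cast r2.card_pos, fun j hj => ⟨p1 j, r1 j (Nat.lt_succ_iff.1 (mem_range.1 hj))⟩⟩
  have hne : (range (g.M + 1)).Nonempty := nonempty_range_add_one
  refine ⟨sum_pos (fun x hx => (key t (by omega) x hx).1) (lay_nonempty hne t), ?_⟩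
  refine hNM (range (g.M + 1)) t (fun x => ((g.fib x).card : ℝ)) g.w g.r f f' hne
    (fun j hj => ?_) (key t (by omega)) (key (t + 1) htT) (fun x hx p hp => ?_)
    fun x hx j hj => hf x hx j (Nat.lt_succ_iff.1 (mem_range.1 hj))
  · have h1 : (j : ℝ) ≤ g.M := by exact_mod_cast Nat.lt_succ_iff.1 (mem_range.1 hj)
    have h2 : (0 : ℝ) < g.a * g.M / (2 * g.μ) := by positivity
    have h3 : (0 : ℝ) ≤ j * ((g.M : ℝ) - j) := mul_nonneg (Nat.cast_nonneg _) (by linarith)
    unfold Geo.w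
    linarith
  · have hxi : ∀ i, x i ≤ T := fun i => (le_of_mem_lay hx i).trans (by omega)
    obtain ⟨q1, q2⟩ := (hPHI g T e x hM hμ ha he0 fac h5 hxi).2 p
      (Nat.lt_succ_iff.1 (mem_range.1 hp))
    exact ⟨fun j hj => q1 j (Nat.lt_succ_iff.1 (mem_range.1 hj)), q2⟩

end Pool.Agent.P.MP_e6a929_co.AS
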