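import Pool.Agent.P.MP_e6a929_co.AS.Iface

/-! Step NUM of the asymptotic Sperner project. -/

namespace Pool.Agent.P.MP_e6a929_co.AS

open Finset Function Filter

open scoped Classical

namespace NUMx

theorem pw {y : ℕ} (hy : 100 ≤ y) (c i k j : ℕ) (hc : c ≤ 100 ^ k) (h : i + k ≤ j) :
    c * y ^ i ≤ y ^ j :=
  calc c * y ^ i ≤ y ^ k * y ^ i := by
        gcongr; exact hc.trans (Nat.pow_le_pow_left hy k)
    _ = y ^ (i + k) := by ring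
    _ ≤ y ^ j := Nat.pow_le_pow_right (by omega) h

theorem eta {y ρ μ : ℝ} (hy : 100 ≤ y) (r3 : y ^ 200 ≤ ρ) (r2 : ρ ^ 2 ≤ 2 * μ) (r1 : μ ≤ ρ ^ 2) :
    y * (y ^ 56 * ρ * (64 * (8 * y ^ 61 * ρ) / (μ * (y ^ 40) ^ 3) +
      4 / μ + 16 * (8 * y ^ 61 * ρ + 1) ^ 2 / μ ^ 2)) ≤ 1 := by
  have y0 : 0 < y := by linarith
  have y1 : 1 ≤ y := by linarith
  have ρ1 : 1 ≤ ρ := (one_le_pow₀ y1).trans r3
  have ρ0 : 0 < ρ := by linarith
  have μ0 : 0 < μ := by nlinarith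
  have hp : ∀ (c : ℝ) (i k j : ℕ), c ≤ 100 ^ k → i + k ≤ j → c * y ^ i ≤ y ^ j := fun c i k j hc h =>
    calc c * y ^ i ≤ y ^ k * y ^ i := by
          gcongr; exact hc.trans (pow_le_pow_left₀ (by norm_num) hy k)
      _ = y ^ (i + k) := by ring
      _ ≤ y ^ j := pow_le_pow_right₀ y1 h
  have h9 : 8 * y ^ 61 * ρ + 1 ≤ 9 * y ^ 61 * ρ := by
    have : 1 ≤ y ^ 61 * ρ := one_le_mul_of_one_le_of_one_le (one_le_pow₀ y1) ρ1
    linarith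
  have t1 : y * (y ^ 56 * ρ * (64 * (8 * y ^ 61 * ρ) / (μ * (y ^ 40) ^ 3))) ≤ 1 / 3 := by
    rw [← mul_div_assoc, ← mul_div_assoc, div_le_iff₀ (by positivity)]
    calc y * (y ^ 56 * ρ * (64 * (8 * y ^ 61 * ρ))) = 512 * y ^ 118 * ρ ^ 2 := by ring
      _ ≤ 512 * y ^ 118 * (2 * μ) := by gcongr
      _ = 1 / 3 * (μ * (3072 * y ^ 118)) := by ring
      _ ≤ 1 / 3 * (μ * y ^ 120) := by gcongr; exact hp _ _ 2 _ (by norm_num) le_rfl
      _ = _ := by ring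
  have t2 : y * (y ^ 56 * ρ * (4 / μ)) ≤ 1 / 3 := by
    rw [← mul_div_assoc, ← mul_div_assoc, div_le_iff₀ μ0]
    calc y * (y ^ 56 * ρ * 4) = 1 / 6 * (24 * y ^ 57 * ρ) := by ring
      _ ≤ 1 / 6 * (ρ * ρ) := by
        gcongr; exact (hp _ _ 1 _ (by norm_num) (by norm_num)).trans r3
      _ ≤ 1 / 3 * μ := by nlinarith
  have t3 : y * (y ^ 56 * ρ * (16 * (8 * y ^ 61 * ρ + 1) ^ 2 / μ ^ 2)) ≤ 1 / 3 := by
    rw [← mul_div_assoc, ← mul_div_assoc, div_le_iff₀ (by positivity)]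
    calc y * (y ^ 56 * ρ * (16 * (8 * y ^ 61 * ρ + 1) ^ 2))
        ≤ y * (y ^ 56 * ρ * (16 * (9 * y ^ 61 * ρ) ^ 2)) := by gcongr
      _ = 1 / 12 * (15552 * y ^ 179 * ρ ^ 3) := by ring
      _ ≤ 1 / 12 * (ρ * ρ ^ 3) := by
        gcongr; exact (hp _ _ 3 _ (by norm_num) (by norm_num)).trans r3
      _ = 1 / 12 * (ρ ^ 2) ^ 2 := by ring
      _ ≤ 1 / 12 * (2 * μ) ^ 2 := by gcongr
      _ = _ := by ring
  rw [mul_add, mul_add, mul_add, mul_add]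
  linarith

end NUMx

open NUMx in
theorem p_NUM : S_NUM := by
  rintro ⟨M, μ, a, β⟩ y ρ ⟨hy, hM, a1, a2, r1, r2, r3, b1, b2, -⟩
  simp only at hM a1 a2 r1 r2 b1 b2
  subst hM
  have y1 : 1 ≤ y := by omega
  have p1 : ∀ i, 1 ≤ y ^ i := fun i => Nat.one_le_pow _ _ y1
  have ρ1 : 1 ≤ ρ := (p1 _).trans r3
  have one : ∀ i, 1 ≤ y ^ i * ρ := fun i => Nat.mul_pos (p1 i) ρ1
  have mono : ∀ c i k j, c ≤ 100 ^ k → i + k ≤ j → c * (y ^ i * ρ) ≤ y ^ j * ρ :=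
    fun c i k j hc h => by
      rw [← mul_assoc]; exact Nat.mul_le_mul_right _ (pw hy c i k j hc h)
  have hμ : y ^ 199 * ρ ≤ μ := by
    have h1 := mono 2 199 1 200 (by norm_num) le_rfl
    have h2 : y ^ 200 * ρ ≤ ρ ^ 2 := by rw [sq]; exact Nat.mul_le_mul_right _ r3
    omega
  have big : ∀ c i k, c ≤ 100 ^ k → i + k ≤ 199 → c * (y ^ i * ρ) ≤ μ :=
    fun c i k hc h => (mono c i k 199 hc h).trans hμ
  have μ1 : 1 ≤ μ := (one _).trans hμ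
  have mua : 2 * μ ≤ a := by
    have := pw hy 2 0 1 35 (by norm_num) (by norm_num)
    rw [pow_zero, mul_one] at this
    exact (Nat.mul_le_mul_right μ this).trans a1
  have n1 : y ^ 40 * μ ≤ a + y ^ 40 * μ := Nat.le_add_left _ _
  have n2 : a + y ^ 40 * μ ≤ 2 * (y ^ 40 * μ) := by
    have := Nat.mul_le_mul_right μ (pw hy 2 35 1 40 (by norm_num) (by norm_num))
    omega
  have yρ : 100 ≤ y * ρ := hy.trans (Nat.le_mul_of_pos_right _ ρ1)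
  have e2 : 2 * y * ρ = 2 * (y * ρ) := by ring
  have b3 : β + 1 ≤ 3 * (y * ρ) := by omega
  have y61 : y * ρ ≤ y ^ 61 * ρ := by
    have := mono 1 1 0 61 (by norm_num) (by norm_num)
    rwa [pow_one, one_mul] at this
  have e8 : 8 * y ^ 61 * ρ = 8 * (y ^ 61 * ρ) := by ring
  have M1 : y ^ 40 + 1 ≤ 2 * y ^ 40 := by have := p1 40; omega
  have h9 : 8 * y ^ 61 * ρ + 1 ≤ 9 * (y ^ 61 * ρ) := by omega
  constructor <;> try simp only [Geo.n]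
  · have := pw hy 2 0 1 40 (by norm_num) (by norm_num)
    simpa using this
  · exact μ1
  · exact ρ1
  · exact mua
  · calc y * (y ^ 40 + 1) ≤ y * (2 * y ^ 40) := by gcongr
      _ = 2 * (y ^ 41 * 1) := by ring
      _ ≤ 2 * (y ^ 41 * ρ) := by gcongr
      _ ≤ μ := big 2 41 1 (by norm_num) (by norm_num)
      _ ≤ _ := by omega
  · have := big 21 61 1 (by norm_num) (by norm_num)
    omega
  · calc y ^ 40 * (β + 2) ≤ y ^ 40 * (4 * (y * ρ)) := by gcongr; omega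
      _ = 4 * (y ^ 41 * ρ) := by ring
      _ ≤ y ^ 61 * ρ := mono 4 41 1 61 (by norm_num) (by norm_num)
      _ ≤ _ := by omega
  · calc y * (4 * (8 * y ^ 61 * ρ + 1)) ≤ y * (4 * (9 * (y ^ 61 * ρ))) := by gcongr
      _ = 36 * (y ^ 62 * ρ) := by ring
      _ ≤ μ := big 36 62 1 (by norm_num) (by norm_num)
  · calc (y ^ 40 + 1) * (3 * y ^ 21 * ρ) ≤ (2 * y ^ 40) * (3 * y ^ 21 * ρ) := by gcongr
      _ = _ := by ring
  · have h1 := mono 1 56 0 61 (by norm_num) (by norm_num)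
    have e6 : 6 * y ^ 61 * ρ = 6 * (y ^ 61 * ρ) := by ring
    omega
  · calc 10 * y ^ 80 * (5 * (8 * y ^ 61 * ρ + 1)) ≤ 10 * y ^ 80 * (5 * (9 * (y ^ 61 * ρ))) := by
          gcongr
      _ = 450 * (y ^ 141 * ρ) := by ring
      _ ≤ μ := big 450 141 2 (by norm_num) (by norm_num)
  · have h1 := pw hy 20 80 1 200 (by norm_num) (by norm_num)
    have h2 : ρ ≤ y * ρ := Nat.le_mul_of_pos_left _ y1
    omega
  · calc 10 * y ^ 80 * (2 * (β + 2 * (8 * y ^ 61 * ρ) + 6))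
        ≤ 10 * y ^ 80 * (2 * (20 * (y ^ 61 * ρ))) := by gcongr; omega
      _ = 400 * (y ^ 141 * ρ) := by ring
      _ ≤ μ := big 400 141 2 (by norm_num) (by norm_num)
      _ ≤ a := by omega
  · calc a * y ^ 40 ≤ 2 * y ^ 35 * μ * y ^ 40 := by gcongr
      _ = 2 * μ * y ^ 75 := by ring
      _ ≤ 2 * μ * y ^ 80 := by gcongr; omega
  · calc 4 * y ^ 2 * μ ≤ 4 * y ^ 2 * ρ ^ 2 := by gcongr
      _ = (2 * y * ρ) ^ 2 := by ring
      _ ≤ β ^ 2 := by gcongr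
  · have e3 : 3 * y * ρ = 3 * (y * ρ) := by ring
    omega
  · calc y * (2 * y ^ 2 * ρ) = 2 * (y ^ 3 * ρ) := by ring
      _ ≤ μ := big 2 3 1 (by norm_num) (by norm_num)
      _ ≤ _ := by omega
  · calc y * (4 * (3 * y ^ 21 * ρ)) = 12 * (y ^ 22 * ρ) := by ring
      _ ≤ μ := big 12 22 1 (by norm_num) (by norm_num)
  · calc 2 * y ^ 2 * a ≤ 2 * y ^ 2 * (2 * y ^ 35 * μ) := by gcongr
      _ ≤ 2 * y ^ 2 * (2 * y ^ 36 * ρ ^ 2) := by gcongr; omega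
      _ = _ := by ring
  · have h1 : 1 ≤ μ * (y ^ 54 * ρ) := Nat.mul_pos μ1 (one _)
    have h2 : 2 * (a + y ^ 40 * μ) * β ≤ μ * (y ^ 54 * ρ) :=
      calc 2 * (a + y ^ 40 * μ) * β ≤ 2 * (2 * (y ^ 40 * μ)) * (3 * (y * ρ)) := by gcongr; omega
        _ = μ * (12 * (y ^ 41 * ρ)) := by ring
        _ ≤ _ := Nat.mul_le_mul_left _ (mono 12 41 1 54 (by norm_num) (by norm_num))
    have h3 : 2 * a * (2 * y ^ 19 * ρ) ≤ 8 * (μ * (y ^ 54 * ρ)) :=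
      calc 2 * a * (2 * y ^ 19 * ρ) ≤ 2 * (2 * y ^ 35 * μ) * (2 * y ^ 19 * ρ) := by gcongr
        _ = _ := by ring
    calc y * (2 * (a + y ^ 40 * μ) * β + 2 * a * (2 * y ^ 19 * ρ) + 1)
        ≤ y * (10 * (μ * (y ^ 54 * ρ))) := by gcongr; omega
      _ = μ * (10 * (y ^ 55 * ρ)) := by ring
      _ ≤ μ * (y ^ 56 * ρ) := Nat.mul_le_mul_left _ (mono 10 55 1 56 (by norm_num) le_rfl)
      _ ≤ 2 * μ * (y ^ 56 * ρ) := by gcongr; omega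
  · calc 4 * y ^ 2 * (a + y ^ 40 * μ) ≤ 4 * y ^ 2 * (2 * (y ^ 40 * ρ ^ 2)) := by
          gcongr; exact n2.trans (by gcongr)
      _ = 8 * (y ^ 42 * ρ ^ 2) := by ring
      _ ≤ 9 * (y ^ 42 * ρ ^ 2) := by omega
      _ = _ := by ring
  · calc 16 * (3 * y ^ 21 * ρ) = 48 * (y ^ 21 * ρ) := by ring
      _ ≤ μ := big 48 21 1 (by norm_num) (by norm_num)
      _ ≤ _ := by omega
  · calc (y ^ 17 * ρ) ^ 2 = y ^ 34 * ρ ^ 2 := by ring
      _ ≤ y ^ 34 * (2 * μ) := by gcongr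
      _ = 2 * y ^ 34 * μ := by ring
      _ ≤ y ^ 35 * μ := Nat.mul_le_mul_right _ (pw hy 2 34 1 35 (by norm_num) le_rfl)
      _ ≤ a := a1
  · generalize hn : a + y ^ 40 * μ = n at n1 n2 ⊢
    have n0 : 1 ≤ n := by omega
    have h1 : 2 * n * (3 * y ^ 21 * ρ) + 1 ≤ 7 * (n * (y ^ 21 * ρ)) := by
      have h2 : 1 ≤ n * (y ^ 21 * ρ) := Nat.mul_pos n0 (one _)
      have e : 2 * n * (3 * y ^ 21 * ρ) = 6 * (n * (y ^ 21 * ρ)) := by ring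
      omega
    have h3 : y ^ 40 * ρ ^ 2 ≤ 2 * n :=
      calc y ^ 40 * ρ ^ 2 ≤ y ^ 40 * (2 * μ) := by gcongr
        _ = 2 * (y ^ 40 * μ) := by ring
        _ ≤ 2 * n := by gcongr
    refine Nat.le_of_mul_le_mul_left ?_ (by norm_num : 0 < 2)
    calc 2 * (y * ((y ^ 40 + 1) * (40 * (3 * y ^ 21 * ρ) * (8 * (β + 1) ^ 3 *
          (2 * (2 * n * (3 * y ^ 21 * ρ) + 1))))))
        ≤ 2 * (y * ((2 * y ^ 40) * (40 * (3 * y ^ 21 * ρ) * (8 * (3 * (y * ρ)) ^ 3 *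
          (2 * (7 * (n * (y ^ 21 * ρ)))))))) := by gcongr
      _ = 1451520 * y ^ 86 * (ρ ^ 5 * n) := by ring
      _ ≤ y ^ 91 * (ρ ^ 5 * n) :=
        Nat.mul_le_mul_right _ (pw hy _ 86 4 91 (by norm_num) (by norm_num))
      _ = (y ^ 17 * ρ) ^ 3 * n * (y ^ 40 * ρ ^ 2) := by ring
      _ ≤ (y ^ 17 * ρ) ^ 3 * n * (2 * n) := by gcongr
      _ = _ := by ring
  · have := eta (y := y) (ρ := ρ) (μ := μ) (by exact_mod_cast hy) (by exact_mod_cast r3)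
      (by exact_mod_cast r2) (by exact_mod_cast r1)
    simpa only [Nat.cast_pow] using this

end Pool.Agent.P.MP_e6a929_co.AS
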