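import Pool.Agent.P.MP_e6a929_co.AS.Iface

/-! Step PAR of the asymptotic Sperner project. -/

namespace Pool.Agent.P.MP_e6a929_co.AS

open Finset Function Filter

open scoped Classical

namespace PARx

theorem root (n k : ℕ) (hk : k ≠ 0) : ∃ y, y ^ k ≤ n ∧ n < (y + 1) ^ k :=
  ⟨Nat.nthRoot k n, Nat.pow_nthRoot_le (Or.inl hk), Nat.lt_pow_nthRoot_add_one hk n⟩

theorem ok (n y : ℕ) (hy : 100 ≤ y) (h : y ^ 450 ≤ n) : ∃ (g : Geo) (ρ : ℕ), g.Ok y ρ ∧ g.n = n := by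
  have y1 : 1 ≤ y := by omega
  have p : ∀ a b : ℕ, a < b → 2 * y ^ a ≤ y ^ b := fun a b hab =>
    le_trans (by rw [pow_succ']; exact Nat.mul_le_mul_right _ (by omega))
      (Nat.pow_le_pow_right y1 (Nat.succ_le_of_lt hab))
  have D0 : 0 < y ^ 40 + y ^ 35 := by positivity
  have D1 : y ^ 40 + y ^ 35 ≤ y ^ 41 := by
    have := p 40 41 (by norm_num)
    have := Nat.pow_le_pow_right y1 (show 35 ≤ 40 by norm_num)
    omega
  obtain ⟨μ, hμ⟩ : ∃ μ, μ = n / (y ^ 40 + y ^ 35) := ⟨_, rfl⟩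
  obtain ⟨r, hr⟩ : ∃ r, r = n % (y ^ 40 + y ^ 35) := ⟨_, rfl⟩
  have e : (y ^ 40 + y ^ 35) * μ + r = n := by rw [hμ, hr]; exact Nat.div_add_mod _ _
  have r1 : r < y ^ 40 + y ^ 35 := hr ▸ Nat.mod_lt _ D0
  have m1 : y ^ 400 ≤ μ := by
    rw [hμ, Nat.le_div_iff_mul_le D0]
    refine le_trans (Nat.mul_le_mul_left _ D1) (le_trans ?_ h)
    rw [← pow_add]
    exact Nat.pow_le_pow_right y1 (by norm_num)
  have r2 : r ≤ y ^ 35 * μ := by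
    refine le_trans (r1.le.trans D1) (le_trans ?_ (Nat.mul_le_mul_left _ m1))
    rw [← pow_add]
    exact Nat.pow_le_pow_right y1 (by norm_num)
  have s1 : y ^ 200 ≤ Nat.sqrt μ := Nat.le_sqrt'.2 (by rwa [← pow_mul])
  have s2 : 3 ≤ Nat.sqrt μ := le_trans (le_trans (by omega) (Nat.le_self_pow (by norm_num) y)) s1
  have s3 := Nat.sqrt_le' μ
  refine ⟨⟨y ^ 40, μ, y ^ 35 * μ + r, 2 * y * (Nat.sqrt μ + 1) + (y ^ 35 * μ + r) % 2⟩,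
    Nat.sqrt μ + 1, ⟨hy, rfl, Nat.le_add_right _ _, ?_, (Nat.lt_succ_sqrt' μ).le, ?_,
      s1.trans (Nat.le_succ _), Nat.le_add_right _ _, ?_, ?_⟩, ?_⟩
  · show y ^ 35 * μ + r ≤ 2 * y ^ 35 * μ
    rw [mul_assoc]; omega
  · show (Nat.sqrt μ + 1) ^ 2 ≤ 2 * μ
    nlinarith
  · exact Nat.add_le_add_left (Nat.le_of_lt_succ (Nat.mod_lt _ two_pos)) _
  · show (2 * y * (Nat.sqrt μ + 1) + (y ^ 35 * μ + r) % 2) % 2 = (y ^ 35 * μ + r) % 2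
    rw [mul_assoc, Nat.mul_add_mod, Nat.mod_mod]
  · show y ^ 35 * μ + r + y ^ 40 * μ = n
    rw [← e]; ring

theorem ex (n y k : ℕ) (hk : 1 ≤ k) (hy : 60 * k ≤ y) (h : n ≤ (2 * y) ^ k) :
    (2 * (n : ℝ) + 1) ^ 10 ≤ Real.exp ((y : ℝ) ^ 2) := by
  have a1 : 1 ≤ (2 * y) ^ k := Nat.one_le_pow _ _ (by omega)
  have a2 : 3 ≤ 3 ^ k := Nat.le_self_pow (by omega) 3
  have a3 : 2 * n + 1 ≤ (6 * y) ^ k := by
    rw [show 6 * y = 3 * (2 * y) by ring, mul_pow]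
    exact le_trans (by omega) (Nat.mul_le_mul_right _ a2)
  have a4 : 2 * (n : ℝ) + 1 ≤ Real.exp (6 * y) ^ k :=
    le_trans (by exact_mod_cast a3) (pow_le_pow_left₀ (a := 6 * (y : ℝ)) (by positivity)
      (by linarith [Real.add_one_le_exp (6 * (y : ℝ))]) k)
  refine (pow_le_pow_left₀ (by positivity) a4 10).trans ?_
  rw [← pow_mul, ← Real.exp_nat_mul, Real.exp_le_exp]
  have a5 : (60 * k : ℝ) ≤ y := by exact_mod_cast hy
  push_cast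
  nlinarith [Nat.cast_nonneg (α := ℝ) y]

end PARx

theorem p_PAR : S_PAR := by
  obtain ⟨c, hc⟩ : ∃ c : ℕ, 27000 ≤ c := ⟨_, le_rfl⟩
  refine eventually_atTop.2 ⟨c ^ 450, fun n hn => ?_⟩
  obtain ⟨y, h1, h2⟩ := PARx.root n 450 (by norm_num)
  have hy : 27000 ≤ y := hc.trans (Nat.le_of_lt_succ (lt_of_pow_lt_pow_left₀ 450 (Nat.zero_le _)
    (lt_of_le_of_lt hn h2)))
  have h3 : n ≤ (2 * y) ^ 450 := h2.le.trans (Nat.pow_le_pow_left (by omega) _)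
  obtain ⟨g, ρ, h4, h5⟩ := PARx.ok n y (by omega) h1
  exact ⟨g, y, ρ, h4, h5, PARx.ex n y 450 (by norm_num) (by omega) h3, h3⟩

end Pool.Agent.P.MP_e6a929_co.AS
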