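import Pool.Agent.P.MP_e6a929_co.AS.Iface

/-! Step PHI of the asymptotic Sperner project. -/

namespace Pool.Agent.P.MP_e6a929_co.AS

open Finset Function Filter

open scoped Classical

namespace PHIx

variable {g : Geo} {T : ℕ} {e : ℝ} {x : ℕ → ℕ}

lemma abs_diff {S : ℕ} {x : ℕ → ℕ} (hx : ∀ i, x i ≤ S) (i j : ℕ) :
    -(S : ℝ) ≤ (x i : ℝ) - x j ∧ (x i : ℝ) - x j ≤ S := by
  have h1 : (x i : ℝ) ≤ S := by exact_mod_cast hx i
  have h2 : (x j : ℝ) ≤ S := by exact_mod_cast hx j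
  have h3 : (0 : ℝ) ≤ x i := Nat.cast_nonneg _
  have h4 : (0 : ℝ) ≤ x j := Nat.cast_nonneg _
  constructor <;> linarith

lemma lf_bd {S : ℕ} (hF : Fac g S e) (hx : ∀ i, x i ≤ S) (j : ℕ) :
    1 - e ≤ g.lf j x ∧ g.lf j x ≤ 1 + e := by
  unfold Geo.lf
  split_ifs
  · exact hF.bb_bd _ (hx _)
  · exact hF.al_bd _ (abs_le.2 (abs_diff hx _ _))

lemma rt_bd {S : ℕ} (hF : Fac g S e) (hx : ∀ i, x i ≤ S) (j : ℕ) :
    1 - e ≤ g.rt j x ∧ g.rt j x ≤ 1 + e := by
  unfold Geo.rt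
  split_ifs
  · exact hF.bb_bd _ (hx _)
  · exact hF.al_bd _ (abs_le.2 (abs_diff hx _ _))

lemma al_up (hF : Fac g (T + 1) e) (hx : ∀ i, x i ≤ T) (i j : ℕ) :
    2 / g.μ * (1 - e) ≤ g.al ((x i : ℝ) - x j) - g.al (((x i + 1 : ℕ) : ℝ) - x j) := by
  have h := abs_diff hx i j
  have h1 := (hF.al_dec ((x i : ℝ) - x j) (abs_le.2 (by push_cast; constructor <;> linarith))).1
  rwa [show (x i : ℝ) - x j + 1 = ((x i + 1 : ℕ) : ℝ) - x j by push_cast; ring] at h1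

lemma al_dn (hF : Fac g (T + 1) e) (hx : ∀ i, x i ≤ T) (i j : ℕ) :
    2 / g.μ * (1 - e) ≤ g.al ((x i : ℝ) - ((x j + 1 : ℕ) : ℝ)) - g.al ((x i : ℝ) - x j) ∧
      g.al ((x i : ℝ) - ((x j + 1 : ℕ) : ℝ)) - g.al ((x i : ℝ) - x j) ≤ 2 / g.μ * (1 + e) := by
  have h := abs_diff hx i j
  have h1 := hF.al_dec ((x i : ℝ) - ((x j + 1 : ℕ) : ℝ))
    (abs_le.2 (by push_cast; constructor <;> linarith))
  rwa [show (x i : ℝ) - ((x j + 1 : ℕ) : ℝ) + 1 = (x i : ℝ) - x j by push_cast; ring] at h1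

lemma lf_ne (hF : Fac g (T + 1) e) (he : e ≤ 1) (hx : ∀ i, x i ≤ T) {p j : ℕ} (h : j ≠ p) :
    0 ≤ g.lf j (inc x p) - g.lf j x ∧
      g.lf j (inc x p) - g.lf j x ≤ if j = p + 1 then 2 / g.μ * (1 + e) else 0 := by
  have hk : 0 ≤ 2 / (g.μ : ℝ) * (1 - e) := mul_nonneg (by positivity) (by linarith)
  unfold Geo.lf
  by_cases h0 : j = 0
  · rw [if_pos h0, if_pos h0, inc_of_ne x (h0 ▸ h), if_neg (by omega), sub_self]
    exact ⟨le_rfl, le_rfl⟩
  · rw [if_neg h0, if_neg h0, inc_of_ne x h]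
    by_cases h1 : j = p + 1
    · rw [if_pos h1, show j - 1 = p by omega, inc_self]
      have := al_dn hF hx j p
      exact ⟨hk.trans this.1, this.2⟩
    · rw [if_neg h1, inc_of_ne x (show j - 1 ≠ p by omega), sub_self]
      exact ⟨le_rfl, le_rfl⟩

lemma rt_ne (hF : Fac g (T + 1) e) (he0 : 0 ≤ e) (he : e ≤ 1) (hx : ∀ i, x i ≤ T) {p j : ℕ}
    (h : j ≠ p) :
    0 ≤ g.rt j (inc x p) - g.rt j x ∧
      g.rt j (inc x p) - g.rt j x ≤ if j + 1 = p then 2 / g.μ * (1 + e) else 0 := by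
  have hk : 0 ≤ 2 / (g.μ : ℝ) * (1 - e) := mul_nonneg (by positivity) (by linarith)
  unfold Geo.rt
  by_cases h0 : j = g.M
  · rw [if_pos h0, if_pos h0, inc_of_ne x (h0 ▸ h), sub_self]
    refine ⟨le_rfl, ?_⟩
    split_ifs
    · positivity
    · exact le_rfl
  · rw [if_neg h0, if_neg h0, inc_of_ne x h]
    by_cases h1 : j + 1 = p
    · rw [if_pos h1, h1, inc_self]
      have := al_dn hF hx j p
      exact ⟨hk.trans this.1, this.2⟩
    · rw [if_neg h1, inc_of_ne x h1, sub_self]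
      exact ⟨le_rfl, le_rfl⟩

lemma lf_eq (hF : Fac g (T + 1) e) (hx : ∀ i, x i ≤ T) (p : ℕ) :
    (if p = 0 then 4 / (g.a : ℝ) else 2 / g.μ) * (1 - e) ≤ g.lf p x - g.lf p (inc x p) := by
  unfold Geo.lf
  by_cases h0 : p = 0
  · subst h0
    simp only [if_true]
    rw [inc_self]
    exact hF.bb_dec _ ((hx 0).trans (Nat.le_succ T))
  · simp only [if_neg h0]
    rw [inc_self, inc_of_ne x (show p - 1 ≠ p by omega)]
    exact al_up hF hx _ _

lemma rt_eq (hF : Fac g (T + 1) e) (hx : ∀ i, x i ≤ T) (p : ℕ) :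
    (if p = g.M then 4 / (g.a : ℝ) else 2 / g.μ) * (1 - e) ≤ g.rt p x - g.rt p (inc x p) := by
  unfold Geo.rt
  by_cases h0 : p = g.M
  · simp only [if_pos h0]
    rw [← h0, inc_self]
    exact hF.bb_dec _ ((hx p).trans (Nat.le_succ T))
  · simp only [if_neg h0]
    rw [inc_self, inc_of_ne x (show p + 1 ≠ p by omega)]
    exact al_up hF hx _ _

lemma inc_le (hx : ∀ i, x i ≤ T) (p i : ℕ) : inc x p i ≤ T + 1 :=
  (le_inc x p i).2.trans (Nat.succ_le_succ (hx i))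

lemma r_ne (hF : Fac g (T + 1) e) (he0 : 0 ≤ e) (he : e ≤ 1) (hx : ∀ i, x i ≤ T) {p j : ℕ}
    (h : j ≠ p) :
    0 ≤ g.r j (inc x p) - g.r j x ∧ g.r j (inc x p) - g.r j x ≤
      (1 + e) * ((if j = p + 1 then 2 / g.μ * (1 + e) else 0) +
        if j + 1 = p then 2 / g.μ * (1 + e) else 0) := by
  obtain ⟨a1, a2⟩ := lf_ne hF he hx h
  obtain ⟨b1, b2⟩ := rt_ne hF he0 he hx h
  obtain ⟨c1, c2⟩ := lf_bd hF (fun i => (hx i).trans (Nat.le_succ T)) j
  obtain ⟨d1, d2⟩ := rt_bd hF (inc_le hx p) j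
  have e1 : g.r j (inc x p) - g.r j x = (g.lf j (inc x p) - g.lf j x) * g.rt j (inc x p) +
      g.lf j x * (g.rt j (inc x p) - g.rt j x) := by
    unfold Geo.r
    ring
  rw [e1]
  constructor
  · exact add_nonneg (mul_nonneg a1 (by linarith)) (mul_nonneg (by linarith) b1)
  · rw [mul_add]
    refine add_le_add ?_ ?_
    · rw [mul_comm]
      exact mul_le_mul d2 a2 a1 (by linarith)
    · exact mul_le_mul c2 b2 b1 (by linarith)

lemma r_eq (hF : Fac g (T + 1) e) (he : e ≤ 1) (hx : ∀ i, x i ≤ T) (p : ℕ) :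
    (1 - e) * ((if p = 0 then 4 / (g.a : ℝ) else 2 / g.μ) * (1 - e) +
      (if p = g.M then 4 / (g.a : ℝ) else 2 / g.μ) * (1 - e)) ≤ g.r p x - g.r p (inc x p) := by
  have a1 := lf_eq hF hx p
  have b1 := rt_eq hF hx p
  obtain ⟨c1, c2⟩ := lf_bd hF (inc_le hx p) p
  obtain ⟨d1, d2⟩ := rt_bd hF (fun i => (hx i).trans (Nat.le_succ T)) p
  have e1 : g.r p x - g.r p (inc x p) = g.rt p x * (g.lf p x - g.lf p (inc x p)) +
      g.lf p (inc x p) * (g.rt p x - g.rt p (inc x p)) := by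
    unfold Geo.r
    ring
  have h1 : ∀ P : Prop, [Decidable P] →
      0 ≤ (if P then 4 / (g.a : ℝ) else 2 / g.μ) * (1 - e) := by
    intro P _
    refine mul_nonneg ?_ (by linarith)
    split_ifs <;> positivity
  rw [e1, mul_add]
  exact add_le_add (mul_le_mul d1 a1 (h1 _) (by linarith)) (mul_le_mul c1 b1 (h1 _) (by linarith))

lemma w_nonneg {j : ℕ} (hj : j ≤ g.M) : 0 ≤ g.w j := by
  unfold Geo.w
  have : (j : ℝ) ≤ g.M := by exact_mod_cast hj
  have h1 : 0 ≤ (j : ℝ) * ((g.M : ℝ) - j) := mul_nonneg (Nat.cast_nonneg _) (by linarith)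
  positivity

lemma core {e k W : ℝ} (he0 : 0 ≤ e) (hk : 0 ≤ k) (hW : 4 * e * W ≤ 1) :
    (1 + e) * (k * (1 + e)) * (W - 1) ≤ (1 - e) * (k * (1 - e)) * W := by
  have : 0 ≤ k * ((1 + e) ^ 2 - 4 * e * W) := mul_nonneg hk (by nlinarith)
  nlinarith

lemma final (hM : 0 < g.M) (hμ : 0 < g.μ) (ha : 0 < g.a) (he0 : 0 ≤ e)
    (h5 : 5 * e * (g.a * g.M / (2 * g.μ) + (g.M : ℝ) ^ 2) ≤ 1) {p : ℕ} (hp : p ≤ g.M) :
    (1 + e) * (2 / g.μ * (1 + e)) *
        ((if p + 1 ≤ g.M then g.w (p + 1) else 0) + if 0 < p then g.w (p - 1) else 0) ≤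
      g.w p * ((1 - e) * ((if p = 0 then 4 / (g.a : ℝ) else 2 / g.μ) * (1 - e) +
        (if p = g.M then 4 / (g.a : ℝ) else 2 / g.μ) * (1 - e))) := by
  have hM1 : (1 : ℝ) ≤ g.M := by exact_mod_cast hM
  have hμ' : (0 : ℝ) < g.μ := by exact_mod_cast hμ
  have ha' : (0 : ℝ) < g.a := by exact_mod_cast ha
  have hk : (0 : ℝ) ≤ 2 / g.μ := by positivity
  obtain ⟨c, hc⟩ : ∃ c : ℝ, c = g.a * g.M / (2 * g.μ) := ⟨_, rfl⟩
  have hc0 : 0 ≤ c := by rw [hc]; positivity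
  have hca : c * (4 / g.a) = g.M * (2 / g.μ) := by rw [hc]; field_simp; ring
  have hw : ∀ j : ℕ, g.w j = (j : ℝ) * ((g.M : ℝ) - j) + c := fun j => by rw [hc]; rfl
  rw [← hc] at h5
  have hb : ∀ W : ℝ, W ≤ c + (g.M : ℝ) ^ 2 → 4 * e * W ≤ 1 := by
    intro W hW
    have h1 : e * W ≤ e * (c + (g.M : ℝ) ^ 2) := mul_le_mul_of_nonneg_left hW he0
    have h2 : 0 ≤ e * (c + (g.M : ℝ) ^ 2) := by positivity
    linarith
  have hend := core he0 hk (hb (c + g.M) (by nlinarith))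
  have hrhs : c * ((1 - e) * (4 / (g.a : ℝ) * (1 - e) + 2 / g.μ * (1 - e))) =
      (1 - e) * (2 / g.μ * (1 - e)) * (c + g.M) := by
    linear_combination (1 - e) ^ 2 * hca
  by_cases h0 : p = 0
  · subst h0
    rw [if_pos (by omega), if_neg (by omega), if_pos rfl, if_neg (by omega), hw, hw]
    push_cast
    rw [zero_mul, zero_add, hrhs]
    refine le_trans (le_of_eq ?_) hend
    ring
  · by_cases h1 : p = g.M
    · rw [if_neg (by omega), if_pos (by omega), if_neg h0, if_pos h1, hw, hw, h1,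
        Nat.cast_sub (by omega : 1 ≤ g.M), sub_self, mul_zero, zero_add, zero_add,
        add_comm (2 / (g.μ : ℝ) * (1 - e)), hrhs]
      refine le_trans (le_of_eq ?_) hend
      push_cast
      ring
    · rw [if_pos (by omega), if_pos (by omega), if_neg h0, if_neg h1, hw, hw, hw,
        Nat.cast_sub (by omega : 1 ≤ p)]
      have hp0 : (0 : ℝ) ≤ p := Nat.cast_nonneg _
      have hpM : (p : ℝ) ≤ g.M := by exact_mod_cast hp
      have := core he0 hk (hb ((p : ℝ) * ((g.M : ℝ) - p) + c) (by nlinarith))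
      push_cast
      nlinarith

end PHIx

open PHIx in
theorem p_PHI : S_PHI := by
  intro g T e x hM hμ ha he0 hF h5 hx
  have hM1 : (1 : ℝ) ≤ g.M := by exact_mod_cast hM
  have he : e ≤ 1 / 5 := by
    have h1 : (0 : ℝ) ≤ g.a * g.M / (2 * g.μ) := by positivity
    have h2 : e * 1 ≤ e * (g.a * g.M / (2 * g.μ) + (g.M : ℝ) ^ 2) :=
      mul_le_mul_of_nonneg_left (by nlinarith) he0
    linarith
  have he1 : e ≤ 1 := by linarith
  have hx' : ∀ i, x i ≤ T + 1 := fun i => (hx i).trans (Nat.le_succ T)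
  refine ⟨fun j => mul_pos (by linarith [(lf_bd hF hx' j).1]) (by linarith [(rt_bd hF hx' j).1]),
    fun p hp => ⟨fun j _ hj => sub_nonneg.1 (r_ne hF he0 he1 hx hj).1, ?_⟩⟩
  obtain ⟨K, hK⟩ : ∃ K : ℝ, K = (1 + e) * (2 / g.μ * (1 + e)) := ⟨_, rfl⟩
  obtain ⟨B, hB⟩ : ∃ B : ℝ, B = (1 - e) * ((if p = 0 then 4 / (g.a : ℝ) else 2 / g.μ) * (1 - e) +
      (if p = g.M then 4 / (g.a : ℝ) else 2 / g.μ) * (1 - e)) := ⟨_, rfl⟩
  have hfin := final hM hμ ha he0 h5 hp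
  rw [← hK, ← hB] at hfin
  have hterm : ∀ j ∈ range (g.M + 1), g.w j * g.r j (inc x p) - g.w j * g.r j x ≤
      (if j = p + 1 then K * g.w j else 0) + (if j = p - 1 then (if 0 < p then K * g.w j else 0)
        else 0) - if j = p then g.w j * B else 0 := by
    intro j hj
    have hw := w_nonneg (g := g) (j := j) (Nat.lt_succ_iff.1 (mem_range.1 hj))
    by_cases h : j = p
    · subst h
      have h1 := mul_le_mul_of_nonneg_left (r_eq hF he1 hx j) hw
      rw [← hB] at h1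
      have h2 : (if j = j - 1 then (if 0 < j then K * g.w j else 0) else 0) = 0 := by
        split_ifs <;> first | rfl | omega
      rw [if_neg (by omega), h2, if_pos rfl]
      linarith
    · have h1 := mul_le_mul_of_nonneg_left (r_ne hF he0 he1 hx h).2 hw
      rw [if_neg h, sub_zero, ← mul_sub]
      refine h1.trans (le_of_eq ?_)
      rw [hK]
      split_ifs <;> first | omega | ring
  have hs := sum_le_sum hterm
  rw [sum_sub_distrib, sum_sub_distrib, sum_add_distrib, sum_ite_eq', sum_ite_eq', sum_ite_eq',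
    if_pos (mem_range.2 (show p - 1 < g.M + 1 by omega)),
    if_pos (mem_range.2 (show p < g.M + 1 by omega))] at hs
  have e1 : (if p + 1 ∈ range (g.M + 1) then K * g.w (p + 1) else 0) =
      K * if p + 1 ≤ g.M then g.w (p + 1) else 0 := by
    simp only [mem_range, Nat.lt_succ_iff]
    split_ifs <;> simp
  have e2 : (if 0 < p then K * g.w (p - 1) else 0) = K * if 0 < p then g.w (p - 1) else 0 := by
    split_ifs <;> simp
  rw [e1, e2] at hs
  rw [mul_add] at hfin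
  linarith

end Pool.Agent.P.MP_e6a929_co.AS
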