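import Pool.Agent.P.MP_e6a929_co.AS.Iface

/-! Step POI of the asymptotic Sperner project. -/

namespace Pool.Agent.P.MP_e6a929_co.AS

open Finset Function Filter

open scoped Classical

namespace POIx

theorem gen_add (s : Finset ℕ) (w : ℕ → ℝ) (r : ℕ → (ℕ → ℕ) → ℝ) (u v : (ℕ → ℕ) → ℝ)
    (x : ℕ → ℕ) : gen s w r (u + v) x = gen s w r u x + gen s w r v x := by
  simp only [gen, dav, Pi.add_apply, mul_add, sum_add_distrib, add_div]
  rw [← sum_add_distrib]
  exact sum_congr rfl fun j _ => by ring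

theorem gen_smul (s : Finset ℕ) (w : ℕ → ℝ) (r : ℕ → (ℕ → ℕ) → ℝ) (c : ℝ) (u : (ℕ → ℕ) → ℝ)
    (x : ℕ → ℕ) : gen s w r (c • u) x = c * gen s w r u x := by
  simp only [gen, dav, Pi.smul_apply, smul_eq_mul]
  rw [mul_sum]
  refine sum_congr rfl fun j _ => ?_
  rw [sum_congr rfl fun p _ => mul_left_comm (w p) c (u (dec (inc x j) p)), ← mul_sum]
  ring

theorem den_pos {s : Finset ℕ} {t : ℕ} {w : ℕ → ℝ} (hw : ∀ j ∈ s, 0 < w j) {z : ℕ → ℕ}
    (hz : z ∈ lay s (t + 1)) : 0 < ∑ p ∈ s.filter fun p => 0 < z p, w p := by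
  refine sum_pos (fun p hp => hw p (mem_filter.1 hp).1) ?_
  by_contra hne
  rw [not_nonempty_iff_eq_empty, filter_eq_empty_iff] at hne
  have h1 := (mem_lay.1 hz).1
  rw [sum_eq_zero fun p hp => by have := hne hp; omega] at h1
  omega

theorem sum_gen {s : Finset ℕ} {t : ℕ} {ρ : (ℕ → ℕ) → ℝ} {w : ℕ → ℝ}
    {r : ℕ → (ℕ → ℕ) → ℝ} (hw : ∀ j ∈ s, 0 < w j)
    (hρ : ∀ x ∈ lay s t, 0 < ρ x ∧ ∀ j ∈ s, 0 < r j x ∧ ρ (inc x j) = r j x * ρ x)
    (u : (ℕ → ℕ) → ℝ) : ∑ x ∈ lay s t, ρ x * gen s w r u x = 0 := by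
  have e : ∑ x ∈ lay s t, ρ x * gen s w r u x =
      ∑ x ∈ lay s t, ∑ j ∈ s, w j * ρ (inc x j) * (dav s w u (inc x j) - u x) := by
    refine sum_congr rfl fun x hx => ?_
    rw [gen, mul_sum]
    refine sum_congr rfl fun j hj => ?_
    rw [((hρ x hx).2 j hj).2]
    ring
  rw [e, sum_lay_inc s t fun x j => w j * ρ (inc x j) * (dav s w u (inc x j) - u x)]
  refine sum_eq_zero fun z hz => ?_
  have hd := den_pos hw hz
  have e2 : ∑ j ∈ s.filter fun j => 0 < z j,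
      w j * ρ (inc (dec z j) j) * (dav s w u (inc (dec z j) j) - u (dec z j)) =
      ρ z * ((∑ j ∈ s.filter fun j => 0 < z j, w j) * dav s w u z -
        ∑ j ∈ s.filter fun j => 0 < z j, w j * u (dec z j)) := by
    rw [sum_mul, ← sum_sub_distrib, mul_sum]
    refine sum_congr rfl fun j hj => ?_
    rw [inc_dec (mem_filter.1 hj).2]
    ring
  rw [e2, dav, mul_div_cancel₀ _ hd.ne', sub_self, mul_zero]

theorem step {s : Finset ℕ} {t : ℕ} {w : ℕ → ℝ} {r : ℕ → (ℕ → ℕ) → ℝ} (hw : ∀ j ∈ s, 0 < w j)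
    (hr : ∀ x ∈ lay s t, ∀ j ∈ s, 0 < r j x) {u : (ℕ → ℕ) → ℝ} {x : ℕ → ℕ} (hx : x ∈ lay s t)
    (h0 : gen s w r u x = 0) (hm : ∀ y ∈ lay s t, u y ≤ u x) {j p : ℕ} (hj : j ∈ s)
    (hp : 0 < inc x j p) : u (dec (inc x j) p) = u x := by
  have key : ∀ j ∈ s, dav s w u (inc x j) - u x =
      -(∑ p ∈ s.filter fun p => 0 < inc x j p, w p * (u x - u (dec (inc x j) p))) /
        ∑ p ∈ s.filter fun p => 0 < inc x j p, w p := by
    intro j hj
    have hd := den_pos hw (inc_mem_lay hx hj)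
    simp only [mul_sub, sum_sub_distrib]
    rw [dav, ← sum_mul]
    field_simp
    ring
  have nn : ∀ j ∈ s, ∀ p ∈ s.filter fun p => 0 < inc x j p,
      0 ≤ w p * (u x - u (dec (inc x j) p)) := fun j hj p hp =>
    mul_nonneg (hw p (mem_filter.1 hp).1).le
      (sub_nonneg.2 (hm _ (dec_mem_lay (inc_mem_lay hx hj) (mem_filter.1 hp).2)))
  have np : ∀ j ∈ s, w j * r j x * (dav s w u (inc x j) - u x) ≤ 0 := by
    intro j hj
    refine mul_nonpos_of_nonneg_of_nonpos (mul_pos (hw j hj) (hr x hx j hj)).le ?_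
    rw [key j hj]
    exact div_nonpos_of_nonpos_of_nonneg (neg_nonpos.2 (sum_nonneg (nn j hj)))
      (den_pos hw (inc_mem_lay hx hj)).le
  have z1 := (sum_eq_zero_iff_of_nonpos np).1 h0 j hj
  have z2 := (mul_eq_zero.1 z1).resolve_left (mul_pos (hw j hj) (hr x hx j hj)).ne'
  rw [key j hj, div_eq_zero_iff] at z2
  have z3 := neg_eq_zero.1 (z2.resolve_right (den_pos hw (inc_mem_lay hx hj)).ne')
  have hps : p ∈ s := (mem_lay.1 (inc_mem_lay hx hj)).2 p hp.ne'
  have z4 := (sum_eq_zero_iff_of_nonneg (nn j hj)).1 z3 p (mem_filter.2 ⟨hps, hp⟩)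
  have z5 := (mul_eq_zero.1 z4).resolve_left (hw p hps).ne'
  linarith

theorem maxp {s : Finset ℕ} {t : ℕ} {w : ℕ → ℝ} {r : ℕ → (ℕ → ℕ) → ℝ} (hw : ∀ j ∈ s, 0 < w j)
    (hr : ∀ x ∈ lay s t, ∀ j ∈ s, 0 < r j x) {u : (ℕ → ℕ) → ℝ}
    (h0 : ∀ x ∈ lay s t, gen s w r u x = 0) {j : ℕ} (hj : j ∈ s) :
    ∀ y ∈ lay s t, u y ≤ u (update 0 j t) := by
  have main : ∀ k, ∀ x ∈ lay s t, (∀ y ∈ lay s t, u y ≤ u x) → x j + k = t →
      u (update 0 j t) = u x := by
    intro k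
    induction k with
    | zero =>
      intro x hx _ hk
      obtain ⟨h1, h2⟩ := mem_lay.1 hx
      rw [← add_sum_erase s x hj] at h1
      have h3 : ∑ i ∈ s.erase j, x i = 0 := by omega
      refine congrArg u (funext fun i => ?_)
      by_cases e : i = j
      · rw [e, update_self]
        omega
      · rw [update_of_ne e, Pi.zero_apply]
        by_contra hne
        exact hne ((sum_eq_zero_iff.1 h3 i (mem_erase.2 ⟨e, h2 i (Ne.symm hne)⟩)).symm)
    | succ k ih =>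
      intro x hx hm hk
      obtain ⟨h1, h2⟩ := mem_lay.1 hx
      rw [← add_sum_erase s x hj] at h1
      have h3 : ∑ i ∈ s.erase j, x i ≠ 0 := by omega
      obtain ⟨p, hp, hp0⟩ := exists_ne_zero_of_sum_ne_zero h3
      have hpj := (mem_erase.1 hp).1
      have hpos : 0 < inc x j p := by
        rw [inc_of_ne x hpj]
        omega
      have e := step hw hr hx (h0 x hx) hm hj hpos
      rw [← e]
      refine ih _ (dec_mem_lay (inc_mem_lay hx hj) hpos) (fun y hy => e ▸ hm y hy) ?_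
      rw [dec_of_ne _ hpj.symm, inc_self]
      omega
  obtain ⟨x, hx, hm⟩ := exists_max_image (lay s t) u (lay_nonempty ⟨j, hj⟩ t)
  intro y hy
  have := le_of_mem_lay hx j
  rw [main (t - x j) x hx hm (by omega)]
  exact hm y hy

/-- Extension by zero. -/
noncomputable def ext (L : Finset (ℕ → ℕ)) : (L → ℝ) →ₗ[ℝ] (ℕ → ℕ) → ℝ where
  toFun u := fun x => if h : x ∈ L then u ⟨x, h⟩ else 0
  map_add' u v := by
    funext x
    by_cases h : x ∈ L <;> simp [h]
  map_smul' c u := by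
    funext x
    by_cases h : x ∈ L <;> simp [h]

theorem ext_apply (L : Finset (ℕ → ℕ)) (u : L → ℝ) (x : L) : ext L u x = u x := by
  simp [ext]

/-- The operator. -/
noncomputable def op (s : Finset ℕ) (t : ℕ) (ρ : (ℕ → ℕ) → ℝ) (w : ℕ → ℝ)
    (r : ℕ → (ℕ → ℕ) → ℝ) : ((ℕ → ℕ) → ℝ) →ₗ[ℝ] lay s t → ℝ where
  toFun u := fun x => (∑ x ∈ lay s t, ρ x * u x) / (∑ x ∈ lay s t, ρ x) - gen s w r u x
  map_add' u v := by
    funext x
    simp only [gen_add, Pi.add_apply, mul_add, sum_add_distrib, add_div]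
    ring
  map_smul' c u := by
    funext x
    simp only [gen_smul, Pi.smul_apply, smul_eq_mul, RingHom.id_apply]
    rw [sum_congr rfl fun y _ => mul_left_comm (ρ y) c (u y), ← mul_sum]
    ring

end POIx

open POIx in
theorem p_POI : S_POI := by
  intro s t ρ w r f hs hw hρ
  have hr : ∀ x ∈ lay s t, ∀ j ∈ s, 0 < r j x := fun x hx j hj => ((hρ x hx).2 j hj).1
  have hZ : 0 < ∑ x ∈ lay s t, ρ x := sum_pos (fun x hx => (hρ x hx).1) (lay_nonempty hs t)
  have mean : ∀ (u g : (ℕ → ℕ) → ℝ) (c : ℝ), (∀ x ∈ lay s t, c - gen s w r u x = g x) →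
      c = (∑ x ∈ lay s t, ρ x * g x) / ∑ x ∈ lay s t, ρ x := by
    intro u g c h
    have e : ∑ x ∈ lay s t, ρ x * g x =
        ∑ x ∈ lay s t, (ρ x * c - ρ x * gen s w r u x) :=
      sum_congr rfl fun x hx => by rw [← h x hx, mul_sub]
    rw [eq_div_iff hZ.ne', e, sum_sub_distrib, sum_gen hw hρ u, ← sum_mul]
    ring
  have inj : Injective ((op s t ρ w r).comp (ext (lay s t))) := by
    rw [injective_iff_map_eq_zero]
    intro v hv
    obtain ⟨j, hj⟩ := hs
    set u := ext (lay s t) v with hu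
    set c := (∑ x ∈ lay s t, ρ x * u x) / ∑ x ∈ lay s t, ρ x with hc
    have h1 : ∀ x ∈ lay s t, c - gen s w r u x = 0 := fun x hx => congrFun hv ⟨x, hx⟩
    have h2 : c = 0 := by simpa using mean u (fun _ => 0) c h1
    have h3 : ∀ x ∈ lay s t, gen s w r u x = 0 := fun x hx => by
      have := h1 x hx
      linarith
    have h4 := maxp hw hr h3 hj
    have h5 := maxp (u := (-1 : ℝ) • u) hw hr (fun x hx => by rw [gen_smul, h3 x hx, mul_zero]) hj
    have h6 : ∀ x ∈ lay s t, u x = u (update 0 j t) := fun x hx => by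
      have a := h4 x hx
      have b := h5 x hx
      simp only [Pi.smul_apply, smul_eq_mul] at b
      linarith
    have h7 : u (update 0 j t) = 0 := by
      have e : ∑ x ∈ lay s t, ρ x * u x = ∑ x ∈ lay s t, ρ x * u (update 0 j t) :=
        sum_congr rfl fun x hx => by rw [h6 x hx]
      rw [h2, e, ← sum_mul, mul_div_cancel_left₀ _ hZ.ne'] at hc
      exact hc.symm
    funext x
    rw [← ext_apply (lay s t) v x, ← hu, h6 x x.2, h7, Pi.zero_apply]
  obtain ⟨v, hv⟩ := LinearMap.injective_iff_surjective.1 inj fun x => f x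
  refine ⟨ext (lay s t) v, fun x hx => ?_⟩
  have h1 : ∀ x ∈ lay s t, (∑ x ∈ lay s t, ρ x * ext (lay s t) v x) / (∑ x ∈ lay s t, ρ x) -
      gen s w r (ext (lay s t) v) x = f x := fun x hx => congrFun hv ⟨x, hx⟩
  rw [← mean _ f _ h1, ← h1 x hx]
  ring

end Pool.Agent.P.MP_e6a929_co.AS
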