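import Pool.Agent.P.MP_e6a929_co.AS.Iface

/-! Step RATI of the asymptotic Sperner project. -/

namespace Pool.Agent.P.MP_e6a929_co.AS

open Finset Function Filter

open scoped Classical

namespace RATIx

theorem stg (hSTG : S_STG) (g : Geo) (x : ℕ → ℕ) (k : ℕ) (hμ : 0 < g.μ) (hk : k + 1 < g.M)
    (ε : ℤ) (hε : ε = 1 ∨ ε = -1) :
    ∑ h ∈ g.fib x, uu ε (g.q (k + 1)) 1 1 h =
      ((g.μ : ℝ) - ε * ((x (k + 1) : ℝ) - x k)) / (2 * g.μ) *
        (((g.μ : ℝ) + ε * ((x (k + 2) : ℝ) - x (k + 1))) / (2 * g.μ)) * (g.fib x).card := by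
  have e1 : g.q k + 2 * g.μ = g.q (k + 1) := (Geo.q_succ k).symm
  have e2 : g.q k + 2 * g.μ + 2 * g.μ = g.q (k + 1 + 1) := by rw [e1, Geo.q_succ (k + 1)]
  have a1 := Geo.q_le (g := g) (show k + 1 + 1 ≤ g.M from hk)
  have hμ' : (0 : ℝ) < g.μ := by exact_mod_cast hμ
  have := (hSTG (2 * g.n) (g.fib x) (g.q k) (2 * g.μ) 1 (2 * ((x (k + 1) : ℤ) - x k))
    (2 * ((x (k + 2) : ℤ) - x (k + 1))) ε
    (((g.μ : ℝ) - ε * ((x (k + 1) : ℝ) - x k)) / (2 * g.μ))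
    (((g.μ : ℝ) + ε * ((x (k + 2) : ℝ) - x (k + 1))) / (2 * g.μ)) hε (Geo.fib_subset x)
    (by omega) (by omega) (by omega)
    (by rw [e1]; exact Geo.fib_upC x (by omega)) (by rw [e1]; exact Geo.fib_dnC x (by omega))
    (by rw [e2, e1]; exact Geo.fib_upC x hk) (by rw [e2, e1]; exact Geo.fib_dnC x hk)
    (fun h hh => by
      obtain ⟨-, -, -, -, f⟩ := Geo.mem_fib.1 hh
      rw [e2, e1, f k (by omega), f (k + 1) (by omega), f (k + 1 + 1) (by omega)]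
      constructor <;> ring)
    (by push_cast; field_simp) (by push_cast; field_simp)).1
  rwa [e1] at this

end RATIx

theorem p_RATI (hSTG : S_STG) (hSWAP : S_SWAP) : S_RATI := by
  intro g x j hμ hx hj0 hj
  obtain ⟨k, rfl⟩ : ∃ k, j = k + 1 := ⟨j - 1, by omega⟩
  have e1 := Geo.q_succ (g := g) k
  have e2 := Geo.q_succ (g := g) (k + 1)
  have a1 := Geo.q_le (g := g) (show k + 1 + 1 ≤ g.M from hj)
  have s1 := hSWAP (2 * g.n) (g.fib x) (g.fib (inc x (k + 1))) (g.q (k + 1)) 1 1 1 (Or.inl rfl)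
    (Geo.fib_subset _) (Geo.fib_subset _) (by omega) (by omega)
    fun h hh i i' c1 c2 c3 c4 c5 c6 => Geo.rz_up_mem_fib hh hj c2 c3 (by omega) (by omega)
      (fun _ => by rw [Nat.add_sub_cancel]; omega) c5 c6
  have s2 := hSWAP (2 * g.n) (g.fib (inc x (k + 1))) (g.fib x) (g.q (k + 1)) 1 1 (-1) (Or.inr rfl)
    (Geo.fib_subset _) (Geo.fib_subset _) (by omega) (by omega)
    fun h hh i i' c1 c2 c3 c4 c5 c6 => Geo.rz_dn_mem_fib hh hj c2 c3 (by omega) (by omega)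
      (fun _ => by rw [Nat.add_sub_cancel]; omega) c5 c6
  rw [neg_neg] at s2
  have key := le_antisymm s1 s2
  rw [RATIx.stg hSTG g x k hμ hj 1 (Or.inl rfl),
    RATIx.stg hSTG g (inc x (k + 1)) k hμ hj (-1) (Or.inr rfl), inc_self,
    inc_of_ne x (show k ≠ k + 1 by omega), inc_of_ne x (show k + 2 ≠ k + 1 by omega)] at key
  have hμ' : (0 : ℝ) < g.μ := by exact_mod_cast hμ
  have x0 : (x k : ℝ) ≤ g.μ := by exact_mod_cast hx k
  have x2 : (x (k + 2) : ℝ) ≤ g.μ := by exact_mod_cast hx (k + 2)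
  have x1 : (0 : ℝ) ≤ x (k + 1) := Nat.cast_nonneg _
  have d1 : (0 : ℝ) < g.μ + ((x (k + 1) : ℝ) - x k) + 1 := by linarith
  have d2 : (0 : ℝ) < g.μ + ((x (k + 1) : ℝ) - x (k + 2)) + 1 := by linarith
  unfold Geo.r Geo.lf Geo.rt Geo.al
  rw [if_neg (by omega), if_neg (by omega), Nat.add_sub_cancel]
  push_cast at key
  rw [show k + 1 + 1 = k + 2 from rfl]
  field_simp at key ⊢
  linear_combination -key

end Pool.Agent.P.MP_e6a929_co.AS
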