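import Pool.Agent.P.MP_e6a929_co.AS.Iface

/-! Step RATZ of the asymptotic Sperner project. -/

namespace Pool.Agent.P.MP_e6a929_co.AS

open Finset Function Filter

open scoped Classical

namespace RATZx

open Geo

/-- The mean of the weight `uu` at the first site. -/
theorem sum_uu (hBLK : S_BLK) (g : Geo) (x : ℕ → ℕ) (hM : 0 < g.M) (hμ : 0 < g.μ) (ha : 0 < g.a)
    (ε : ℤ) (hε : ε = 1 ∨ ε = -1) :
    4 * g.μ * ∑ h ∈ g.fib x, uu ε g.a 1 1 h = (2 * g.μ + ε * (2 * ((x 1 : ℝ) - x 0))) *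
      (sec {h | h (g.a - 1) = g.β + 2 * (x 0 : ℤ) + ε} (g.fib x)).card := by
  have q0 := q_zero (g := g)
  have q1 : g.q (0 + 1) = g.a + 2 * g.μ := by rw [q_succ, q0]
  have qle := q_le (g := g) (show 0 + 1 ≤ g.M from hM)
  have hU := fib_upC x hM
  have hD := fib_dnC x hM
  rw [q0, q1] at hU hD
  set θ : Fn → ℝ := fun h => (1 - ε * ((h g.a : ℝ) - h (g.a - 1))) / 2 with hθ
  have h0 := (hBLK (2 * g.n) (g.fib x) g.a (2 * g.μ) 1 (fib_subset x) (by omega) (by omega)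
    hU).2 hD θ
  have hz : ∑ h ∈ g.fib x, ∑ p ∈ Ioo g.a (g.a + 2 * g.μ),
      (if val h p then tent g.a (2 * g.μ) 1 p * (θ (up h p) - θ h) else 0) = 0 := by
    refine sum_eq_zero fun h _ => sum_eq_zero fun p hp => ?_
    have := (mem_Ioo.1 hp).1
    simp only [hθ]
    rw [up_of_ne h (show g.a ≠ p by omega), up_of_ne h (show g.a - 1 ≠ p by omega)]
    simp
  rw [hz] at h0
  have hc : ((sec {h | h (g.a - 1) = g.β + 2 * (x 0 : ℤ) + ε} (g.fib x)).card : ℝ) =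
      ∑ h ∈ g.fib x, θ h := by
    rw [sec, card_filter]
    push_cast
    refine sum_congr rfl fun h hh => ?_
    obtain ⟨hW, -, -, -, f4⟩ := mem_fib.1 hh
    have e0 := f4 0 hM.le
    rw [q0] at e0
    have st := W_step hW (show g.a - 1 < 2 * g.n by omega)
    rw [show g.a - 1 + 1 = g.a by omega] at st
    simp only [hθ, Set.mem_ofPred_eq]
    split_ifs with c
    · have : h g.a - h (g.a - 1) = -ε := by omega
      have e : (h g.a : ℝ) - h (g.a - 1) = -ε := by exact_mod_cast this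
      rw [e]
      rcases hε with rfl | rfl <;> norm_num
    · have : h g.a - h (g.a - 1) = ε := by omega
      have e : (h g.a : ℝ) - h (g.a - 1) = ε := by exact_mod_cast this
      rw [e]
      rcases hε with rfl | rfl <;> norm_num
  rw [hc, mul_sum, mul_sum, ← sub_eq_zero, ← sum_sub_distrib, ← mul_zero (2 * (ε : ℝ)), ← h0,
    mul_sum]
  refine sum_congr rfl fun h hh => ?_
  obtain ⟨-, -, -, -, f4⟩ := mem_fib.1 hh
  have e0 := f4 0 hM.le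
  have e1 := f4 (0 + 1) hM
  rw [q0] at e0
  rw [q1, zero_add] at e1
  have e : (h (g.a + 2 * g.μ) : ℝ) - h g.a = 2 * ((x 1 : ℝ) - x 0) := by
    rw [e0, e1]
    push_cast
    ring
  simp only [uu, gt, hθ]
  rw [e]
  push_cast
  ring

/-- Gluing: the proportion of walks with a given height before the first site. -/
theorem glue (hBAL : S_BAL) (hGL : S_GL) (g : Geo) (x : ℕ → ℕ) (ha : 0 < g.a) (τ : ℤ)
    (hτ : g.β + 2 * (x 0 : ℤ) = τ + 1 ∨ g.β + 2 * (x 0 : ℤ) = τ - 1) :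
    (sec {h | h (g.a - 1) = τ} (g.fib x)).card * (bal g.a (g.β + 2 * (x 0 : ℤ))).card =
      (g.fib x).card * (bal (g.a - 1) τ).card := by
  have q0 := q_zero (g := g)
  have qM := q_le (g := g) le_rfl
  have h3 := hBAL.2.2 (g.a - 1) (g.β + 2 * (x 0 : ℤ)) τ (by positivity) hτ
  rw [show g.a - 1 + 1 = g.a by omega] at h3
  have key := hGL g.a (2 * g.n) (g.β + 2 * (x 0 : ℤ))
    {h | (∀ i ≤ g.a, 0 ≤ h i) ∧ h g.a = g.β + 2 * (x 0 : ℤ) ∧ h (g.a - 1) = τ}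
    {h | (∀ i ≤ g.a, 0 ≤ h i) ∧ h g.a = g.β + 2 * (x 0 : ℤ)}
    {h | h (2 * g.n) = 0 ∧ (∀ i, g.q g.M ≤ i → 0 ≤ h i) ∧
      ∀ j ≤ g.M, h (g.q j) = g.β + 2 * (x j : ℤ)} (by omega)
    (fun h h' e => ⟨fun ⟨c1, c2, c3⟩ => ⟨fun i hi => e i hi ▸ c1 i hi, e _ le_rfl ▸ c2,
      e _ (Nat.sub_le _ _) ▸ c3⟩, fun ⟨c1, c2⟩ => ⟨fun i hi => e i hi ▸ c1 i hi, e _ le_rfl ▸ c2⟩⟩)
    (fun h h' e ⟨c1, c2, c3⟩ => ⟨e (2 * g.n) (by omega) ▸ c1, fun i hi => e i (by omega) ▸ c2 i hi,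
      fun j hj => e _ (q_le hj).1 ▸ c3 j hj⟩)
    (fun h c => c.2.1) (fun h c => c.2)
  have nn : ∀ h ∈ W g.a, (∀ i ≤ g.a, 0 ≤ h i) ↔ ∀ i, 0 ≤ h i := fun h hh =>
    ⟨fun c i => by
      rcases le_or_gt i g.a with hi | hi
      · exact c i hi
      · rw [W_after hh hi], fun c i _ => c i⟩
  rw [← h3]
  convert key using 3
  · ext h
    simp only [mem_sec, mem_fib, Set.mem_inter_iff, Set.mem_ofPred_eq]
    exact ⟨fun ⟨⟨c0, c1, c2, c3, c4⟩, c5⟩ => ⟨c0, ⟨c2, q0 ▸ c4 0 (Nat.zero_le _), c5⟩, c1, c3, c4⟩,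
      fun ⟨c0, ⟨c2, _, c5⟩, c1, c3, c4⟩ => ⟨⟨c0, c1, c2, c3, c4⟩, c5⟩⟩
  · ext h
    simp only [mem_sec, mem_bal, Set.mem_ofPred_eq]
    exact ⟨fun ⟨c0, c1, c2⟩ => ⟨c0, (nn h c0).2 c1, c2⟩, fun ⟨c0, c1, c2⟩ => ⟨c0, (nn h c0).1 c1, c2⟩⟩
  · ext h
    simp only [mem_sec, mem_fib, Set.mem_inter_iff, Set.mem_ofPred_eq]
    exact ⟨fun ⟨c0, c1, c2, c3, c4⟩ => ⟨c0, ⟨c2, q0 ▸ c4 0 (Nat.zero_le _)⟩, c1, c3, c4⟩,
      fun ⟨c0, ⟨c2, _⟩, c1, c3, c4⟩ => ⟨c0, c1, c2, c3, c4⟩⟩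
  · ext h
    simp only [mem_sec, mem_bal, Set.mem_ofPred_eq]
    exact ⟨fun ⟨⟨c0, c1, c2⟩, c3⟩ => ⟨c0, (nn h c0).2 c1, c2, c3⟩,
      fun ⟨c0, c1, c2, c3⟩ => ⟨⟨c0, (nn h c0).1 c1, c2⟩, c3⟩⟩

end RATZx

open Geo RATZx in
theorem p_RATZ (hBLK : S_BLK) (hSWAP : S_SWAP) (hBAL : S_BAL) (hGL : S_GL) : S_RATZ := by
  intro g x hM hμ hpar hx ha
  have q0 := q_zero (g := g)
  have q1 : g.q (0 + 1) = g.a + 2 * g.μ := by rw [q_succ, q0]
  have qle := q_le (g := g) (show 0 + 1 ≤ g.M from hM)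
  have a0 : 0 < g.a := by omega
  have s1 := hSWAP (2 * g.n) (g.fib x) (g.fib (inc x 0)) g.a 1 1 1 (Or.inl rfl) (fib_subset _)
    (fib_subset _) a0 (by omega) fun h hh i i' c1 c2 c3 c4 c5 c6 =>
      rz_up_mem_fib hh hM (by omega) (by omega) (by omega) (fun _ => by omega)
        (fun c => absurd c (lt_irrefl _)) c5 c6
  have s2 := hSWAP (2 * g.n) (g.fib (inc x 0)) (g.fib x) g.a 1 1 (-1) (Or.inr rfl) (fib_subset _)
    (fib_subset _) a0 (by omega) fun h hh i i' c1 c2 c3 c4 c5 c6 =>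
      rz_dn_mem_fib hh hM (by omega) (by omega) (by omega) (fun _ => by omega)
        (fun c => absurd c (lt_irrefl _)) c5 c6
  rw [neg_neg] at s2
  have u1 := sum_uu hBLK g x hM hμ a0 1 (Or.inl rfl)
  have u2 := sum_uu hBLK g (inc x 0) hM hμ a0 (-1) (Or.inr rfl)
  have g1 := glue hBAL hGL g x a0 (g.β + 2 * (x 0 : ℤ) + 1) (Or.inr (by ring))
  have g2 := glue hBAL hGL g (inc x 0) a0 (g.β + 2 * (x 0 : ℤ) + 1)
    (Or.inl (by rw [inc_self]; push_cast; ring))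
  rw [le_antisymm s1 s2, u2] at u1
  rw [inc_self, inc_of_ne x one_ne_zero, show (g.β : ℤ) + 2 * ((x 0 + 1 : ℕ) : ℤ) + -1 =
    g.β + 2 * (x 0 : ℤ) + 1 by push_cast; ring] at u1
  rw [inc_self] at g2
  obtain ⟨σ, hσ⟩ : ∃ σ : ℕ, σ = g.β + 2 * x 0 := ⟨_, rfl⟩
  obtain ⟨k, hk⟩ : ∃ k : ℕ, g.a = σ + 2 * (k + 1) := ⟨(g.a - σ) / 2 - 1, by omega⟩
  have b0 := hBAL.1 σ (k + 1)
  have b2 := hBAL.1 (σ + 2) k
  have b1 := hBAL.1 (σ + 1) k
  rw [← hk, show ((σ : ℕ) : ℤ) = g.β + 2 * (x 0 : ℤ) by omega] at b0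
  rw [show σ + 2 + 2 * k = g.a by omega,
    show ((σ + 2 : ℕ) : ℤ) = g.β + 2 * ((x 0 + 1 : ℕ) : ℤ) by omega] at b2
  rw [show σ + 1 + 2 * k = g.a - 1 by omega,
    show ((σ + 1 : ℕ) : ℤ) = g.β + 2 * (x 0 : ℤ) + 1 by omega] at b1
  have p1 : 0 < (bal (g.a - 1) (g.β + 2 * (x 0 : ℤ) + 1)).card := by
    have := Nat.choose_pos (show k ≤ g.a - 1 + 1 by omega)
    refine Nat.pos_of_ne_zero fun e => ?_
    rw [e, zero_mul] at b1
    exact absurd b1 (by positivity : 0 < (σ + 1 + 1) * (g.a - 1 + 1).choose k).ne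
  have ch := Nat.choose_succ_right_eq (g.a + 1) k
  rw [show g.a + 1 - k = σ + k + 3 by omega] at ch
  have p2 := Nat.choose_pos (show k + 1 ≤ g.a + 1 by omega)
  have hr : g.r 0 x = 2 * ((k : ℝ) + 1) * (σ + 3) / (2 * ((σ : ℝ) + k + 3) * (σ + 1)) *
      (((g.μ : ℝ) - (x 0 - x 1)) / (g.μ + (x 0 - x 1) + 1)) := by
    have e1 : (g.β : ℝ) + 2 * x 0 = σ := by rw [hσ]; push_cast; ring
    have e2 : (g.a : ℝ) = σ + 2 * (k + 1) := by rw [hk]; push_cast; ring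
    rw [r, lf, rt, if_pos rfl, if_neg hM.ne, bb, al, e1, e2, zero_add]
    congr 2 <;> ring
  have x1 : (x 1 : ℝ) ≤ g.μ := by exact_mod_cast hx 1
  have x0 : (0 : ℝ) ≤ x 0 := Nat.cast_nonneg _
  have d1 : (0 : ℝ) < g.μ + (x 0 - x 1) + 1 := by linarith
  generalize (sec {h | h (g.a - 1) = g.β + 2 * (x 0 : ℤ) + 1} (g.fib x)).card = C at *
  generalize (sec {h | h (g.a - 1) = g.β + 2 * (x 0 : ℤ) + 1} (g.fib (inc x 0))).card = C' at *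
  generalize (bal (g.a - 1) (g.β + 2 * (x 0 : ℤ) + 1)).card = B1 at *
  generalize (bal g.a (g.β + 2 * (x 0 : ℤ))).card = B0 at *
  generalize (bal g.a (g.β + 2 * ((x 0 + 1 : ℕ) : ℤ))).card = B2 at *
  generalize (g.a + 1).choose (k + 1) = c1 at *
  generalize (g.a + 1).choose k = c0 at *
  have G1 : (C : ℝ) * B0 = (g.fib x).card * B1 := by exact_mod_cast g1
  have G2 : (C' : ℝ) * B2 = (g.fib (inc x 0)).card * B1 := by exact_mod_cast g2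
  have B0' : (B0 : ℝ) * (g.a + 1) = (σ + 1) * c1 := by exact_mod_cast b0
  have B2' : (B2 : ℝ) * (g.a + 1) = (σ + 2 + 1) * c0 := by exact_mod_cast b2
  have CH : (c1 : ℝ) * (k + 1) = c0 * (σ + k + 3) := by exact_mod_cast ch
  have P1 : (0 : ℝ) < B1 := by exact_mod_cast p1
  have R : (B2 : ℝ) * ((σ + k + 3) * (σ + 1)) = B0 * ((k + 1) * (σ + 3)) := by
    apply mul_right_cancel₀ (show (g.a : ℝ) + 1 ≠ 0 by positivity)
    linear_combination ((σ + k + 3) * (σ + 1)) * B2' - ((k + 1) * (σ + 3)) * B0' -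
      ((σ + 1) * (σ + 3)) * CH
  push_cast at u1
  rw [hr, div_mul_div_comm, div_mul_eq_mul_div, eq_div_iff (by positivity)]
  apply mul_right_cancel₀ P1.ne'
  linear_combination (-(2 * ((σ : ℝ) + k + 3) * (σ + 1) * (g.μ + (x 0 - x 1) + 1))) * G2 +
    (2 * ((k : ℝ) + 1) * (σ + 3) * (g.μ - (x 0 - x 1))) * G1 +
    (2 * C' * (g.μ + (x 0 - x 1) + 1)) * R + (B0 * ((k : ℝ) + 1) * (σ + 3)) * u1

end Pool.Agent.P.MP_e6a929_co.AS
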