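import Pool.Agent.P.MP_e6a929_co.AS.Iface

/-! Step REST of the asymptotic Sperner project. -/

namespace Pool.Agent.P.MP_e6a929_co.AS

open Finset Function Filter

open scoped Classical

namespace RESTx

theorem one {n H B D Λ F z : ℝ} (n1 : 100 ≤ n) (hH : 16 * H ≤ n) (B0 : 0 ≤ B) (Λ0 : 0 ≤ Λ)
    (F0 : 0 ≤ F) (he : (2 * n + 1) ^ 10 ≤ Real.exp z)
    (h1 : B ≤ 3 * (2 * n + 1) ^ 3 * F * Real.exp (-z)) (h2 : F ≤ (2 * n + 1) ^ 2 * D)
    (h3 : D ≤ (2 * n * H + 1) * Λ + B) : D ≤ 2 * (2 * n * H + 1) * Λ ∧ B * n ≤ Λ := by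
  set N := 2 * n + 1 with hN
  have N0 : 0 < N := by linarith
  have a1 : B * N ^ 5 ≤ 3 * D := by
    refine le_of_mul_le_mul_right ?_ (pow_pos N0 5)
    calc B * N ^ 5 * N ^ 5 = B * N ^ 10 := by ring
      _ ≤ 3 * N ^ 3 * F * Real.exp (-z) * Real.exp z := by gcongr
      _ = 3 * N ^ 3 * F := by rw [mul_assoc, ← Real.exp_add, neg_add_cancel, Real.exp_zero, mul_one]
      _ ≤ 3 * N ^ 3 * (N ^ 2 * D) := by gcongr
      _ = _ := by ring
  have a2 : 6 ≤ N ^ 5 := le_trans (by linarith) (le_self_pow₀ (by linarith) (by norm_num))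
  have a3 : D ≤ 2 * (2 * n * H + 1) * Λ := by nlinarith
  have a4 : 2 * n * H + 1 ≤ N ^ 2 := by nlinarith
  have a5 : B * N ^ 3 ≤ 6 * Λ := by
    refine le_of_mul_le_mul_right ?_ (pow_pos N0 2)
    nlinarith [mul_le_mul_of_nonneg_right a4 Λ0]
  have a6 : 6 * n ≤ N ^ 3 := le_trans (by nlinarith) (pow_le_pow_right₀ (by linarith) (show 2 ≤ 3 by norm_num))
  exact ⟨a3, by nlinarith [mul_le_mul_of_nonneg_left a6 B0]⟩

end RESTx

open RESTx in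
theorem p_REST (hNUM : S_NUM) (hBAD : S_BAD) (hROUGH : S_ROUGH) (hWCNT : S_WCNT) (hLAM : S_LAM) : S_REST := by
  intro g y ρ Λ hg he hΛ
  have N := hNUM g y ρ hg
  set H := 3 * y ^ 21 * ρ with hH
  have n1 : 100 ≤ g.n := le_trans (hg.hy.trans (Nat.le_mul_of_pos_right _ g.M.succ_pos)) N.Mn
  have n1' : (100 : ℝ) ≤ g.n := by exact_mod_cast n1
  have b1 : 4 * (y : ℝ) ^ 2 * g.n ≤ (H : ℝ) ^ 2 := by exact_mod_cast N.big1
  have b2 : 16 * (H : ℝ) ≤ g.n := by exact_mod_cast N.big2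
  have Λ0 : 0 ≤ Λ := (Nat.cast_nonneg _).trans (hΛ 0)
  have z0 := sq_nonneg (y : ℝ)
  obtain ⟨l1, l2⟩ := hLAM g.n H _ Λ z0 b1 hΛ
  have l3 := hBAD (2 * g.n) _ H z0 (Nat.cast_nonneg _) (by push_cast; linarith)
  set B : ℝ := ((bad (2 * g.n) ((y : ℝ) ^ 2) H).card : ℝ) with hB
  have B0 : 0 ≤ B := Nat.cast_nonneg _
  obtain ⟨k1, k2⟩ := one (F := 4 ^ g.n) n1' b2 B0 Λ0 (by positivity) he
    (by rw [pow_mul] at l3; push_cast at l3; rwa [show (2 : ℝ) ^ 2 = 4 by norm_num] at l3)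
    (by exact_mod_cast l2) l1
  refine ⟨k2, fun A U hU hA h => ?_⟩
  set s := y ^ 17 * ρ with hs
  have s0 : (0 : ℝ) < s := by
    have := hg.hy
    exact_mod_cast Nat.mul_pos (pow_pos (by omega) _) N.rho0
  set K : ℝ := 40 * H * (8 * (g.β + 1) ^ 3 * (2 * (2 * g.n * H + 1))) with hK
  have k3 : ∀ j ∈ range (g.M + 1), ((A.filter (· ∈ low g.n (g.q j) g.β)).card : ℝ) * (s ^ 3 * g.n ^ 2) ≤
      K * Λ + 80 * g.n * B * s ^ 3 := fun j hj => by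
    have q := Geo.q_le (g := g) (Nat.lt_succ_iff.1 (mem_range.1 hj))
    have r : s ^ 2 ≤ g.a := N.rgh1
    have a := hROUGH g.n (g.q j) g.β _ H _ U (by omega) z0 (Nat.cast_nonneg _) b1 b2
      (hU.mono (filter_subset (· ∈ low g.n (g.q j) g.β) A)) (fun _ hx => (mem_filter.1 hx).2)
      fun x hx => (h x (mem_filter.1 hx).1).1
    have b : ((low g.n (g.q j) g.β).card : ℝ) * s ^ 3 ≤ 8 * (g.β + 1) ^ 3 * (Dy g.n).card := by
      exact_mod_cast hWCNT g.n (g.q j) g.β s (by omega) (by omega)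
    have c := b.trans (mul_le_mul_of_nonneg_left k1 (by positivity))
    have d := mul_le_mul_of_nonneg_left c (show (0 : ℝ) ≤ 40 * H by positivity)
    have e := mul_le_mul_of_nonneg_right a (pow_pos s0 3).le
    rw [hK]
    linarith
  have k4 : (A.card : ℝ) ≤ ∑ j ∈ range (g.M + 1), ((A.filter (· ∈ low g.n (g.q j) g.β)).card : ℝ) := by
    rw [← Nat.cast_sum, Nat.cast_le]
    refine (card_le_card fun x hx => ?_).trans card_biUnion_le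
    obtain ⟨j, hj, e⟩ := (h x hx).2
    exact mem_biUnion.2 ⟨j, mem_range.2 (by omega), mem_filter.2 ⟨hx, mem_low.2 ⟨hA hx, e⟩⟩⟩
  have k5 := (mul_le_mul_of_nonneg_right k4 (show (0 : ℝ) ≤ s ^ 3 * g.n ^ 2 by positivity)).trans
    ((sum_mul _ _ _).trans_le (sum_le_card_nsmul _ _ _ k3))
  rw [card_range, nsmul_eq_mul] at k5
  have m1 : (y : ℝ) * ((g.M + 1 : ℕ) * K) ≤ s ^ 3 * g.n ^ 2 := by rw [hK]; exact_mod_cast N.rgh2
  have m2 : (y : ℝ) * (g.M + 1 : ℕ) ≤ g.n := by exact_mod_cast N.Mn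
  have m3 : 80 * B ≤ Λ := by nlinarith
  refine le_of_mul_le_mul_right ?_ (show (0 : ℝ) < s ^ 3 * g.n ^ 2 by positivity)
  calc _ = y * (A.card * (s ^ 3 * g.n ^ 2 : ℝ)) := by ring
    _ ≤ y * ((g.M + 1 : ℕ) * (K * Λ + 80 * g.n * B * s ^ 3)) := by gcongr
    _ = y * ((g.M + 1 : ℕ) * K) * Λ + y * (g.M + 1 : ℕ) * (80 * B) * (g.n * s ^ 3) := by ring
    _ ≤ s ^ 3 * g.n ^ 2 * Λ + g.n * Λ * (g.n * s ^ 3) := by gcongr
    _ = _ := by ring

end Pool.Agent.P.MP_e6a929_co.AS
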