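import Pool.Agent.P.MP_e6a929_co.AS.Iface

/-! Step ROUGH of the asymptotic Sperner project. -/

namespace Pool.Agent.P.MP_e6a929_co.AS

open Finset Function Filter

open scoped Classical

namespace ROUGHx

theorem upC (n q b0 : ℕ) (b : ℤ) (h1 : b0 + n ≤ 2 * n) (h2 : q ≤ b0 ∨ b0 + n ≤ q) :
    UpC (low n q b) (Ioo b0 (b0 + n)) := by
  intro h hh p hp hv
  obtain ⟨hD, hq⟩ := mem_low.1 hh
  obtain ⟨hW, h0, hN⟩ := mem_Dy.1 hD
  obtain ⟨p1, p2⟩ := mem_Ioo.1 hp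
  refine mem_low.2 ⟨mem_Dy.2 ⟨up_mem_W hW (by omega) (by omega) hv, fun i => ?_, ?_⟩, ?_⟩
  · exact (h0 i).trans ((lt_up h p).le i)
  · rw [up_of_ne h (by omega), hN]
  · rw [up_of_ne h (by omega)]
    exact hq

theorem gt_le {n b0 k : ℕ} {h : Fn} (hh : h ∈ Dy n) (hb : b0 = 0 ∨ b0 = n) (hk : k ≤ n) :
    gt b0 n k h ≤ n * (h (b0 + k) : ℝ) / 2 := by
  obtain ⟨hW, h0, hN⟩ := mem_Dy.1 hh
  have hk' : (k : ℝ) ≤ n := by exact_mod_cast hk
  have hn : (0 : ℝ) ≤ h n := by exact_mod_cast h0 n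
  unfold gt
  rcases hb with rfl | rfl
  · rw [W_zero hW, zero_add n]
    have : 0 ≤ (k : ℝ) * h n := mul_nonneg k.cast_nonneg hn
    push_cast
    linarith
  · rw [← two_mul, hN]
    have : 0 ≤ ((b0 : ℝ) - k) * h b0 := mul_nonneg (by linarith) hn
    push_cast
    linarith

theorem good_le {n j : ℕ} {z H : ℝ} {h : Fn} (hW : h ∈ W (2 * n)) (hz : 0 ≤ z) (hH : 0 ≤ H)
    (h4 : 4 * z * n ≤ H ^ 2) (hg : Good (2 * n) z H h) (hj : j ≤ 2 * n) : (h j : ℝ) ≤ H := by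
  have h1 := hg.1 0 j j.zero_le hj
  rw [W_zero hW] at h1
  have hj' : (j : ℝ) ≤ 2 * n := by exact_mod_cast hj
  have h2 : (h j : ℝ) ^ 2 ≤ H ^ 2 := by
    have := mul_le_mul_of_nonneg_left hj' hz
    push_cast at h1
    linarith
  exact (abs_le_of_sq_le_sq' h2 hH).2

theorem all_le {n j : ℕ} {h : Fn} (hW : h ∈ W (2 * n)) (hj : j ≤ 2 * n) : (h j : ℝ) ≤ 2 * n := by
  have h1 := (W_lip hW j.zero_le hj).1
  rw [W_zero hW] at h1
  have h2 : h j ≤ 2 * (n : ℤ) := by omega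
  exact_mod_cast h2

theorem half {n : ℕ} (hn : 3 ≤ n) :
    (n : ℝ) ^ 2 / 5 ≤ ((n / 2 : ℕ) : ℝ) * ((n : ℝ) - (n / 2 : ℕ)) := by
  have hn' : (3 : ℝ) ≤ n := by exact_mod_cast hn
  rcases Nat.even_or_odd' n with ⟨m, e | e⟩
  · have e1 : n / 2 = m := by omega
    have e2 : (n : ℝ) = 2 * m := by exact_mod_cast e
    rw [e1, e2]
    nlinarith
  · have e1 : n / 2 = m := by omega
    have e2 : (n : ℝ) = 2 * m + 1 := by exact_mod_cast e
    rw [e1]
    rw [e2] at hn' ⊢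
    nlinarith

end ROUGHx

open ROUGHx in
theorem p_ROUGH (hBLK : S_BLK) : S_ROUGH := by
  intro n q b z H A U hn hz hH h4 h16 hC hA hG
  obtain ⟨b0, hb, hq⟩ : ∃ b0 : ℕ, (b0 = 0 ∨ b0 = n) ∧ (q ≤ b0 ∨ b0 + n ≤ q) := by
    rcases le_total q n with e | e
    · exact ⟨n, Or.inr rfl, Or.inl e⟩
    · exact ⟨0, Or.inl rfl, Or.inr (by omega)⟩
  have hbn : b0 + n ≤ 2 * n := by omega
  have hk : n / 2 ≤ n := Nat.div_le_self n 2
  have hX : low n q b ⊆ W (2 * n) := fun h hh => (mem_Dy.1 (mem_low.1 hh).1).1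
  have key := (hBLK (2 * n) (low n q b) b0 n (n / 2) hX hbn hk (upC n q b0 b hbn hq)).1 A U
    (fun _ => 1) hC hA (fun _ _ => zero_le_one) (fun _ _ _ _ _ => rfl)
  simp only [one_mul] at key
  have hn' : (3 : ℝ) ≤ n := by exact_mod_cast hn
  have low1 : (A.card : ℝ) * ((n : ℝ) ^ 3 / 80) ≤
      ∑ h ∈ A, Val (tent b0 n (n / 2)) (Ioo b0 (b0 + n)) h := by
    rw [← nsmul_eq_mul]
    refine card_nsmul_le_sum _ _ _ fun h hh => le_trans ?_ ((hG h hh).2 b0 n (n / 2) hbn hk)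
    calc (n : ℝ) ^ 3 / 80 = (n : ℝ) ^ 2 / 5 * ((n : ℝ) / 16) := by ring
      _ ≤ _ := mul_le_mul (half hn) (by linarith) (by positivity)
        (le_trans (by positivity) (half hn))
  have up1 : ∑ h ∈ sec U (low n q b), gt b0 n (n / 2) h ≤
      ∑ h ∈ low n q b, ((n : ℝ) * H / 2 +
        if h ∈ bad (2 * n) z H then (n : ℝ) ^ 2 else 0) := by
    refine le_trans (sum_le_sum fun h hh => ?_) (sum_le_sum_of_subset_of_nonneg
      (sec_subset U _) fun h _ _ => ?_)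
    · have hl := sec_subset U _ hh
      have h1 := gt_le (mem_low.1 hl).1 hb hk
      have hj : b0 + n / 2 ≤ 2 * n := by omega
      split_ifs with c
      · have h2 := mul_le_mul_of_nonneg_left (all_le (hX hl) hj) n.cast_nonneg
        have h3 : 0 ≤ (n : ℝ) * H / 2 := by positivity
        nlinarith
      · have hg : Good (2 * n) z H h := by
          by_contra hg
          exact c (mem_bad.2 ⟨hX hl, hg⟩)
        have h2 := mul_le_mul_of_nonneg_left (good_le (hX hl) hz hH h4 hg hj) n.cast_nonneg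
        linarith
    · split_ifs <;> positivity
  have up2 : ∑ h ∈ low n q b, (if h ∈ bad (2 * n) z H then (n : ℝ) ^ 2 else 0) ≤
      (bad (2 * n) z H).card * (n : ℝ) ^ 2 := by
    rw [← sum_filter, sum_const, nsmul_eq_mul]
    refine mul_le_mul_of_nonneg_right ?_ (by positivity)
    exact_mod_cast card_le_card fun h hh => (mem_filter.1 hh).2
  rw [sum_add_distrib, sum_const, nsmul_eq_mul] at up1
  have fin : (n : ℝ) * ((A.card : ℝ) * (n : ℝ) ^ 2) ≤
      n * (40 * H * (low n q b).card + 80 * n * (bad (2 * n) z H).card) := by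
    nlinarith
  exact le_of_mul_le_mul_left fin (by linarith)

end Pool.Agent.P.MP_e6a929_co.AS
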