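import Pool.Agent.P.MP_e6a929_co.AS.Iface

/-! Step STG of the asymptotic Sperner project. -/

namespace Pool.Agent.P.MP_e6a929_co.AS

open Finset Function Filter

open scoped Classical

namespace STGx

/-- The second factor of `uu`. -/
noncomputable def u2 (ε : ℤ) (q L : ℕ) (h : Fn) : ℝ :=
  ((L : ℝ) + ε * ((h (q + L) : ℝ) - h q)) / 2

theorem key {b m L : ℕ} {d e ε : ℤ} {P₁ P₂ : ℝ} (hε : ε = 1 ∨ ε = -1) (hL : L ≤ m) (hm : 0 < m)
    {h : Fn} (h1 : h (b + m) - h b = d) (h2 : h (b + m + m) - h (b + m) = e)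
    (hP₁ : P₁ = L * (m - ε * d) / (2 * m)) (hP₂ : P₂ = L * (m + ε * e) / (2 * m)) :
    m * ε * (uu ε (b + m) L L h - P₁ * P₂) =
      gt b m (m - L) h * u2 ε (b + m) L h + P₁ * gt (b + m) m L h := by
  have hm' : (m : ℝ) ≠ 0 := by positivity
  have e1 : b + (m - L) = b + m - L := by omega
  have h1' : (h b : ℝ) = h (b + m) - d := by
    rw [← h1]; push_cast; ring
  have h2' : (h (b + m + m) : ℝ) = h (b + m) + e := by
    rw [← h2]; push_cast; ring
  unfold uu gt u2
  rw [e1, h1', h2', Nat.cast_sub hL, hP₁, hP₂]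
  rcases hε with rfl | rfl
  · push_cast
    field_simp
    ring
  · push_cast
    field_simp
    ring

theorem u2_up {ε : ℤ} {q L p : ℕ} (h : Fn) (hp : p < q) : u2 ε q L (up h p) = u2 ε q L h := by
  unfold u2
  rw [up_of_ne h (show q + L ≠ p by omega), up_of_ne h (show q ≠ p by omega)]

theorem u2_nonneg {N q L : ℕ} {ε : ℤ} (hε : ε = 1 ∨ ε = -1) {h : Fn} (hh : h ∈ W N)
    (hq : q + L ≤ N) : 0 ≤ u2 ε q L h := by
  obtain ⟨a1, a2⟩ := W_lip hh (Nat.le_add_right q L) hq
  have a1' : (h (q + L) : ℝ) - h q ≤ L := by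
    have : h (q + L) - h q ≤ (L : ℤ) := by push_cast at a1; omega
    exact_mod_cast this
  have a2' : (h q : ℝ) - h (q + L) ≤ L := by
    have : h q - h (q + L) ≤ (L : ℤ) := by push_cast at a2; omega
    exact_mod_cast this
  unfold u2
  rcases hε with rfl | rfl
  · push_cast
    linarith
  · push_cast
    linarith

end STGx

open STGx in
theorem p_STG (hBLK : S_BLK) : S_STG := by
  intro N X b m L d e ε P₁ P₂ hε hX hN hL hm hu1 hd1 hu2 hd2 hde hP₁ hP₂
  obtain ⟨l1, l2⟩ := hBLK N X b m (m - L) hX (by omega) (Nat.sub_le _ _) hu1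
  obtain ⟨r1, r2⟩ := hBLK N X (b + m) m L hX hN hL hu2
  have hk : ∀ Y : Finset Fn, Y ⊆ X →
      m * ε * (∑ h ∈ Y, uu ε (b + m) L L h - P₁ * P₂ * Y.card) =
        ∑ h ∈ Y, gt b m (m - L) h * u2 ε (b + m) L h + P₁ * ∑ h ∈ Y, gt (b + m) m L h := by
    intro Y hY
    rw [mul_sum, ← sum_add_distrib, ← sum_congr rfl fun h hh =>
      key hε hL hm (hde h (hY hh)).1 (hde h (hY hh)).2 hP₁ hP₂, ← mul_sum, sum_sub_distrib,
      sum_const, nsmul_eq_mul]
    ring
  have hinv : ∀ h : Fn, ∀ p ∈ Ioo b (b + m), u2 ε (b + m) L (up h p) = u2 ε (b + m) L h :=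
    fun h p hp => u2_up h (mem_Ioo.1 hp).2
  refine ⟨?_, fun A U v c hC hA hv hc hg => ?_⟩
  · have a1 : ∑ h ∈ X, gt b m (m - L) h * u2 ε (b + m) L h = 0 := by
      rw [l2 hd1]
      refine sum_eq_zero fun h _ => sum_eq_zero fun p hp => ?_
      rw [hinv h p hp]
      simp
    have a2 : ∑ h ∈ X, gt (b + m) m L h = 0 := by
      have := r2 hd2 fun _ => 1
      simpa using this
    have a3 := hk X subset_rfl
    rw [a1, a2, mul_zero, add_zero] at a3
    have hm' : (m : ℝ) ≠ 0 := by positivity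
    have hε' : (ε : ℝ) ≠ 0 := by
      rcases hε with rfl | rfl <;> simp
    have a4 := (mul_eq_zero.1 a3).resolve_left (mul_ne_zero hm' hε')
    linarith
  · rw [hk _ (sec_subset U X)]
    rcases X.eq_empty_or_nonempty with rfl | ⟨h0, hh0⟩
    · obtain rfl : A = ∅ := subset_empty.1 hA
      simp [sec]
    have hP : 0 ≤ P₁ := by
      obtain ⟨a1, a2⟩ := W_lip (hX hh0) (Nat.le_add_right b m) (by omega)
      have a3 := (hde h0 hh0).1
      have a4 : ε * d ≤ (m : ℤ) := by
        push_cast at a1 a2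
        rcases hε with rfl | rfl <;> omega
      have a5 : (ε : ℝ) * d ≤ m := by exact_mod_cast a4
      rw [hP₁]
      have : (0 : ℝ) ≤ m - ε * d := by linarith
      positivity
    have b1 := l1 A U (u2 ε (b + m) L) hC hA
      (fun h hh => u2_nonneg hε (hX hh) (by omega)) fun h _ p hp _ => hinv h p hp
    have b2 := r1 A U (fun _ => 1) hC hA (fun _ _ => zero_le_one) fun _ _ _ _ _ => rfl
    simp only [one_mul] at b2
    have b3 : ∑ _h ∈ A, (L - c) / 2 * v ≤
        ∑ h ∈ A, u2 ε (b + m) L h * Val (tent b m (m - L)) (Ioo b (b + m)) h := by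
      refine sum_le_sum fun h hh => ?_
      obtain ⟨g1, -, g3⟩ := hg h hh
      have g4 : (L - c) / 2 ≤ u2 ε (b + m) L h := by
        obtain ⟨g5, g6⟩ := abs_le.1 g3
        unfold u2
        rcases hε with rfl | rfl
        · push_cast
          linarith
        · push_cast
          linarith
      exact mul_le_mul g4 g1 hv (u2_nonneg hε (hX (hA hh)) (by omega))
    have b4 : ∑ _h ∈ A, v ≤ ∑ h ∈ A, Val (tent (b + m) m L) (Ioo (b + m) (b + m + m)) h :=
      sum_le_sum fun h hh => (hg h hh).2.1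
    rw [sum_const, nsmul_eq_mul] at b3 b4
    have b5 := mul_le_mul_of_nonneg_left (b4.trans b2) hP
    have b6 : ∑ h ∈ sec U X, gt b m (m - L) h * u2 ε (b + m) L h =
        ∑ h ∈ sec U X, u2 ε (b + m) L h * gt b m (m - L) h :=
      sum_congr rfl fun h _ => mul_comm _ _
    rw [b6]
    nlinarith [b3.trans b1]

end Pool.Agent.P.MP_e6a929_co.AS
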