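import Pool.Agent.P.MP_e6a929_co.AS.Iface

/-! Step SWAP of the asymptotic Sperner project. -/

namespace Pool.Agent.P.MP_e6a929_co.AS

open Finset Function Filter

open scoped Classical

namespace SWAPx

theorem cnt {N : ℕ} {h : Fn} (hh : h ∈ W N) {ε : ℤ} (hε : ε = 1 ∨ ε = -1) (a L : ℕ)
    (hL : a + L ≤ N) :
    ((L : ℝ) + ε * ((h (a + L) : ℝ) - h a)) / 2 =
      ∑ i ∈ Ico a (a + L), if h (i + 1) = h i + ε then (1 : ℝ) else 0 := by
  induction L with
  | zero => simp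
  | succ L ih =>
    rw [← add_assoc, sum_Ico_succ_top (by omega), ← ih (by omega)]
    have hs := W_step hh (show a + L < N by omega)
    rcases hε with rfl | rfl
    · rcases hs with e | e
      · rw [if_pos e, e]; push_cast; ring
      · rw [if_neg (by omega), e]; push_cast; ring
    · rcases hs with e | e
      · rw [if_neg (by omega), e]; push_cast; ring
      · rw [if_pos (by omega), e]; push_cast; ring

theorem uu_eq {N : ℕ} {h : Fn} (hh : h ∈ W N) {ε : ℤ} (hε : ε = 1 ∨ ε = -1) {q L₁ L₂ : ℕ}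
    (h1 : L₁ ≤ q) (h2 : q + L₂ ≤ N) :
    uu ε q L₁ L₂ h = ∑ i ∈ Ico (q - L₁) q, ∑ i' ∈ Ico q (q + L₂),
      if h (i + 1) = h i - ε ∧ h (i' + 1) = h i' + ε then (1 : ℝ) else 0 := by
  have e1 := cnt hh (ε := -ε) (by omega) (q - L₁) L₁ (by omega)
  have e2 := cnt hh hε q L₂ h2
  rw [show q - L₁ + L₁ = q by omega] at e1
  have e3 : ((L₁ : ℝ) - ε * ((h q : ℝ) - h (q - L₁))) / 2 =
      ((L₁ : ℝ) + ((-ε : ℤ) : ℝ) * ((h q : ℝ) - h (q - L₁))) / 2 := by push_cast; ring
  rw [uu, e3, e1, e2, sum_mul_sum]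
  refine sum_congr rfl fun i _ => sum_congr rfl fun i' _ => ?_
  rw [← sub_eq_add_neg]
  by_cases a : h (i + 1) = h i - ε <;> by_cases b : h (i' + 1) = h i' + ε <;> simp [a, b]

end SWAPx

theorem p_SWAP : S_SWAP := by
  intro N X X' q L₁ L₂ ε hε hX hX' h1 h2 hz
  rw [sum_congr rfl fun h hh => SWAPx.uu_eq (hX hh) hε h1 h2,
    sum_congr rfl fun h hh => SWAPx.uu_eq (hX' hh) (ε := -ε) (by omega) h1 h2,
    sum_comm, sum_comm (s := X')]
  refine sum_le_sum fun i hi => ?_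
  rw [sum_comm, sum_comm (s := X')]
  refine sum_le_sum fun i' hi' => ?_
  rw [mem_Ico] at hi hi'
  rw [sum_boole, sum_boole, Nat.cast_le]
  refine card_le_card_of_injOn (fun h => rz h i i' (2 * ε)) ?_ ?_
  · intro h hh
    rw [coe_filter] at hh
    obtain ⟨hh, a, b⟩ := hh
    rw [coe_filter]
    refine ⟨hz h hh i i' (by omega) hi.2 hi'.1 hi'.2 a b, ?_, ?_⟩
    · show rz h i i' (2 * ε) (i + 1) = rz h i i' (2 * ε) i - -ε
      unfold rz
      rw [if_pos (by omega), if_neg (by omega)]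
      omega
    · show rz h i i' (2 * ε) (i' + 1) = rz h i i' (2 * ε) i' + -ε
      unfold rz
      rw [if_neg (by omega), if_pos (by omega)]
      omega
  · intro g _ g' _ e
    have e' : rz g i i' (2 * ε) = rz g' i i' (2 * ε) := e
    rw [← rz_rz g i i' (2 * ε), e', rz_rz]

end Pool.Agent.P.MP_e6a929_co.AS
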