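import Pool.Agent.P.MP_e6a929_co.AS.Iface

/-! Step TENT of the asymptotic Sperner project. -/

namespace Pool.Agent.P.MP_e6a929_co.AS

open Finset Function Filter

open scoped Classical

namespace TENTx

theorem sbp (ω f : ℕ → ℝ) (b n : ℕ) :
    ∑ i ∈ range n, ω (b + i + 1) * (2 * f (b + i + 1) - f (b + i) - f (b + i + 2)) =
      ∑ i ∈ range (n + 1), (ω (b + i + 1) - ω (b + i)) * (f (b + i + 1) - f (b + i)) +
        ω b * (f (b + 1) - f b) - ω (b + n + 1) * (f (b + n + 1) - f (b + n)) := by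
  induction n with
  | zero => simp only [range_zero, sum_empty, zero_add, range_one, sum_singleton, add_zero]; ring
  | succ n ih =>
    rw [sum_range_succ, ih, sum_range_succ _ (n + 1)]
    simp only [← add_assoc]
    ring

theorem sum_Ioo (F : ℕ → ℝ) (b n : ℕ) :
    ∑ p ∈ Ioo b (b + (n + 1)), F p = ∑ i ∈ range n, F (b + i + 1) := by
  have e : Ioo b (b + (n + 1)) = Ico (b + 1) (b + 1 + n) := by
    ext p; simp only [mem_Ioo, mem_Ico]; omega
  rw [e, sum_Ico_eq_sum_range, Nat.add_sub_cancel_left]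
  exact sum_congr rfl fun i _ => by rw [Nat.add_right_comm]

theorem tent_lo {b l k i : ℕ} (hk : k ≤ l) (hi : i ≤ k) :
    tent b l k (b + i) = (i : ℝ) * ((l : ℝ) - k) := by
  have h1 : (i : ℝ) ≤ k := by exact_mod_cast hi
  have h2 : (k : ℝ) ≤ l := by exact_mod_cast hk
  have h3 : (0 : ℝ) ≤ l := Nat.cast_nonneg l
  unfold tent
  push_cast
  rw [min_eq_left (by nlinarith)]
  ring

theorem tent_hi {b l k i : ℕ} (hi : k ≤ i) :
    tent b l k (b + i) = ((l : ℝ) - i) * k := by
  have h1 : (k : ℝ) ≤ i := by exact_mod_cast hi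
  have h3 : (0 : ℝ) ≤ l := Nat.cast_nonneg l
  unfold tent
  push_cast
  rw [min_eq_right (by nlinarith)]
  ring

theorem key {b l k : ℕ} (hk : k ≤ l) (f : ℕ → ℝ) :
    ∑ p ∈ Ioo b (b + l), tent b l k p * (2 * f p - f (p - 1) - f (p + 1)) =
      (l : ℝ) * (f (b + k) - f b) - k * (f (b + l) - f b) := by
  rcases l with _ | n
  · obtain rfl : k = 0 := by omega
    simp
  rw [sum_Ioo]
  simp only [Nat.add_sub_cancel]
  have h0 : tent b (n + 1) k b = 0 := by
    have := tent_lo (b := b) hk (Nat.zero_le k)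
    simpa using this
  have h1 : tent b (n + 1) k (b + n + 1) = 0 := by
    have := tent_hi (b := b) (l := n + 1) hk
    rw [add_assoc, this, sub_self, zero_mul]
  rw [sbp, h0, h1, zero_mul, zero_mul, add_zero, sub_zero]
  obtain ⟨m, hm⟩ := Nat.exists_eq_add_of_le hk
  rw [hm, sum_range_add]
  have a1 : ∑ i ∈ range k, (tent b (k + m) k (b + i + 1) - tent b (k + m) k (b + i)) *
      (f (b + i + 1) - f (b + i)) = (m : ℝ) * (f (b + k) - f b) := by
    have t := sum_range_sub (fun i => f (b + i)) k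
    simp only [add_zero] at t
    rw [← t, mul_sum]
    refine sum_congr rfl fun i hi => ?_
    have hi' := mem_range.1 hi
    rw [add_assoc, tent_lo (Nat.le_add_right k m) (show i + 1 ≤ k by omega),
      tent_lo (Nat.le_add_right k m) hi'.le]
    push_cast
    ring
  have a2 : ∑ i ∈ range m, (tent b (k + m) k (b + (k + i) + 1) - tent b (k + m) k (b + (k + i))) *
      (f (b + (k + i) + 1) - f (b + (k + i))) = -(k : ℝ) * (f (b + (k + m)) - f (b + k)) := by
    have t := sum_range_sub (fun i => f (b + (k + i))) m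
    simp only [add_zero] at t
    rw [← t, mul_sum]
    refine sum_congr rfl fun i _ => ?_
    rw [add_assoc b, tent_hi (show k ≤ k + i + 1 by omega), tent_hi (Nat.le_add_right k i),
      add_assoc k]
    push_cast
    ring
  rw [a1, a2]
  push_cast
  ring

end TENTx

open TENTx in
theorem p_TENT : S_TENT := by
  intro b l k hk
  have h2 : (k : ℝ) ≤ l := by exact_mod_cast hk
  have h3 : (0 : ℝ) ≤ k := Nat.cast_nonneg k
  refine ⟨fun h => ?_, ?_, fun p hp => ?_, tent_lo hk le_rfl⟩
  · unfold G gt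
    rw [← sum_div, key hk fun p => (h p : ℝ)]
  · have t := key (b := b) hk fun p => -((p : ℝ) ^ 2)
    have e : ∑ p ∈ Ioo b (b + l), tent b l k p *
        (2 * -((p : ℝ) ^ 2) - -(((p - 1 : ℕ) : ℝ) ^ 2) - -(((p + 1 : ℕ) : ℝ) ^ 2)) =
        (∑ p ∈ Ioo b (b + l), tent b l k p) * 2 := by
      rw [sum_mul]
      refine sum_congr rfl fun p hp => ?_
      have : 1 ≤ p := by have := (mem_Ioo.1 hp).1; omega
      push_cast [Nat.cast_sub this]
      ring
    rw [e] at t
    push_cast at t
    linarith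
  · obtain ⟨hp1, hp2⟩ := mem_Ioo.1 hp
    obtain ⟨i, rfl⟩ := Nat.exists_eq_add_of_le hp1.le
    have hi : (i : ℝ) ≤ l := by exact_mod_cast (show i ≤ l by omega)
    have hi0 : (0 : ℝ) ≤ i := Nat.cast_nonneg i
    rcases le_total i k with h | h
    · have h' : (i : ℝ) ≤ k := by exact_mod_cast h
      rw [tent_lo hk h]
      constructor <;> nlinarith
    · have h' : (k : ℝ) ≤ i := by exact_mod_cast h
      rw [tent_hi h]
      constructor <;> nlinarith

end Pool.Agent.P.MP_e6a929_co.AS
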