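import Pool.Agent.P.MP_e6a929_co.AS.Iface

/-! Step WIN of the asymptotic Sperner project. -/

namespace Pool.Agent.P.MP_e6a929_co.AS

open Finset Function Filter

open scoped Classical

namespace WINx

lemma dev {N : ℕ} {z H : ℝ} {h : Fn} (hg : Good N z H h) (hz : 0 ≤ z) {i j l c : ℕ} (hij : i ≤ j)
    (hj : j ≤ N) (hl : j ≤ i + l) (hc : 2 * z * l ≤ (c : ℝ) ^ 2) :
    -(c : ℤ) ≤ h j - h i ∧ h j - h i ≤ c := by
  have h1 := hg.1 i j hij hj
  have h2 : (j : ℝ) - i ≤ l := by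
    have : (j : ℝ) ≤ i + l := by exact_mod_cast hl
    linarith
  have h3 : ((h j : ℝ) - h i) ^ 2 ≤ (c : ℝ) ^ 2 :=
    h1.trans ((mul_le_mul_of_nonneg_left h2 (by positivity)).trans hc)
  have h4 := abs_le_of_sq_le_sq' h3 (Nat.cast_nonneg c)
  exact ⟨by exact_mod_cast h4.1, by exact_mod_cast h4.2⟩

lemma sum_bd {f : ℕ → ℤ} {l : ℕ} {u v : ℤ} (h : ∀ i < l, u ≤ f i ∧ f i ≤ v) :
    l * u ≤ ∑ i ∈ range l, f i ∧ ∑ i ∈ range l, f i ≤ l * v := by
  constructor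
  · have := card_nsmul_le_sum (range l) f u fun i hi => (h i (mem_range.1 hi)).1
    simpa using this
  · have := sum_le_card_nsmul (range l) f v fun i hi => (h i (mem_range.1 hi)).2
    simpa using this

lemma ar_par {N : ℕ} {h : Fn} (hh : h ∈ W N) {m : ℕ} (hm : m ≤ N) :
    ar m h % 2 = (∑ i ∈ range m, (i : ℤ)) % 2 := by
  induction m with
  | zero => simp [ar]
  | succ m ih =>
    have h1 := ih (by omega)
    have h2 := W_parity hh (show m ≤ N by omega)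
    unfold ar at h1 ⊢
    rw [sum_range_succ, sum_range_succ]
    omega

variable {g : Geo} {b : ℕ} {z H : ℝ} {x : ℕ → ℕ} {h : Fn}

lemma blk (hz : 0 ≤ z) (hβ : 4 * z * g.μ ≤ (g.β : ℝ) ^ 2) (hh : h ∈ g.fib x)
    (hg : Good (2 * g.n) z H h) {j i : ℕ} (hj : j < g.M) (hi : i < 2 * g.μ) :
    2 * (x j : ℤ) ≤ h (g.q j + i) ∧ h (g.q j + i) ≤ 2 * g.β + 2 * (x j : ℤ) := by
  have e1 := Geo.q_le (g := g) (show j + 1 ≤ g.M from hj)
  have e2 := Geo.q_succ (g := g) j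
  have h1 := dev hg hz (i := g.q j) (j := g.q j + i) (l := 2 * g.μ) (c := g.β) (by omega)
    (by omega) (by omega) (by push_cast; linarith)
  have h2 := (Geo.mem_fib.1 hh).2.2.2.2 j hj.le
  omega

lemma fst (hz : 0 ≤ z) (hb : 2 * z * g.a ≤ (b : ℝ) ^ 2) (hh : h ∈ g.fib x)
    (hg : Good (2 * g.n) z H h) {i : ℕ} (hi : i ≤ g.a) : 0 ≤ h i ∧ h i ≤ b := by
  have e1 := Geo.q_le (g := g) (le_refl g.M)
  have h1 := dev hg hz (i := 0) (j := i) (l := g.a) (c := b) (by omega) (by omega) (by omega) hb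
  have h2 := W_zero (Geo.fib_subset x hh)
  have h3 := (Geo.mem_fib.1 hh).2.2.1 i hi
  omega

lemma lst (hz : 0 ≤ z) (hb : 2 * z * g.a ≤ (b : ℝ) ^ 2) (hh : h ∈ g.fib x)
    (hg : Good (2 * g.n) z H h) {i : ℕ} (hi : i ≤ g.a) :
    0 ≤ h (g.q g.M + i) ∧ h (g.q g.M + i) ≤ b := by
  have e1 := Geo.q_M (g := g)
  have h1 := dev hg hz (i := g.q g.M + i) (j := 2 * g.n) (l := g.a) (c := b) (by omega) (by omega)
    (by omega) hb
  have h2 := (Geo.mem_fib.1 hh).2.1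
  have h3 := (Geo.mem_fib.1 hh).2.2.2.1 (g.q g.M + i) (by omega)
  omega

lemma dyck (hz : 0 ≤ z) (hβ : 4 * z * g.μ ≤ (g.β : ℝ) ^ 2) (hh : h ∈ g.fib x)
    (hg : Good (2 * g.n) z H h) : h ∈ Dy g.n := by
  obtain ⟨h0, h1, h2, h3, -⟩ := Geo.mem_fib.1 hh
  refine mem_Dy.2 ⟨h0, fun i => ?_, h1⟩
  have key : ∀ j ≤ g.M, ∀ i < g.q j, 0 ≤ h i := by
    intro j
    induction j with
    | zero => exact fun _ i hi => h2 i (by rw [Geo.q_zero] at hi; omega)
    | succ j ih =>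
      intro hj i hi
      by_cases e : i < g.q j
      · exact ih (by omega) i e
      · have := blk hz hβ hh hg (show j < g.M from hj)
          (show i - g.q j < 2 * g.μ by rw [Geo.q_succ] at hi; omega)
        rw [show g.q j + (i - g.q j) = i by omega] at this
        omega
  by_cases e : i < g.q g.M
  · exact key _ le_rfl i e
  · exact h3 i (by omega)

lemma part (hz : 0 ≤ z) (hβ : 4 * z * g.μ ≤ (g.β : ℝ) ^ 2) (hb : 2 * z * g.a ≤ (b : ℝ) ^ 2)
    (hh : h ∈ g.fib x) (hg : Good (2 * g.n) z H h) {j : ℕ} (hj : j ≤ g.M) :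
    4 * (g.μ : ℤ) * ∑ i ∈ range j, (x i : ℤ) ≤ ar (g.q j) h ∧
      ar (g.q j) h ≤ g.a * b + 4 * g.μ * g.β * j + 4 * (g.μ : ℤ) * ∑ i ∈ range j, (x i : ℤ) := by
  induction j with
  | zero =>
    have := sum_bd (f := h) (l := g.a) fun i hi => fst hz hb hh hg hi.le
    rw [Geo.q_zero]
    simpa [ar] using this
  | succ j ih =>
    have h1 := ih (by omega)
    have h2 := sum_bd (f := fun i => h (g.q j + i)) (l := 2 * g.μ)
      fun i hi => blk hz hβ hh hg (show j < g.M from hj) hi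
    unfold ar at h1 ⊢
    rw [Geo.q_succ, sum_range_succ, sum_range_add h]
    push_cast at h2 ⊢
    constructor
    · linarith [h1.1, h2.1]
    · linarith [h1.2, h2.2]

lemma area (hz : 0 ≤ z) (hβ : 4 * z * g.μ ≤ (g.β : ℝ) ^ 2) (hb : 2 * z * g.a ≤ (b : ℝ) ^ 2)
    (hμ : g.μ ≤ g.a) {t D s : ℕ} (hs : s ∈ Ico t (t + D)) (hx : x ∈ g.L s)
    (hh : h ∈ g.fib x) (hg : Good (2 * g.n) z H h) :
    4 * (g.μ : ℤ) * t - 2 * g.μ * b ≤ ar (2 * g.n) h ∧ ar (2 * g.n) h ≤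
      4 * (g.μ : ℤ) * t - 2 * g.μ * b + 2 * (2 * g.μ * D + 2 * g.n * g.β + 2 * g.a * b) := by
  have h1 := part hz hβ hb hh hg le_rfl
  have h2 := sum_bd (f := fun i => h (g.q g.M + i)) (l := g.a) fun i hi => lst hz hb hh hg hi.le
  have h3 : ∑ i ∈ range g.M, (x i : ℤ) + x g.M = s := by
    have := (mem_lay.1 hx).1
    rw [sum_range_succ] at this
    exact_mod_cast this
  have h4 := (lst hz hb hh hg (Nat.zero_le _)).2
  have h5 := (Geo.mem_fib.1 hh).2.2.2.2 _ le_rfl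
  rw [add_zero] at h4
  obtain ⟨s1, s2⟩ := mem_Ico.1 hs
  have e1 : ar (2 * g.n) h = ar (g.q g.M) h + ∑ i ∈ range g.a, h (g.q g.M + i) := by
    unfold ar
    rw [← Geo.q_M, sum_range_add]
  have e2 : (g.n : ℤ) = g.a + g.M * g.μ := by simp [Geo.n]
  have m0 : (0 : ℤ) ≤ g.μ := Nat.cast_nonneg _
  have l1 : (g.μ : ℤ) * (2 * t - b) ≤ g.μ * (2 * ∑ i ∈ range g.M, (x i : ℤ)) :=
    mul_le_mul_of_nonneg_left (by omega) m0
  have l2 : (g.μ : ℤ) * ∑ i ∈ range g.M, (x i : ℤ) ≤ g.μ * (t + D) :=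
    mul_le_mul_of_nonneg_left (by omega) m0
  have l3 : (g.μ : ℤ) * b ≤ g.a * b :=
    mul_le_mul_of_nonneg_right (by exact_mod_cast hμ) (Nat.cast_nonneg _)
  have l4 : (0 : ℤ) ≤ g.a * g.β := by positivity
  rw [e1, e2]
  constructor
  · linarith [h1.1, h2.1]
  · linarith [h1.2, h2.2]

end WINx

open WINx in
theorem p_WIN : S_WIN := by
  intro g t D b z H Λ hz hβ hb hμ hΛ
  set K : ℕ := 2 * g.μ * D + 2 * g.n * g.β + 2 * g.a * b with hK
  set lo : ℤ := 4 * (g.μ : ℤ) * t - 2 * g.μ * b with hlo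
  set e : ℤ := (∑ i ∈ range (2 * g.n), (i : ℤ) - lo) % 2 with he
  have hdisj : (((Ico t (t + D)).sigma g.L : Finset (Σ _ : ℕ, ℕ → ℕ)) :
      Set (Σ _ : ℕ, ℕ → ℕ)).PairwiseDisjoint fun p => g.fib p.2 := by
    rintro ⟨s, x⟩ hp ⟨s', x'⟩ hp' hne
    refine disjoint_left.2 fun h h1 h2 => hne ?_
    obtain ⟨a1, a2⟩ := mem_lay.1 (mem_sigma.1 hp).2
    obtain ⟨b1, b2⟩ := mem_lay.1 (mem_sigma.1 hp').2
    have hx : x = x' := by
      funext j
      by_cases hj : j ≤ g.M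
      · have c1 := (Geo.mem_fib.1 h1).2.2.2.2 j hj
        have c2 := (Geo.mem_fib.1 h2).2.2.2.2 j hj
        simp only at c1 c2
        omega
      · have c1 : x j = 0 := by
          by_contra c
          exact hj (Nat.lt_succ_iff.1 (mem_range.1 (a2 j c)))
        have c2 : x' j = 0 := by
          by_contra c
          exact hj (Nat.lt_succ_iff.1 (mem_range.1 (b2 j c)))
        rw [c1, c2]
    subst hx
    have hs : s = s' := a1.symm.trans b1
    subst hs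
    rfl
  have hsub : ((Ico t (t + D)).sigma g.L).biUnion (fun p => g.fib p.2) ⊆
      (range (K + 1)).biUnion (fun i => lev g.n (lo + 2 * i + e)) ∪ bad (2 * g.n) z H := by
    intro h hh
    obtain ⟨⟨s, x⟩, hp, hh⟩ := mem_biUnion.1 hh
    obtain ⟨hs, hx⟩ := mem_sigma.1 hp
    by_cases hg : Good (2 * g.n) z H h
    · have h1 := area hz hβ hb hμ hs hx hh hg
      have h2 := ar_par (Geo.fib_subset x hh) le_rfl
      have h3 : (K : ℤ) = 2 * g.μ * D + 2 * g.n * g.β + 2 * g.a * b := by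
        rw [hK]; push_cast; ring
      rw [← hlo, ← h3] at h1
      refine mem_union_left _ (mem_biUnion.2 ⟨((ar (2 * g.n) h - lo) / 2).toNat,
        mem_range.2 (by omega), mem_lev.2 ⟨dyck hz hβ hh hg, by omega⟩⟩)
    · exact mem_union_right _ (mem_bad.2 ⟨Geo.fib_subset x hh, hg⟩)
  have h1 : ∑ s ∈ Ico t (t + D), g.Z s =
      ((((Ico t (t + D)).sigma g.L).biUnion fun p => g.fib p.2).card : ℝ) := by
    rw [card_biUnion hdisj, Nat.cast_sum]
    exact sum_sigma' _ _ fun _ x => ((g.fib x).card : ℝ)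
  have h2 := (card_le_card hsub).trans ((card_union_le _ _).trans
    (Nat.add_le_add_right card_biUnion_le _))
  have h3 := sum_le_card_nsmul (range (K + 1)) (fun i : ℕ => ((lev g.n (lo + 2 * i + e)).card : ℝ))
    Λ fun i _ => hΛ _
  rw [card_range, nsmul_eq_mul] at h3
  have h4 : ((K + 1 : ℕ) : ℝ) = 2 * g.μ * D + 2 * g.n * g.β + 2 * g.a * b + 1 := by
    rw [hK]; push_cast; ring
  rw [h1, ← h4]
  refine (Nat.cast_le.2 h2).trans ?_
  rw [Nat.cast_add, Nat.cast_sum]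
  linarith

end Pool.Agent.P.MP_e6a929_co.AS
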