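import Pool.Agent.P.MP_e6a929_co.AS.Iface

/-! Step ZMAX of the asymptotic Sperner project. -/

namespace Pool.Agent.P.MP_e6a929_co.AS

open Finset Function Filter

open scoped Classical

namespace ZMAXx

theorem Z_nonneg (g : Geo) (s : ℕ) : 0 ≤ g.Z s := sum_nonneg fun _ _ => Nat.cast_nonneg _

theorem w_pos {g : Geo} (hM : 0 < g.M) (hμ : 0 < g.μ) (ha : 0 < g.a) {j : ℕ} (hj : j ≤ g.M) :
    0 < g.w j := by
  unfold Geo.w
  have h1 : (0 : ℝ) ≤ (g.M : ℝ) - j := sub_nonneg.2 (Nat.cast_le.2 hj)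
  have h2 : (0 : ℝ) < g.a * g.M / (2 * g.μ) := by positivity
  have h3 : (0 : ℝ) ≤ (j : ℝ) * ((g.M : ℝ) - j) := mul_nonneg (Nat.cast_nonneg _) h1
  linarith

/-- One step of growth of the layers. -/
theorem step {g : Geo} {s : ℕ} {c : ℝ} (hM : 0 < g.M) (hμ : 0 < g.μ) (ha : 0 < g.a)
    (hr : ∀ x ∈ g.L s, ∀ j ≤ g.M, ((g.fib (inc x j)).card : ℝ) = g.r j x * (g.fib x).card)
    (hl : ∀ x ∈ g.L s, c * ∑ j ∈ range (g.M + 1), g.w j ≤ ∑ j ∈ range (g.M + 1), g.w j * g.r j x) :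
    c * g.Z s ≤ g.Z (s + 1) := by
  have hw : ∀ j ∈ range (g.M + 1), 0 < g.w j := fun j hj =>
    w_pos hM hμ ha (Nat.lt_succ_iff.1 (mem_range.1 hj))
  have hS : 0 < ∑ j ∈ range (g.M + 1), g.w j := sum_pos hw ⟨0, by simp⟩
  refine le_of_mul_le_mul_right ?_ hS
  calc c * g.Z s * ∑ j ∈ range (g.M + 1), g.w j
      = ∑ x ∈ g.L s, (c * ∑ j ∈ range (g.M + 1), g.w j) * (g.fib x).card := by
        rw [← mul_sum, Geo.Z]
        ring
    _ ≤ ∑ x ∈ g.L s, ∑ j ∈ range (g.M + 1), g.w j * (g.fib (inc x j)).card := by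
        refine sum_le_sum fun x hx => ?_
        refine (mul_le_mul_of_nonneg_right (hl x hx) (Nat.cast_nonneg _)).trans (le_of_eq ?_)
        rw [sum_mul]
        refine sum_congr rfl fun j hj => ?_
        rw [hr x hx j (Nat.lt_succ_iff.1 (mem_range.1 hj)), mul_assoc]
    _ ≤ g.Z (s + 1) * ∑ j ∈ range (g.M + 1), g.w j := by
        rw [Geo.L, sum_lay_inc, Geo.Z, Geo.L, sum_mul]
        refine sum_le_sum fun z _ => ?_
        rw [mul_sum]
        refine le_trans (le_of_eq (sum_congr rfl fun j hj => ?_))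
          (sum_le_sum_of_subset_of_nonneg (filter_subset (fun j => 0 < z j) _) fun j hj _ =>
            mul_nonneg (Nat.cast_nonneg _) (hw j hj).le)
        rw [inc_dec (mem_filter.1 hj).2, mul_comm]

theorem iter {Z : ℕ → ℝ} {t D : ℕ} {η : ℝ} (h0 : 0 ≤ Z t) (h1 : η ≤ 1)
    (hs : ∀ k < D, (1 - η) * Z (t + k) ≤ Z (t + k + 1)) :
    ∀ k ≤ D, (1 - k * η) * Z t ≤ Z (t + k) := by
  intro k
  induction k with
  | zero => simp
  | succ k ih =>
    intro hk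
    have a1 := ih (by omega)
    have a2 := hs k (by omega)
    have a3 := mul_le_mul_of_nonneg_left a1 (sub_nonneg.2 h1)
    have a4 : 0 ≤ (k : ℝ) * η ^ 2 * Z t := by positivity
    rw [← add_assoc]
    push_cast
    nlinarith

end ZMAXx

theorem p_ZMAX (hNUM : S_NUM) (hRAT : S_RAT) (hLOW : S_LOW) (hWIN : S_WIN) : S_ZMAX := by
  intro g y ρ t H Λ ok ht hΛ
  have N := hNUM g y ρ ok
  have hy : 100 ≤ y := ok.hy
  have hM := N.M2
  have hμ := N.mu0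
  have hρ := N.rho0
  have hmua := N.mua
  have hrat := N.rat
  have hlow1 := N.low1
  have htop := N.top2
  have hlow2 : 4 * (8 * y ^ 61 * ρ + 1) ≤ g.μ :=
    le_trans (Nat.le_mul_of_pos_left _ (by omega)) N.low2
  have hΛ0 : 0 ≤ Λ := le_trans (Nat.cast_nonneg _) (hΛ 0)
  have hyR : (0 : ℝ) < y := by exact_mod_cast (show 0 < y by omega)
  have hy1 : (1 : ℝ) ≤ y := by exact_mod_cast (show 1 ≤ y by omega)
  have heta := N.eta
  have hw2 := N.win2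
  have hW := hWIN g t (y ^ 56 * ρ) (2 * y ^ 19 * ρ) ((y : ℝ) ^ 2) H Λ (by positivity)
    (by exact_mod_cast N.mic1) (by exact_mod_cast N.win1) (by omega) hΛ
  have hD1 : 1 ≤ y ^ 56 * ρ := Nat.mul_pos (Nat.pow_pos (by omega)) hρ
  have hst : ∀ s ≤ 8 * y ^ 61 * ρ, (1 - (64 * (8 * (y : ℝ) ^ 61 * ρ) / (g.μ * (g.M : ℝ) ^ 3) +
      4 / g.μ + 16 * (8 * (y : ℝ) ^ 61 * ρ + 1) ^ 2 / (g.μ : ℝ) ^ 2)) * g.Z s ≤ g.Z (s + 1) := by
    intro s hs
    refine ZMAXx.step (by omega) hμ (by omega) (fun x hx => (hRAT g x (by omega) hμ ok.par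
      fun i => ?_).1) fun x hx => ?_
    · have := le_of_mem_lay hx i
      omega
    · have := hLOW g (8 * y ^ 61 * ρ) s x hM hmua hlow1 hlow2 hs hx
      push_cast at this
      exact this
  have hη0 : 0 ≤ 64 * (8 * (y : ℝ) ^ 61 * ρ) / (g.μ * (g.M : ℝ) ^ 3) +
      4 / g.μ + 16 * (8 * (y : ℝ) ^ 61 * ρ + 1) ^ 2 / (g.μ : ℝ) ^ 2 := by positivity
  have hDc : ((y ^ 56 * ρ : ℕ) : ℝ) = (y : ℝ) ^ 56 * ρ := by push_cast; ring
  rw [← hDc] at heta
  generalize 64 * (8 * (y : ℝ) ^ 61 * ρ) / (g.μ * (g.M : ℝ) ^ 3) +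
      4 / g.μ + 16 * (8 * (y : ℝ) ^ 61 * ρ + 1) ^ 2 / (g.μ : ℝ) ^ 2 = η at heta hst hη0
  generalize y ^ 56 * ρ = D at *
  have hD : (1 : ℝ) ≤ D := by exact_mod_cast hD1
  have hDη : (D : ℝ) * η ≤ 1 / y := by
    rw [le_div_iff₀ hyR]
    linarith
  have hy2 : 1 / (y : ℝ) ≤ 1 := by
    rw [div_le_one hyR]
    exact hy1
  have hη1 : η ≤ 1 := by nlinarith
  have hZ := ZMAXx.Z_nonneg g t
  have hit := ZMAXx.iter (Z := g.Z) (t := t) (D := D) hZ hη1 fun k hk => hst (t + k) (by omega)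
  have hsum : (D : ℝ) * (g.Z t * (1 - 1 / y)) ≤ ∑ s ∈ Ico t (t + D), g.Z s := by
    rw [sum_Ico_eq_sum_range, Nat.add_sub_cancel_left]
    have : ∑ _k ∈ range D, g.Z t * (1 - 1 / (y : ℝ)) ≤ ∑ k ∈ range D, g.Z (t + k) := by
      refine sum_le_sum fun k hk => le_trans ?_ (hit k (mem_range.1 hk).le)
      have hk' : (k : ℝ) ≤ D := by exact_mod_cast (mem_range.1 hk).le
      have := mul_le_mul_of_nonneg_right hk' hη0
      rw [mul_comm]
      exact mul_le_mul_of_nonneg_right (by linarith) hZ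
    simpa using this
  have hw3 : (2 * (g.n : ℝ) * g.β + 2 * g.a * ((2 * y ^ 19 * ρ : ℕ) : ℝ) + 1) ≤
      2 * g.μ * D * (1 / y) := by
    rw [mul_one_div, le_div_iff₀ hyR, mul_comm]
    exact_mod_cast hw2
  have hb : (0 : ℝ) ≤ (bad (2 * g.n) ((y : ℝ) ^ 2) H).card := Nat.cast_nonneg _
  refine le_of_mul_le_mul_left (hsum.trans (hW.trans ?_)) (by linarith : (0 : ℝ) < D)
  have h5 := mul_le_mul_of_nonneg_right hw3 hΛ0
  have h6 := mul_le_mul_of_nonneg_right hD hb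
  nlinarith

end Pool.Agent.P.MP_e6a929_co.AS
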