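import Pool.Agent.P.MP_e6a929_co.AS.SBP
import Pool.Agent.P.MP_e6a929_co.AS.TENT
import Pool.Agent.P.MP_e6a929_co.AS.BLK
import Pool.Agent.P.MP_e6a929_co.AS.HOEF
import Pool.Agent.P.MP_e6a929_co.AS.BAD
import Pool.Agent.P.MP_e6a929_co.AS.STG
import Pool.Agent.P.MP_e6a929_co.AS.SWAP
import Pool.Agent.P.MP_e6a929_co.AS.BAL
import Pool.Agent.P.MP_e6a929_co.AS.GL
import Pool.Agent.P.MP_e6a929_co.AS.RATI
import Pool.Agent.P.MP_e6a929_co.AS.RATZ
import Pool.Agent.P.MP_e6a929_co.AS.RAT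
import Pool.Agent.P.MP_e6a929_co.AS.POI
import Pool.Agent.P.MP_e6a929_co.AS.NM
import Pool.Agent.P.MP_e6a929_co.AS.FAC
import Pool.Agent.P.MP_e6a929_co.AS.PHI
import Pool.Agent.P.MP_e6a929_co.AS.LOW
import Pool.Agent.P.MP_e6a929_co.AS.DAY
import Pool.Agent.P.MP_e6a929_co.AS.MIC
import Pool.Agent.P.MP_e6a929_co.AS.FIB
import Pool.Agent.P.MP_e6a929_co.AS.WIN
import Pool.Agent.P.MP_e6a929_co.AS.ROUGH
import Pool.Agent.P.MP_e6a929_co.AS.BIN
import Pool.Agent.P.MP_e6a929_co.AS.WCNT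
import Pool.Agent.P.MP_e6a929_co.AS.LAM
import Pool.Agent.P.MP_e6a929_co.AS.NUM
import Pool.Agent.P.MP_e6a929_co.AS.NMG
import Pool.Agent.P.MP_e6a929_co.AS.COV
import Pool.Agent.P.MP_e6a929_co.AS.BULK
import Pool.Agent.P.MP_e6a929_co.AS.ZMAX
import Pool.Agent.P.MP_e6a929_co.AS.REST
import Pool.Agent.P.MP_e6a929_co.AS.CORE
import Pool.Agent.P.MP_e6a929_co.AS.PAR
import Pool.Agent.P.MP_e6a929_co.AS.BRA
import Pool.Agent.P.MP_e6a929_co.AS.BRB
import Pool.Agent.P.MP_e6a929_co.AS.BRC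
import Pool.Agent.P.MP_e6a929_co.AS.BR
import Pool.Agent.P.MP_e6a929_co.AS.FIN

/-! Assembly of the steps. -/

namespace Pool.Agent.P.MP_e6a929_co.AS

theorem all_SBP : S_SBP := p_SBP

theorem all_TENT : S_TENT := p_TENT

theorem all_BLK : S_BLK := p_BLK all_SBP all_TENT

theorem all_HOEF : S_HOEF := p_HOEF

theorem all_BAD : S_BAD := p_BAD all_TENT all_HOEF

theorem all_STG : S_STG := p_STG all_BLK

theorem all_SWAP : S_SWAP := p_SWAP

theorem all_BAL : S_BAL := p_BAL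

theorem all_GL : S_GL := p_GL

theorem all_RATI : S_RATI := p_RATI all_STG all_SWAP

theorem all_RATZ : S_RATZ := p_RATZ all_BLK all_SWAP all_BAL all_GL

theorem all_RAT : S_RAT := p_RAT all_RATI all_RATZ

theorem all_POI : S_POI := p_POI

theorem all_NM : S_NM := p_NM all_POI

theorem all_FAC : S_FAC := p_FAC

theorem all_PHI : S_PHI := p_PHI

theorem all_LOW : S_LOW := p_LOW

theorem all_DAY : S_DAY := p_DAY

theorem all_MIC : S_MIC := p_MIC all_STG all_SWAP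

theorem all_FIB : S_FIB := p_FIB all_TENT all_BLK

theorem all_WIN : S_WIN := p_WIN

theorem all_ROUGH : S_ROUGH := p_ROUGH all_BLK

theorem all_BIN : S_BIN := p_BIN

theorem all_WCNT : S_WCNT := p_WCNT all_BAL all_BIN

theorem all_LAM : S_LAM := p_LAM all_BAL

theorem all_NUM : S_NUM := p_NUM

theorem all_NMG : S_NMG := p_NMG all_NUM all_RAT all_NM all_FAC all_PHI

theorem all_COV : S_COV := p_COV all_NUM all_RAT all_DAY all_MIC all_FIB

theorem all_BULK : S_BULK := p_BULK all_NUM all_NMG all_COV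

theorem all_ZMAX : S_ZMAX := p_ZMAX all_NUM all_RAT all_LOW all_WIN

theorem all_REST : S_REST := p_REST all_NUM all_BAD all_ROUGH all_WCNT all_LAM

theorem all_CORE : S_CORE := p_CORE all_NUM all_BULK all_ZMAX all_REST

theorem all_PAR : S_PAR := p_PAR

theorem all_BRA : S_BRA := p_BRA

theorem all_BRB : S_BRB := p_BRB

theorem all_BRC : S_BRC := p_BRC

theorem all_BR : S_BR := p_BR all_BRA all_BRB all_BRC

theorem all_FIN : S_FIN := p_FIN all_CORE all_PAR all_BR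

end Pool.Agent.P.MP_e6a929_co.AS
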