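import Pool.Agent.P.MP_e6a929_co.AS.Iface

/-! Step BRC of the asymptotic Sperner project. -/

namespace Pool.Agent.P.MP_e6a929_co.AS

open Finset Function Filter

open scoped Classical

namespace BRCx

/-- The highest Dyck path. -/
def Mx (n : ℕ) : Fn := fun p =>
  if p ≤ 2 * (n + 1) then min (p : ℤ) (2 * ((n : ℤ) + 1) - p) else 0

/-- The highest Dyck path through the place of the interval from `i` to `j`. -/
def G (n i j : ℕ) : Fn := fun p =>
  if p ≤ 2 * (n + 1) then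
    min (min (p : ℤ) (2 * ((n : ℤ) + 1) - p))
      ((j : ℤ) - i + max ((p : ℤ) - (i + j + 2)) ((i : ℤ) + j + 2 - p))
  else 0

theorem Mx_mem (n : ℕ) : Mx n ∈ Dy (n + 1) := by
  refine mem_Dy.2 ⟨mem_W.2 ⟨?_, fun p hp => ?_, fun p hp => ?_⟩, fun p => ?_, ?_⟩
  · simp only [Mx]
    rw [if_pos (by omega)]
    omega
  · simp only [Mx]
    rw [if_pos (by omega), if_pos (by omega)]
    push_cast
    omega
  · simp only [Mx]
    rw [if_neg (by omega)]
  · simp only [Mx]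
    split_ifs <;> omega
  · simp only [Mx]
    rw [if_pos le_rfl]
    push_cast
    omega

theorem G_mem (n : ℕ) {i j : ℕ} (hij : i ≤ j) : G n i j ∈ Dy (n + 1) := by
  refine mem_Dy.2 ⟨mem_W.2 ⟨?_, fun p hp => ?_, fun p hp => ?_⟩, fun p => ?_, ?_⟩
  · simp only [G]
    rw [if_pos (by omega)]
    omega
  · simp only [G]
    rw [if_pos (by omega), if_pos (by omega)]
    push_cast
    omega
  · simp only [G]
    rw [if_neg (by omega)]
  · simp only [G]
    split_ifs <;> omega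
  · simp only [G]
    rw [if_pos le_rfl]
    push_cast
    omega

theorem exists_path (n : ℕ) (S : Finset (Fin n × Fin n)) (hS : ∀ p ∈ S, p.1 ≤ p.2) :
    ∃ h ∈ Dy (n + 1), ∀ i j : Fin n, i ≤ j →
      (h (i.val + j.val + 2) ≤ (j.val : ℤ) - i.val ↔ ∃ p ∈ S, i ≤ p.1 ∧ p.2 ≤ j) := by
  induction S using Finset.induction_on with
  | empty =>
    refine ⟨Mx n, Mx_mem n, fun i j hij => ?_⟩
    have h1 := i.2
    have h2 := j.2
    have h3 : i.val ≤ j.val := hij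
    simp only [Mx, notMem_empty, false_and, exists_false, iff_false]
    rw [if_pos (by omega)]
    push_cast
    omega
  | insert q S hq ih =>
    obtain ⟨h, hh, H⟩ := ih fun p hp => hS p (mem_insert_of_mem hp)
    have hq' : q.1.val ≤ q.2.val := hS q (mem_insert_self _ _)
    have hG := mem_Dy.1 (G_mem n hq')
    have hh' := mem_Dy.1 hh
    refine ⟨h ⊓ G n q.1.val q.2.val, mem_Dy.2 ⟨inf_mem_W hh'.1 hG.1, fun p => ?_, ?_⟩,
      fun i j hij => ?_⟩
    · exact le_inf (hh'.2.1 p) (hG.2.1 p)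
    · simp only [Pi.inf_apply, hh'.2.2, hG.2.2, min_self]
    · have h1 := i.2
      have h2 := j.2
      have h3 : i.val ≤ j.val := hij
      have h4 : G n q.1.val q.2.val (i.val + j.val + 2) ≤ (j.val : ℤ) - i.val ↔
          i ≤ q.1 ∧ q.2 ≤ j := by
        simp only [G, Fin.le_def]
        rw [if_pos (by omega)]
        push_cast
        omega
      rw [Pi.inf_apply, inf_le_iff, H i j hij, h4, exists_mem_insert, or_comm]

theorem eq_Icc {n : ℕ} {I : Finset (Fin n)} (hI : I ∈ Itv n) (hne : I.Nonempty) :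
    I = Icc (I.min' hne) (I.max' hne) := by
  ext z
  rw [mem_Icc]
  exact ⟨fun hz => ⟨min'_le _ _ hz, le_max' _ _ hz⟩,
    fun hz => (mem_filter.1 hI).2 _ (min'_mem _ _) _ (max'_mem _ _) z hz.1 hz.2⟩

end BRCx

open BRCx in
theorem p_BRC : S_BRC := by
  intro n A hA
  obtain ⟨hA1, hA2⟩ := mem_filter.1 hA
  have hA3 : ∀ I ∈ A, I ∈ Itv n := fun I hI => mem_powerset.1 hA1 hI
  by_cases h0 : ∅ ∈ A
  · left
    exact eq_singleton_iff_unique_mem.2 ⟨h0, fun J hJ => (hA2 _ h0 J hJ (empty_subset _)).symm⟩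
  right
  have hA4 : ∀ I ∈ A, ∃ i j, i ≤ j ∧ I = Icc i j := by
    intro I hI
    have hne : I.Nonempty := nonempty_iff_ne_empty.2 fun e => h0 (e ▸ hI)
    exact ⟨_, _, min'_le_max' I hne, eq_Icc (hA3 I hI) hne⟩
  obtain ⟨h, hh, H⟩ := exists_path n (univ.filter fun p => p.1 ≤ p.2 ∧ Icc p.1 p.2 ∈ A)
    fun p hp => (mem_filter.1 hp).2.1
  have hD : ∀ K, K ∈ Dh n h ↔ (∃ i j, i ≤ j ∧ K = Icc i j) ∧ ∃ J ∈ A, J ⊆ K := by
    intro K
    simp only [Dh, mem_image, mem_filter, mem_univ, true_and]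
    constructor
    · rintro ⟨p, ⟨hp1, hp2⟩, rfl⟩
      obtain ⟨q, hq, hq1, hq2⟩ := (H _ _ hp1).1 hp2
      exact ⟨⟨_, _, hp1, rfl⟩, _, (mem_filter.1 hq).2.2, Icc_subset_Icc hq1 hq2⟩
    · rintro ⟨⟨i, j, hij, rfl⟩, J, hJ, hJK⟩
      obtain ⟨a, b, hab, rfl⟩ := hA4 J hJ
      have h1 := (Icc_subset_Icc_iff hab).1 hJK
      exact ⟨(i, j), ⟨hij, (H i j hij).2 ⟨(a, b), mem_filter.2 ⟨mem_univ _, hab, hJ⟩, h1⟩⟩, rfl⟩
  refine ⟨h, hh, ?_⟩
  ext K
  simp only [Psi, mem_filter]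
  constructor
  · rintro ⟨hK, hmin⟩
    obtain ⟨-, J, hJ, hJK⟩ := (hD K).1 hK
    exact hmin J ((hD J).2 ⟨hA4 J hJ, J, hJ, subset_rfl⟩) hJK ▸ hJ
  · intro hK
    refine ⟨(hD K).2 ⟨hA4 K hK, K, hK, subset_rfl⟩, fun J hJ hJK => ?_⟩
    obtain ⟨-, J', hJ', hJJ⟩ := (hD J).1 hJ
    have e := hA2 J' hJ' K hK (hJJ.trans hJK)
    exact Subset.antisymm hJK (e ▸ hJJ)

end Pool.Agent.P.MP_e6a929_co.AS
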