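import Pool.Agent.P.MP_e6a929_co.Defs

/-! Walks with steps `±1`, flips, and the basic toolbox. -/

namespace Pool.Agent.P.MP_e6a929_co.AS

open Finset Function

open scoped Classical

/-- Height functions. -/
abbrev Fn : Type := ℕ → ℤ

/-- Walks of length `N` from height `0`, extended by `0`. -/
noncomputable def W : ℕ → Finset Fn
  | 0 => {0}
  | N + 1 => (W N).image (fun h => update h (N + 1) (h N + 1)) ∪
      (W N).image fun h => update h (N + 1) (h N - 1)

theorem mem_W {N : ℕ} {h : Fn} : h ∈ W N ↔ h 0 = 0 ∧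
    (∀ i < N, h (i + 1) = h i + 1 ∨ h (i + 1) = h i - 1) ∧ ∀ i, N < i → h i = 0 := by
  induction N generalizing h with
  | zero =>
    simp only [W, mem_singleton, Nat.not_lt_zero, IsEmpty.forall_iff, implies_true, true_and]
    refine ⟨fun e => by simp [e], fun ⟨h0, h1⟩ => funext fun i => ?_⟩
    rcases Nat.eq_zero_or_pos i with rfl | hi
    · exact h0
    · exact h1 i hi
  | succ N ih =>
    simp only [W, mem_union, mem_image]
    have key : ∀ (g : Fn) (c : ℤ), g ∈ W N → c = g N + 1 ∨ c = g N - 1 →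
        update g (N + 1) c 0 = 0 ∧ (∀ i < N + 1, update g (N + 1) c (i + 1) =
          update g (N + 1) c i + 1 ∨ update g (N + 1) c (i + 1) = update g (N + 1) c i - 1) ∧
          ∀ i, N + 1 < i → update g (N + 1) c i = 0 := by
      intro g c hg hc
      obtain ⟨g0, g1, g2⟩ := ih.1 hg
      refine ⟨by rw [update_of_ne (by omega), g0], fun i hi => ?_, fun i hi => ?_⟩
      · rcases Nat.lt_succ_iff_lt_or_eq.1 hi with hi | rfl
        · rw [update_of_ne (by omega), update_of_ne (by omega)]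
          exact g1 i hi
        · rw [update_self, update_of_ne (by omega)]
          exact hc
      · rw [update_of_ne (by omega)]
        exact g2 i (by omega)
    constructor
    · rintro (⟨g, hg, rfl⟩ | ⟨g, hg, rfl⟩)
      · exact key g _ hg (Or.inl rfl)
      · exact key g _ hg (Or.inr rfl)
    · rintro ⟨h0, h1, h2⟩
      have hg : update h (N + 1) 0 ∈ W N := by
        refine ih.2 ⟨by rw [update_of_ne (by omega), h0], fun i hi => ?_, fun i hi => ?_⟩
        · rw [update_of_ne (by omega), update_of_ne (by omega)]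
          exact h1 i (by omega)
        · by_cases e : i = N + 1
          · rw [e, update_self]
          · rw [update_of_ne e]
            exact h2 i (by omega)
      rcases h1 N (by omega) with e | e
      · refine Or.inl ⟨_, hg, ?_⟩
        rw [update_idem, update_of_ne (by omega), ← e, update_eq_self]
      · refine Or.inr ⟨_, hg, ?_⟩
        rw [update_idem, update_of_ne (by omega), ← e, update_eq_self]

theorem W_zero {N : ℕ} {h : Fn} (hh : h ∈ W N) : h 0 = 0 := (mem_W.1 hh).1

theorem W_step {N i : ℕ} {h : Fn} (hh : h ∈ W N) (hi : i < N) :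
    h (i + 1) = h i + 1 ∨ h (i + 1) = h i - 1 := (mem_W.1 hh).2.1 i hi

theorem W_after {N i : ℕ} {h : Fn} (hh : h ∈ W N) (hi : N < i) : h i = 0 := (mem_W.1 hh).2.2 i hi

/-- Summation over walks, by the last step. -/
theorem sum_W_succ {R : Type} [AddCommMonoid R] (N : ℕ) (F : Fn → R) :
    ∑ h ∈ W (N + 1), F h =
      ∑ h ∈ W N, (F (update h (N + 1) (h N + 1)) + F (update h (N + 1) (h N - 1))) := by
  have inj : ∀ c : ℤ, Set.InjOn (fun h : Fn => update h (N + 1) (h N + c)) (W N) := by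
    intro c g hg g' hg' e
    funext i
    by_cases hi : i = N + 1
    · rw [W_after hg (by omega), W_after hg' (by omega)]
    · simpa [update_of_ne hi] using congrFun e i
  rw [W, sum_union, sum_image (inj 1), sum_image (by simpa [sub_eq_add_neg] using inj (-1)),
    sum_add_distrib]
  rw [disjoint_left]
  intro h h1 h2
  obtain ⟨g, -, rfl⟩ := mem_image.1 h1
  obtain ⟨g', -, e⟩ := mem_image.1 h2
  have e1 := congrFun e N
  have e2 := congrFun e (N + 1)
  rw [update_of_ne (by omega), update_of_ne (by omega)] at e1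
  rw [update_self, update_self] at e2
  omega

theorem card_W (N : ℕ) : (W N).card = 2 ^ N := by
  induction N with
  | zero => simp [W]
  | succ N ih =>
    rw [card_eq_sum_ones, sum_W_succ, sum_const, ih, smul_eq_mul, pow_succ]

/-- Parity of the heights. -/
theorem W_parity {N i : ℕ} {h : Fn} (hh : h ∈ W N) (hi : i ≤ N) : h i % 2 = (i : ℤ) % 2 := by
  induction i with
  | zero => simp [W_zero hh]
  | succ i ih =>
    have := ih (by omega)
    have := W_step hh (show i < N by omega)
    push_cast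
    omega

/-- Walks are Lipschitz. -/
theorem W_lip {N i j : ℕ} {h : Fn} (hh : h ∈ W N) (hij : i ≤ j) (hj : j ≤ N) :
    h j - h i ≤ (j : ℤ) - i ∧ h i - h j ≤ (j : ℤ) - i := by
  induction j, hij using Nat.le_induction with
  | base => simp
  | succ j hij ih =>
    have := ih (by omega)
    have := W_step hh (show j < N by omega)
    push_cast
    omega

theorem inf_mem_W {N : ℕ} {g h : Fn} (hg : g ∈ W N) (hh : h ∈ W N) : g ⊓ h ∈ W N := by
  refine mem_W.2 ⟨by simp [W_zero hg, W_zero hh], fun i hi => ?_,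
    fun i hi => by simp [W_after hg hi, W_after hh hi]⟩
  have := W_step hg hi
  have := W_step hh hi
  have := W_parity hg hi.le
  have := W_parity hh hi.le
  simp only [Pi.inf_apply]
  omega

theorem sup_mem_W {N : ℕ} {g h : Fn} (hg : g ∈ W N) (hh : h ∈ W N) : g ⊔ h ∈ W N := by
  refine mem_W.2 ⟨by simp [W_zero hg, W_zero hh], fun i hi => ?_,
    fun i hi => by simp [W_after hg hi, W_after hh hi]⟩
  have := W_step hg hi
  have := W_step hh hi
  have := W_parity hg hi.le
  have := W_parity hh hi.le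
  simp only [Pi.sup_apply]
  omega

/-- Adding `c` to the heights at the places `i < p ≤ i'`. -/
def rz (h : Fn) (i i' : ℕ) (c : ℤ) : Fn := fun p => if i < p ∧ p ≤ i' then h p + c else h p

theorem rz_mem_W {N i i' : ℕ} {h : Fn} {ε : ℤ} (hh : h ∈ W N)
    (hi' : i' < N) (h1 : h (i + 1) = h i - ε) (h2 : h (i' + 1) = h i' + ε) :
    rz h i i' (2 * ε) ∈ W N := by
  refine mem_W.2 ⟨by simp [rz, W_zero hh], fun p hp => ?_, fun p hp => ?_⟩
  · have := W_step hh hp
    unfold rz
    by_cases e1 : p = i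
    · subst e1
      split_ifs <;> omega
    · by_cases e2 : p = i'
      · subst e2
        split_ifs <;> omega
      · split_ifs <;> omega
  · unfold rz
    rw [if_neg (by omega), W_after hh hp]

theorem rz_rz (h : Fn) (i i' : ℕ) (c : ℤ) : rz (rz h i i' c) i i' (-c) = h := by
  funext p
  unfold rz
  split_ifs <;> simp

theorem le_rz (h : Fn) (i i' : ℕ) {c : ℤ} (hc : 0 ≤ c) : h ≤ rz h i i' c := by
  intro p
  show h p ≤ if i < p ∧ p ≤ i' then h p + c else h p
  split_ifs <;> omega

/-- A valley at `p`. -/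
def val (h : Fn) (p : ℕ) : Prop := h (p - 1) = h p + 1 ∧ h (p + 1) = h p + 1

/-- A peak at `p`. -/
def pk (h : Fn) (p : ℕ) : Prop := h (p - 1) = h p - 1 ∧ h (p + 1) = h p - 1

/-- Turning a valley into a peak. -/
def up (h : Fn) (p : ℕ) : Fn := update h p (h p + 2)

/-- Turning a peak into a valley. -/
def dn (h : Fn) (p : ℕ) : Fn := update h p (h p - 2)

theorem up_self (h : Fn) (p : ℕ) : up h p p = h p + 2 := update_self ..

theorem up_of_ne (h : Fn) {p i : ℕ} (e : i ≠ p) : up h p i = h i := update_of_ne e ..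

theorem dn_self (h : Fn) (p : ℕ) : dn h p p = h p - 2 := update_self ..

theorem dn_of_ne (h : Fn) {p i : ℕ} (e : i ≠ p) : dn h p i = h i := update_of_ne e ..

theorem dn_up (h : Fn) (p : ℕ) : dn (up h p) p = h := by simp [dn, up]

theorem up_dn (h : Fn) (p : ℕ) : up (dn h p) p = h := by simp [dn, up]

theorem lt_up (h : Fn) (p : ℕ) : h < up h p := by
  rw [up, lt_update_self_iff]
  omega

theorem pk_up {h : Fn} {p : ℕ} (hp : 0 < p) (hv : val h p) : pk (up h p) p := by
  unfold pk val at *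
  rw [up_of_ne h (show p - 1 ≠ p by omega), up_of_ne h (show p + 1 ≠ p by omega), up_self]
  omega

theorem val_dn {h : Fn} {p : ℕ} (hp : 0 < p) (hv : pk h p) : val (dn h p) p := by
  unfold pk val at *
  rw [dn_of_ne h (show p - 1 ≠ p by omega), dn_of_ne h (show p + 1 ≠ p by omega), dn_self]
  omega

theorem update_mem_W {N p : ℕ} {h : Fn} {c : ℤ} (hh : h ∈ W N) (hp : 0 < p) (hN : p < N)
    (h1 : c = h (p - 1) + 1 ∨ c = h (p - 1) - 1) (h2 : c = h (p + 1) + 1 ∨ c = h (p + 1) - 1) :
    update h p c ∈ W N := by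
  refine mem_W.2 ⟨by rw [update_of_ne (by omega), W_zero hh], fun i hi => ?_, fun i hi => ?_⟩
  · by_cases e1 : i = p
    · rw [update_of_ne (by omega), e1, update_self]
      omega
    · by_cases e2 : i + 1 = p
      · rw [update_of_ne e1, e2, update_self, show i = p - 1 by omega]
        exact h1
      · rw [update_of_ne e1, update_of_ne e2]
        exact W_step hh hi
  · rw [update_of_ne (by omega), W_after hh hi]

theorem up_mem_W {N p : ℕ} {h : Fn} (hh : h ∈ W N) (hp : 0 < p) (hN : p < N) (hv : val h p) :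
    up h p ∈ W N := update_mem_W hh hp hN (by have := hv.1; omega) (by have := hv.2; omega)

theorem dn_mem_W {N p : ℕ} {h : Fn} (hh : h ∈ W N) (hp : 0 < p) (hN : p < N) (hv : pk h p) :
    dn h p ∈ W N := update_mem_W hh hp hN (by have := hv.1; omega) (by have := hv.2; omega)

/-- The members of `X` in `U`. -/
noncomputable def sec (U : Set Fn) (X : Finset Fn) : Finset Fn := X.filter (· ∈ U)

theorem mem_sec {U : Set Fn} {X : Finset Fn} {h : Fn} : h ∈ sec U X ↔ h ∈ X ∧ h ∈ U := mem_filter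

theorem sec_subset (U : Set Fn) (X : Finset Fn) : sec U X ⊆ X := filter_subset _ _

/-- `U` is an upper set avoiding `A` and containing everything strictly above a member of `A`. -/
structure Cut (A : Finset Fn) (U : Set Fn) : Prop where
  upper : IsUpperSet U
  disj : ∀ g ∈ A, g ∉ U
  above : ∀ g ∈ A, ∀ h, g < h → h ∈ U

theorem Cut.mono {A A' : Finset Fn} {U : Set Fn} (h : Cut A U) (hA : A' ⊆ A) : Cut A' U :=
  ⟨h.upper, fun g hg => h.disj g (hA hg), fun g hg => h.above g (hA hg)⟩

theorem exists_cut {A : Finset Fn} (hA : ∀ g ∈ A, ∀ h ∈ A, g ≤ h → g = h) : ∃ U, Cut A U :=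
  ⟨{h | ∃ g ∈ A, g < h}, fun _ _ hle ⟨g, hg, hlt⟩ => ⟨g, hg, hlt.trans_le hle⟩,
    fun g hg ⟨g', hg', hlt⟩ => hlt.ne (hA g' hg' g hg hlt.le), fun g hg _ hlt => ⟨g, hg, hlt⟩⟩

/-- Closed under turning valleys at places of `S` into peaks. -/
def UpC (X : Finset Fn) (S : Finset ℕ) : Prop := ∀ h ∈ X, ∀ p ∈ S, val h p → up h p ∈ X

/-- Closed under turning peaks at places of `S` into valleys. -/
def DnC (X : Finset Fn) (S : Finset ℕ) : Prop := ∀ h ∈ X, ∀ p ∈ S, pk h p → dn h p ∈ X

/-- The weighted number of valleys. -/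
noncomputable def Val (ω : ℕ → ℝ) (S : Finset ℕ) (h : Fn) : ℝ :=
  ∑ p ∈ S, if val h p then ω p else 0

/-- The weighted number of peaks minus the weighted number of valleys. -/
noncomputable def G (ω : ℕ → ℝ) (S : Finset ℕ) (h : Fn) : ℝ :=
  ∑ p ∈ S, ω p * (2 * (h p : ℝ) - h (p - 1) - h (p + 1)) / 2

/-- The tent on `[b, b + l]` with top at `b + k`. -/
noncomputable def tent (b l k p : ℕ) : ℝ :=
  min (((p : ℝ) - b) * ((l : ℝ) - k)) (((b : ℝ) + l - p) * k)

/-- The number of steps `-ε` among the `L₁` steps before `q` times the number of steps `ε` among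
the `L₂` steps after `q`. -/
noncomputable def uu (ε : ℤ) (q L₁ L₂ : ℕ) (h : Fn) : ℝ :=
  ((L₁ : ℝ) - ε * ((h q : ℝ) - h (q - L₁))) / 2 * (((L₂ : ℝ) + ε * ((h (q + L₂) : ℝ) - h q)) / 2)

/-- Typical walks. -/
def Good (N : ℕ) (z H : ℝ) (h : Fn) : Prop :=
  (∀ i j, i ≤ j → j ≤ N → ((h j : ℝ) - h i) ^ 2 ≤ 2 * z * ((j : ℝ) - i)) ∧
    ∀ b l k, b + l ≤ N → k ≤ l →
      (k : ℝ) * ((l : ℝ) - k) * ((l : ℝ) / 8 - H) ≤ Val (tent b l k) (Ioo b (b + l)) h

/-- Atypical walks. -/
noncomputable def bad (N : ℕ) (z H : ℝ) : Finset Fn := (W N).filter fun h => ¬Good N z H h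

theorem mem_bad {N : ℕ} {z H : ℝ} {h : Fn} : h ∈ bad N z H ↔ h ∈ W N ∧ ¬Good N z H h := mem_filter

/-- Nonnegative walks of length `a` ending at height `σ`. -/
noncomputable def bal (a : ℕ) (σ : ℤ) : Finset Fn :=
  (W a).filter fun g => (∀ i, 0 ≤ g i) ∧ g a = σ

theorem mem_bal {a : ℕ} {σ : ℤ} {g : Fn} : g ∈ bal a σ ↔ g ∈ W a ∧ (∀ i, 0 ≤ g i) ∧ g a = σ :=
  mem_filter

/-- Dyck paths of semilength `n`. -/
noncomputable def Dy (n : ℕ) : Finset Fn := bal (2 * n) 0

theorem mem_Dy {n : ℕ} {h : Fn} : h ∈ Dy n ↔ h ∈ W (2 * n) ∧ (∀ i, 0 ≤ h i) ∧ h (2 * n) = 0 :=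
  mem_bal

/-- The area below a walk. -/
def ar (N : ℕ) (h : Fn) : ℤ := ∑ i ∈ range N, h i

/-- Dyck paths of given area. -/
noncomputable def lev (n : ℕ) (k : ℤ) : Finset Fn := (Dy n).filter fun h => ar (2 * n) h = k

theorem mem_lev {n : ℕ} {k : ℤ} {h : Fn} : h ∈ lev n k ↔ h ∈ Dy n ∧ ar (2 * n) h = k := mem_filter

/-- Dyck paths that are low at the place `q`. -/
noncomputable def low (n q : ℕ) (b : ℤ) : Finset Fn := (Dy n).filter fun h => h q ≤ b

theorem mem_low {n q : ℕ} {b : ℤ} {h : Fn} : h ∈ low n q b ↔ h ∈ Dy n ∧ h q ≤ b := mem_filter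

end Pool.Agent.P.MP_e6a929_co.AS
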