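import Pool.Agent.P.MP_e6a929_co.AS.Base

/-! Layers of the discrete orthant, fibres of walks over sites, and the parameters. -/

namespace Pool.Agent.P.MP_e6a929_co.AS

open Finset Function

open scoped Classical

/-- The first `a` steps of a walk. -/
def pfx (a : ℕ) (h : Fn) : Fn := fun i => if i ≤ a then h i else 0

/-- The last `a` steps of a walk of length `N`, read backwards. -/
def sfx (N a : ℕ) (h : Fn) : Fn := fun i => if i ≤ a then h (N - i) else 0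

theorem pfx_mem_W {N a : ℕ} {h : Fn} (hh : h ∈ W N) (ha : a ≤ N) : pfx a h ∈ W a := by
  refine mem_W.2 ⟨by simp [pfx, W_zero hh], fun i hi => ?_, fun i hi => if_neg (by omega)⟩
  unfold pfx
  rw [if_pos (by omega), if_pos hi.le]
  exact W_step hh (by omega)

theorem sfx_mem_W {N a : ℕ} {h : Fn} (hh : h ∈ W N) (h0 : h N = 0) (ha : a ≤ N) :
    sfx N a h ∈ W a := by
  refine mem_W.2 ⟨by simp [sfx, h0], fun i hi => ?_, fun i hi => if_neg (by omega)⟩
  unfold sfx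
  rw [if_pos (by omega), if_pos hi.le]
  have := W_step hh (show N - (i + 1) < N by omega)
  rw [show N - (i + 1) + 1 = N - i by omega] at this
  omega

/-- One step up in the coordinate `j`. -/
def inc (x : ℕ → ℕ) (j : ℕ) : ℕ → ℕ := update x j (x j + 1)

/-- One step down in the coordinate `j`. -/
def dec (x : ℕ → ℕ) (j : ℕ) : ℕ → ℕ := update x j (x j - 1)

theorem inc_self (x : ℕ → ℕ) (j : ℕ) : inc x j j = x j + 1 := update_self ..

theorem inc_of_ne (x : ℕ → ℕ) {j i : ℕ} (e : i ≠ j) : inc x j i = x i := update_of_ne e ..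

theorem dec_self (x : ℕ → ℕ) (j : ℕ) : dec x j j = x j - 1 := update_self ..

theorem dec_of_ne (x : ℕ → ℕ) {j i : ℕ} (e : i ≠ j) : dec x j i = x i := update_of_ne e ..

theorem dec_inc (x : ℕ → ℕ) (j : ℕ) : dec (inc x j) j = x := by simp [dec, inc]

theorem inc_dec {x : ℕ → ℕ} {j : ℕ} (h : 0 < x j) : inc (dec x j) j = x := by
  simp [dec, inc, Nat.sub_add_cancel h]

theorem inc_comm (x : ℕ → ℕ) (i j : ℕ) : inc (inc x i) j = inc (inc x j) i := by
  funext k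
  unfold inc
  by_cases h1 : k = i <;> by_cases h2 : k = j <;> by_cases h3 : i = j <;>
    simp_all [eq_comm]

theorem le_inc (x : ℕ → ℕ) (j i : ℕ) : x i ≤ inc x j i ∧ inc x j i ≤ x i + 1 := by
  by_cases e : i = j
  · rw [e, inc_self]
    omega
  · rw [inc_of_ne x e]
    omega

/-- Vectors supported in `s` with sum `t`. -/
def lay (s : Finset ℕ) (t : ℕ) : Finset (ℕ → ℕ) := s.piAntidiag t

theorem mem_lay {s : Finset ℕ} {t : ℕ} {x : ℕ → ℕ} :
    x ∈ lay s t ↔ ∑ j ∈ s, x j = t ∧ ∀ j, x j ≠ 0 → j ∈ s := mem_piAntidiag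

theorem le_of_mem_lay {s : Finset ℕ} {t : ℕ} {x : ℕ → ℕ} (h : x ∈ lay s t) (j : ℕ) : x j ≤ t := by
  obtain ⟨h1, h2⟩ := mem_lay.1 h
  by_cases e : x j = 0
  · omega
  · exact h1 ▸ single_le_sum (fun _ _ => Nat.zero_le _) (h2 j e)

theorem sum_inc {s : Finset ℕ} {j : ℕ} (x : ℕ → ℕ) (hj : j ∈ s) :
    ∑ i ∈ s, inc x j i = ∑ i ∈ s, x i + 1 := by
  rw [← add_sum_erase s _ hj, ← add_sum_erase s x hj, inc_self,
    sum_congr rfl fun i hi => inc_of_ne x (ne_of_mem_erase hi)]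
  omega

theorem inc_mem_lay {s : Finset ℕ} {t j : ℕ} {x : ℕ → ℕ} (h : x ∈ lay s t) (hj : j ∈ s) :
    inc x j ∈ lay s (t + 1) := by
  obtain ⟨h1, h2⟩ := mem_lay.1 h
  refine mem_lay.2 ⟨by rw [sum_inc x hj, h1], fun i hi => ?_⟩
  by_cases e : i = j
  · rwa [e]
  · exact h2 i (by rwa [inc_of_ne x e] at hi)

theorem dec_mem_lay {s : Finset ℕ} {t j : ℕ} {x : ℕ → ℕ} (h : x ∈ lay s (t + 1)) (hj : 0 < x j) :
    dec x j ∈ lay s t := by
  obtain ⟨h1, h2⟩ := mem_lay.1 h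
  refine mem_lay.2 ⟨?_, fun i hi => ?_⟩
  · have := sum_inc (dec x j) (h2 j hj.ne')
    rw [inc_dec hj] at this
    omega
  · by_cases e : i = j
    · exact e ▸ h2 j hj.ne'
    · exact h2 i (by rwa [dec_of_ne x e] at hi)

theorem lay_nonempty {s : Finset ℕ} (hs : s.Nonempty) (t : ℕ) : (lay s t).Nonempty := by
  obtain ⟨j, hj⟩ := hs
  induction t with
  | zero => exact ⟨0, mem_lay.2 ⟨by simp, by simp⟩⟩
  | succ t ih => exact ⟨_, inc_mem_lay ih.choose_spec hj⟩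

/-- Double counting of covers between two layers. -/
theorem sum_lay_inc (s : Finset ℕ) (t : ℕ) (F : (ℕ → ℕ) → ℕ → ℝ) :
    ∑ x ∈ lay s t, ∑ j ∈ s, F x j =
      ∑ z ∈ lay s (t + 1), ∑ j ∈ s.filter fun j => 0 < z j, F (dec z j) j := by
  simp only [sum_filter]
  rw [sum_comm, sum_comm (s := lay s (t + 1))]
  refine sum_congr rfl fun j hj => ?_
  rw [← sum_filter]
  refine sum_bij' (fun x _ => inc x j) (fun z _ => dec z j) (fun x hx => ?_) (fun z hz => ?_)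
    (fun x _ => dec_inc x j) (fun z hz => inc_dec (mem_filter.1 hz).2) fun x _ => by rw [dec_inc]
  · exact mem_filter.2 ⟨inc_mem_lay hx hj, by rw [inc_self]; omega⟩
  · exact dec_mem_lay (mem_filter.1 hz).1 (mem_filter.1 hz).2

/-- The average over the steps down. -/
noncomputable def dav (s : Finset ℕ) (w : ℕ → ℝ) (u : (ℕ → ℕ) → ℝ) (z : ℕ → ℕ) : ℝ :=
  (∑ p ∈ s.filter fun p => 0 < z p, w p * u (dec z p)) / ∑ p ∈ s.filter fun p => 0 < z p, w p

/-- The generator of the up-down chain. -/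
noncomputable def gen (s : Finset ℕ) (w : ℕ → ℝ) (r : ℕ → (ℕ → ℕ) → ℝ) (u : (ℕ → ℕ) → ℝ)
    (x : ℕ → ℕ) : ℝ := ∑ j ∈ s, w j * r j x * (dav s w u (inc x j) - u x)

/-- The density of `U` in `X`. -/
noncomputable def dens (U : Set Fn) (X : Finset Fn) : ℝ := (sec U X).card / X.card

/-- The geometry: `M` free blocks of length `2 μ` between two end blocks of length `a`, and a
barrier `β`. -/
structure Geo where
  M : ℕ
  μ : ℕ
  a : ℕ
  β : ℕ

namespace Geo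

variable (g : Geo)

/-- The semilength. -/
def n : ℕ := g.a + g.M * g.μ

/-- The sites. -/
def q (j : ℕ) : ℕ := g.a + 2 * g.μ * j

/-- The fibre over `x`. -/
noncomputable def fib (x : ℕ → ℕ) : Finset Fn :=
  (W (2 * g.n)).filter fun h => h (2 * g.n) = 0 ∧ (∀ i ≤ g.a, 0 ≤ h i) ∧
    (∀ i, g.q g.M ≤ i → 0 ≤ h i) ∧ ∀ j ≤ g.M, h (g.q j) = g.β + 2 * (x j : ℤ)

/-- The ratio for a free block. -/
noncomputable def al (d : ℝ) : ℝ := (g.μ - d) / (g.μ + d + 1)

/-- The ratio for an end block. -/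
noncomputable def bb (u : ℕ) : ℝ :=
  ((g.a : ℝ) - (g.β + 2 * u)) * (g.β + 2 * u + 3) / ((g.a + (g.β + 2 * u) + 4) * (g.β + 2 * u + 1))

noncomputable def lf (j : ℕ) (x : ℕ → ℕ) : ℝ :=
  if j = 0 then g.bb (x 0) else g.al ((x j : ℝ) - x (j - 1))

noncomputable def rt (j : ℕ) (x : ℕ → ℕ) : ℝ :=
  if j = g.M then g.bb (x g.M) else g.al ((x j : ℝ) - x (j + 1))

/-- The ratio of the sizes of neighbouring fibres. -/
noncomputable def r (j : ℕ) (x : ℕ → ℕ) : ℝ := g.lf j x * g.rt j x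

/-- The weights of the sites. -/
noncomputable def w (j : ℕ) : ℝ := (j : ℝ) * ((g.M : ℝ) - j) + g.a * g.M / (2 * g.μ)

/-- The vectors of total height `t`. -/
def L (t : ℕ) : Finset (ℕ → ℕ) := lay (range (g.M + 1)) t

/-- The number of walks over a layer. -/
noncomputable def Z (t : ℕ) : ℝ := ∑ x ∈ g.L t, ((g.fib x).card : ℝ)

/-- The truncated heights at the two extreme sites. -/
def pot (R : ℕ) (x : ℕ → ℕ) : ℕ := min (x 0) R + min (x g.M) R

variable {g}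

theorem mem_fib {x : ℕ → ℕ} {h : Fn} : h ∈ g.fib x ↔ h ∈ W (2 * g.n) ∧ h (2 * g.n) = 0 ∧
    (∀ i ≤ g.a, 0 ≤ h i) ∧ (∀ i, g.q g.M ≤ i → 0 ≤ h i) ∧
      ∀ j ≤ g.M, h (g.q j) = g.β + 2 * (x j : ℤ) := mem_filter

theorem fib_subset (x : ℕ → ℕ) : g.fib x ⊆ W (2 * g.n) := filter_subset _ _

theorem q_zero : g.q 0 = g.a := by simp [q]

theorem q_succ (j : ℕ) : g.q (j + 1) = g.q j + 2 * g.μ := by
  unfold q
  ring

theorem q_M : g.q g.M + g.a = 2 * g.n := by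
  unfold q n
  ring

theorem q_mono {i j : ℕ} (h : i ≤ j) : g.q i ≤ g.q j :=
  Nat.add_le_add_left (Nat.mul_le_mul_left _ h) _

theorem q_le {j : ℕ} (h : j ≤ g.M) : g.a ≤ g.q j ∧ g.q j + g.a ≤ 2 * g.n := by
  have := q_mono (g := g) h
  have := q_mono (g := g) j.zero_le
  have := q_M (g := g)
  have := q_zero (g := g)
  omega

/-- A place strictly between two neighbouring sites is not a site. -/
theorem q_ne {j p : ℕ} (h1 : g.q j < p) (h2 : p < g.q (j + 1)) (k : ℕ) : g.q k ≠ p := by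
  rcases le_or_gt k j with e | e
  · have := q_mono (g := g) e
    omega
  · have := q_mono (g := g) (show j + 1 ≤ k from e)
    omega

theorem update_mem_fib {x : ℕ → ℕ} {h : Fn} {j p : ℕ} {c : ℤ} (hh : h ∈ g.fib x) (hj : j < g.M)
    (hp : p ∈ Ioo (g.q j) (g.q (j + 1))) (hW : 0 < p → p < 2 * g.n → update h p c ∈ W (2 * g.n)) :
    update h p c ∈ g.fib x := by
  obtain ⟨-, h1, h2, h3, h4⟩ := mem_fib.1 hh
  obtain ⟨p1, p2⟩ := mem_Ioo.1 hp
  have e1 := q_le (g := g) hj.le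
  have e2 := q_le (g := g) (show j + 1 ≤ g.M from hj)
  have e3 := q_mono (g := g) (show j + 1 ≤ g.M from hj)
  refine mem_fib.2 ⟨hW (by omega) (by omega), by rwa [update_of_ne (by omega)], fun i hi => ?_,
    fun i hi => ?_, fun k hk => ?_⟩
  · rw [update_of_ne (by omega)]
    exact h2 i hi
  · rw [update_of_ne (by omega)]
    exact h3 i hi
  · rw [update_of_ne (q_ne p1 p2 k)]
    exact h4 k hk

theorem fib_upC (x : ℕ → ℕ) {j : ℕ} (hj : j < g.M) :
    UpC (g.fib x) (Ioo (g.q j) (g.q (j + 1))) := fun _ hh _ hp hv =>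
  update_mem_fib hh hj hp fun h1 h2 => up_mem_W (fib_subset x hh) h1 h2 hv

theorem fib_dnC (x : ℕ → ℕ) {j : ℕ} (hj : j < g.M) :
    DnC (g.fib x) (Ioo (g.q j) (g.q (j + 1))) := fun _ hh _ hp hv =>
  update_mem_fib hh hj hp fun h1 h2 => dn_mem_W (fib_subset x hh) h1 h2 hv

theorem rz_mem_fib_aux {x x' : ℕ → ℕ} {h : Fn} {j i i' : ℕ} {ε : ℤ} (hh : h ∈ g.fib x)
    (hj : j < g.M) (h1 : i < g.q j) (h2 : g.q j ≤ i') (h3 : i' < g.q (j + 1))
    (h4 : j = 0 → i + 1 = g.a) (h5 : 0 < j → g.q (j - 1) ≤ i) (s1 : h (i + 1) = h i - ε)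
    (s2 : h (i' + 1) = h i' + ε) (e1 : (x' j : ℤ) = x j + ε) (e2 : ∀ k, k ≠ j → x' k = x k) :
    rz h i i' (2 * ε) ∈ g.fib x' := by
  obtain ⟨hW, f1, f2, f3, f4⟩ := mem_fib.1 hh
  have a1 := q_le (g := g) hj.le
  have a2 := q_le (g := g) (show j + 1 ≤ g.M from hj)
  have a3 := q_mono (g := g) (show j + 1 ≤ g.M from hj)
  have a4 := q_zero (g := g)
  refine mem_fib.2 ⟨rz_mem_W hW (by omega) s1 s2, ?_, fun p hp => ?_, fun p hp => ?_,
    fun k hk => ?_⟩
  · unfold rz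
    rwa [if_neg (by omega)]
  · unfold rz
    split_ifs with c
    · rcases Nat.eq_zero_or_pos j with rfl | hj0
      · have := f4 0 hj.le
        have := h4 rfl
        rw [show p = g.q 0 by omega]
        omega
      · have := h5 hj0
        have := q_le (g := g) (show j - 1 ≤ g.M by omega)
        omega
    · exact f2 p hp
  · unfold rz
    rw [if_neg (by omega)]
    exact f3 p hp
  · unfold rz
    rcases lt_trichotomy k j with e | rfl | e
    · have := h5 (by omega)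
      have := q_mono (g := g) (show k ≤ j - 1 by omega)
      rw [if_neg (by omega), e2 k e.ne, f4 k hk]
    · rw [if_pos ⟨h1, h2⟩, f4 k hk, e1]
      ring
    · have := q_mono (g := g) (show j + 1 ≤ k from e)
      rw [if_neg (by omega), e2 k e.ne', f4 k hk]

/-- Raising a segment around the site `j`. -/
theorem rz_up_mem_fib {x : ℕ → ℕ} {h : Fn} {j i i' : ℕ} (hh : h ∈ g.fib x)
    (hj : j < g.M) (h1 : i < g.q j) (h2 : g.q j ≤ i') (h3 : i' < g.q (j + 1))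
    (h4 : j = 0 → i + 1 = g.a) (h5 : 0 < j → g.q (j - 1) ≤ i) (s1 : h (i + 1) = h i - 1)
    (s2 : h (i' + 1) = h i' + 1) : rz h i i' (2 * 1) ∈ g.fib (inc x j) :=
  rz_mem_fib_aux hh hj h1 h2 h3 h4 h5 s1 s2 (by rw [inc_self]; simp) fun _ hk => inc_of_ne x hk

/-- Lowering a segment around the site `j`. -/
theorem rz_dn_mem_fib {x : ℕ → ℕ} {h : Fn} {j i i' : ℕ} (hh : h ∈ g.fib (inc x j))
    (hj : j < g.M) (h1 : i < g.q j) (h2 : g.q j ≤ i') (h3 : i' < g.q (j + 1))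
    (h4 : j = 0 → i + 1 = g.a) (h5 : 0 < j → g.q (j - 1) ≤ i) (s1 : h (i + 1) = h i - -1)
    (s2 : h (i' + 1) = h i' + -1) : rz h i i' (2 * -1) ∈ g.fib x :=
  rz_mem_fib_aux hh hj h1 h2 h3 h4 h5 s1 s2 (by rw [inc_self]; simp)
    fun _ hk => (inc_of_ne x hk).symm

/-- The choice of the parameters. -/
structure Ok (g : Geo) (y ρ : ℕ) : Prop where
  hy : 100 ≤ y
  hM : g.M = y ^ 40
  a1 : y ^ 35 * g.μ ≤ g.a
  a2 : g.a ≤ 2 * y ^ 35 * g.μ
  r1 : g.μ ≤ ρ ^ 2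
  r2 : ρ ^ 2 ≤ 2 * g.μ
  r3 : y ^ 200 ≤ ρ
  b1 : 2 * y * ρ ≤ g.β
  b2 : g.β ≤ 2 * y * ρ + 1
  par : g.β % 2 = g.a % 2

end Geo

/-- The intervals given by a Dyck path. -/
def Dh (n : ℕ) (h : Fn) : Finset (Finset (Fin n)) :=
  (univ.filter fun p : Fin n × Fin n =>
    p.1 ≤ p.2 ∧ h (p.1.val + p.2.val + 2) ≤ (p.2.val : ℤ) - p.1.val).image fun p => Icc p.1 p.2

/-- The antichain of intervals given by a Dyck path. -/
def Psi (n : ℕ) (h : Fn) : Finset (Finset (Fin n)) :=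
  (Dh n h).filter fun I => ∀ J ∈ Dh n h, J ⊆ I → J = I

end Pool.Agent.P.MP_e6a929_co.AS
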