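import Pool.Agent.P.MP_e6a929_co.AS.Geo

/-! The statements of the steps of the proof. -/

namespace Pool.Agent.P.MP_e6a929_co.AS

open Finset Function Filter

open scoped Classical

/-- The closed form of `G` for a tent. -/
noncomputable def gt (b l k : ℕ) (h : Fn) : ℝ :=
  ((l : ℝ) * ((h (b + k) : ℝ) - h b) - k * ((h (b + l) : ℝ) - h b)) / 2

-- deps:
def S_SBP : Prop := ∀ (N : ℕ) (X : Finset Fn) (S : Finset ℕ) (ω : ℕ → ℝ), X ⊆ W N →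
  (∀ p ∈ S, 0 < p ∧ p < N) → UpC X S →
    (∀ (A : Finset Fn) (U : Set Fn) (θ : Fn → ℝ), Cut A U → A ⊆ X → (∀ p ∈ S, 0 ≤ ω p) →
      (∀ h ∈ X, 0 ≤ θ h) → (∀ h ∈ X, ∀ p ∈ S, val h p → θ (up h p) = θ h) →
      ∑ h ∈ A, θ h * Val ω S h ≤ ∑ h ∈ sec U X, θ h * G ω S h) ∧
    (DnC X S → ∀ φ : Fn → ℝ, ∑ h ∈ X, G ω S h * φ h =
      ∑ h ∈ X, ∑ p ∈ S, if val h p then ω p * (φ (up h p) - φ h) else 0)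

-- deps:
def S_TENT : Prop := ∀ b l k : ℕ, k ≤ l →
  (∀ h : Fn, G (tent b l k) (Ioo b (b + l)) h = gt b l k h) ∧
  ∑ p ∈ Ioo b (b + l), tent b l k p = (k : ℝ) * ((l : ℝ) - k) * l / 2 ∧
  (∀ p ∈ Ioo b (b + l), 0 ≤ tent b l k p ∧ tent b l k p ≤ (k : ℝ) * ((l : ℝ) - k)) ∧
  tent b l k (b + k) = (k : ℝ) * ((l : ℝ) - k)

-- deps: SBP TENT
def S_BLK : Prop := ∀ (N : ℕ) (X : Finset Fn) (b l k : ℕ), X ⊆ W N → b + l ≤ N → k ≤ l →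
  UpC X (Ioo b (b + l)) →
    (∀ (A : Finset Fn) (U : Set Fn) (θ : Fn → ℝ), Cut A U → A ⊆ X → (∀ h ∈ X, 0 ≤ θ h) →
      (∀ h ∈ X, ∀ p ∈ Ioo b (b + l), val h p → θ (up h p) = θ h) →
      ∑ h ∈ A, θ h * Val (tent b l k) (Ioo b (b + l)) h ≤ ∑ h ∈ sec U X, θ h * gt b l k h) ∧
    (DnC X (Ioo b (b + l)) → ∀ φ : Fn → ℝ, ∑ h ∈ X, gt b l k h * φ h =
      ∑ h ∈ X, ∑ p ∈ Ioo b (b + l), if val h p then tent b l k p * (φ (up h p) - φ h) else 0)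

-- deps:
def S_HOEF : Prop := ∀ (N : ℕ) (c : ℕ → Fn → ℝ) (v : ℕ → ℝ) (lam V : ℝ),
  (∀ i h h', (∀ j ≤ i, h j = h' j) → c i h = c i h') → (∀ i < N, ∀ h ∈ W N, |c i h| ≤ v i) →
  0 ≤ lam → 0 < V → ∑ i ∈ range N, v i ^ 2 ≤ V →
    ((sec {h | lam ≤ ∑ i ∈ range N, c i h * ((h (i + 1) : ℝ) - h i)} (W N)).card : ℝ) ≤
      2 ^ N * Real.exp (-(lam ^ 2 / (2 * V)))

-- deps: TENT HOEF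
def S_BAD : Prop := ∀ (N : ℕ) (z H : ℝ), 0 ≤ z → 0 ≤ H → 2 * z * N ≤ H ^ 2 →
  ((bad N z H).card : ℝ) ≤ 3 * ((N : ℝ) + 1) ^ 3 * 2 ^ N * Real.exp (-z)

-- deps: BLK
def S_STG : Prop := ∀ (N : ℕ) (X : Finset Fn) (b m L : ℕ) (d e ε : ℤ) (P₁ P₂ : ℝ),
  (ε = 1 ∨ ε = -1) → X ⊆ W N → b + m + m ≤ N → L ≤ m → 0 < m →
  UpC X (Ioo b (b + m)) → DnC X (Ioo b (b + m)) →
  UpC X (Ioo (b + m) (b + m + m)) → DnC X (Ioo (b + m) (b + m + m)) →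
  (∀ h ∈ X, h (b + m) - h b = d ∧ h (b + m + m) - h (b + m) = e) →
  P₁ = L * (m - ε * d) / (2 * m) → P₂ = L * (m + ε * e) / (2 * m) →
    ∑ h ∈ X, uu ε (b + m) L L h = P₁ * P₂ * X.card ∧
    ∀ (A : Finset Fn) (U : Set Fn) (v c : ℝ), Cut A U → A ⊆ X → 0 ≤ v → c ≤ L →
      (∀ h ∈ A, v ≤ Val (tent b m (m - L)) (Ioo b (b + m)) h ∧
        v ≤ Val (tent (b + m) m L) (Ioo (b + m) (b + m + m)) h ∧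
        |(h (b + m + L) : ℝ) - h (b + m)| ≤ c) →
      v * ((L - c) / 2 + P₁) * A.card ≤
        m * ε * (∑ h ∈ sec U X, uu ε (b + m) L L h - P₁ * P₂ * (sec U X).card)

-- deps:
def S_SWAP : Prop := ∀ (N : ℕ) (X X' : Finset Fn) (q L₁ L₂ : ℕ) (ε : ℤ), (ε = 1 ∨ ε = -1) →
  X ⊆ W N → X' ⊆ W N → L₁ ≤ q → q + L₂ ≤ N →
  (∀ h ∈ X, ∀ i i', q ≤ i + L₁ → i < q → q ≤ i' → i' < q + L₂ → h (i + 1) = h i - ε →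
    h (i' + 1) = h i' + ε → rz h i i' (2 * ε) ∈ X') →
    ∑ h ∈ X, uu ε q L₁ L₂ h ≤ ∑ h ∈ X', uu (-ε) q L₁ L₂ h

-- deps:
def S_BAL : Prop :=
  (∀ σ k : ℕ, (bal (σ + 2 * k) σ).card * (σ + 2 * k + 1) = (σ + 1) * (σ + 2 * k + 1).choose k) ∧
  (∀ n : ℕ, (n + 1) * (Dy n).card = n.centralBinom) ∧
  ∀ (a : ℕ) (σ τ : ℤ), 0 ≤ σ → (σ = τ + 1 ∨ σ = τ - 1) →
    (sec {g | g a = τ} (bal (a + 1) σ)).card = (bal a τ).card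

-- deps:
def S_GL : Prop := ∀ (a N : ℕ) (σ : ℤ) (P₁ P₂ Q : Set Fn), a ≤ N →
  (∀ h h' : Fn, (∀ i ≤ a, h i = h' i) → (h ∈ P₁ → h' ∈ P₁) ∧ (h ∈ P₂ → h' ∈ P₂)) →
  (∀ h h' : Fn, (∀ i, a ≤ i → h i = h' i) → h ∈ Q → h' ∈ Q) →
  (∀ h ∈ P₁, h a = σ) → (∀ h ∈ P₂, h a = σ) →
    (sec (P₁ ∩ Q) (W N)).card * (sec P₂ (W a)).card =
      (sec (P₂ ∩ Q) (W N)).card * (sec P₁ (W a)).card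

-- deps: STG SWAP
def S_RATI : Prop := ∀ (g : Geo) (x : ℕ → ℕ) (j : ℕ), 0 < g.μ → (∀ i, x i ≤ g.μ) → 0 < j →
  j < g.M → ((g.fib (inc x j)).card : ℝ) = g.r j x * (g.fib x).card

-- deps: BLK SWAP BAL GL
def S_RATZ : Prop := ∀ (g : Geo) (x : ℕ → ℕ), 0 < g.M → 0 < g.μ → g.β % 2 = g.a % 2 →
  (∀ i, x i ≤ g.μ) → g.β + 2 * x 0 + 2 ≤ g.a →
    ((g.fib (inc x 0)).card : ℝ) = g.r 0 x * (g.fib x).card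

-- deps: RATI RATZ
def S_RAT : Prop := ∀ (g : Geo) (x : ℕ → ℕ), 0 < g.M → 0 < g.μ → g.β % 2 = g.a % 2 →
  (∀ i, x i ≤ g.μ ∧ g.β + 2 * x i + 2 ≤ g.a) →
    (∀ j ≤ g.M, ((g.fib (inc x j)).card : ℝ) = g.r j x * (g.fib x).card) ∧ (g.fib x).Nonempty

-- deps:
def S_POI : Prop := ∀ (s : Finset ℕ) (t : ℕ) (ρ : (ℕ → ℕ) → ℝ) (w : ℕ → ℝ)
  (r : ℕ → (ℕ → ℕ) → ℝ) (f : (ℕ → ℕ) → ℝ), s.Nonempty → (∀ j ∈ s, 0 < w j) →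
  (∀ x ∈ lay s t, 0 < ρ x ∧ ∀ j ∈ s, 0 < r j x ∧ ρ (inc x j) = r j x * ρ x) →
    ∃ u, ∀ x ∈ lay s t, gen s w r u x = (∑ x ∈ lay s t, ρ x * f x) / (∑ x ∈ lay s t, ρ x) - f x

-- deps: POI
def S_NM : Prop := ∀ (s : Finset ℕ) (t : ℕ) (ρ : (ℕ → ℕ) → ℝ) (w : ℕ → ℝ)
  (r : ℕ → (ℕ → ℕ) → ℝ) (f f' : (ℕ → ℕ) → ℝ), s.Nonempty → (∀ j ∈ s, 0 < w j) →
  (∀ x ∈ lay s t, 0 < ρ x ∧ ∀ j ∈ s, 0 < r j x ∧ ρ (inc x j) = r j x * ρ x) →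
  (∀ x ∈ lay s (t + 1), 0 < ρ x ∧ ∀ j ∈ s, 0 < r j x ∧ ρ (inc x j) = r j x * ρ x) →
  (∀ x ∈ lay s t, ∀ p ∈ s, (∀ j ∈ s, j ≠ p → r j x ≤ r j (inc x p)) ∧
    ∑ j ∈ s, w j * r j (inc x p) ≤ ∑ j ∈ s, w j * r j x) →
  (∀ x ∈ lay s t, ∀ j ∈ s, f x ≤ f' (inc x j)) →
    (∑ x ∈ lay s t, ρ x * f x) / (∑ x ∈ lay s t, ρ x) ≤
      (∑ x ∈ lay s (t + 1), ρ x * f' x) / ∑ x ∈ lay s (t + 1), ρ x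

/-- Bounds for the factors of the ratios and for their decrements. -/
structure Fac (g : Geo) (T : ℕ) (e : ℝ) : Prop where
  al_bd : ∀ d : ℝ, |d| ≤ T → 1 - e ≤ g.al d ∧ g.al d ≤ 1 + e
  al_dec : ∀ d : ℝ, |d| ≤ T → 2 / g.μ * (1 - e) ≤ g.al d - g.al (d + 1) ∧
    g.al d - g.al (d + 1) ≤ 2 / g.μ * (1 + e)
  bb_bd : ∀ u ≤ T, 1 - e ≤ g.bb u ∧ g.bb u ≤ 1 + e
  bb_dec : ∀ u ≤ T, 4 / g.a * (1 - e) ≤ g.bb u - g.bb (u + 1)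

-- deps:
def S_FAC : Prop := ∀ (g : Geo) (T : ℕ) (e : ℝ), e ≤ 1 → 5 * ((T : ℝ) + 1) ≤ e * g.μ →
  2 ≤ e * (g.β + 1) → 2 * ((g.β : ℝ) + 2 * T + 6) ≤ e * g.a → Fac g T e

-- deps:
def S_PHI : Prop := ∀ (g : Geo) (T : ℕ) (e : ℝ) (x : ℕ → ℕ), 0 < g.M → 0 < g.μ → 0 < g.a →
  0 ≤ e → Fac g (T + 1) e → 5 * e * (g.a * g.M / (2 * g.μ) + (g.M : ℝ) ^ 2) ≤ 1 →
  (∀ i, x i ≤ T) → (∀ j, 0 < g.r j x) ∧ ∀ p ≤ g.M,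
    (∀ j ≤ g.M, j ≠ p → g.r j x ≤ g.r j (inc x p)) ∧
    ∑ j ∈ range (g.M + 1), g.w j * g.r j (inc x p) ≤ ∑ j ∈ range (g.M + 1), g.w j * g.r j x

-- deps:
def S_LOW : Prop := ∀ (g : Geo) (T t : ℕ) (x : ℕ → ℕ), 2 ≤ g.M → 2 * g.μ ≤ g.a →
  g.M * (g.β + 2) ≤ 2 * T → 4 * (T + 1) ≤ g.μ → t ≤ T → x ∈ g.L t →
    (1 - (64 * T / (g.μ * (g.M : ℝ) ^ 3) + 4 / g.μ + 16 * ((T : ℝ) + 1) ^ 2 / (g.μ : ℝ) ^ 2)) *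
      ∑ j ∈ range (g.M + 1), g.w j ≤ ∑ j ∈ range (g.M + 1), g.w j * g.r j x

-- deps:
def S_DAY : Prop := ∀ (g : Geo) (x : ℕ → ℕ) (j : ℕ) (U : Set Fn), IsUpperSet U →
  (g.fib (inc x j)).Nonempty → dens U (g.fib x) ≤ dens U (g.fib (inc x j))

-- deps: STG SWAP
def S_MIC : Prop := ∀ (g : Geo) (x : ℕ → ℕ) (j T L : ℕ) (z H ε : ℝ) (A : Finset Fn) (U : Set Fn),
  0 < j → j < g.M → (∀ i, x i ≤ T) → 0 < L → 0 ≤ z → ε ≤ 1 / 5 →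
  4 * z * g.μ ≤ (g.β : ℝ) ^ 2 → (g.β : ℝ) ≤ 2 * ε * L → (L : ℝ) ≤ 2 * ε * g.μ →
  4 * H ≤ ε * g.μ → (T : ℝ) + 1 ≤ ε * g.μ → Cut A U → (∀ h ∈ A, Good (2 * g.n) z H h) →
  (g.fib x).Nonempty → (g.fib (inc x j)).Nonempty →
    dens U (g.fib x) + g.μ * (1 - 5 * ε) * dens A (g.fib x) ≤
      dens U (g.fib (inc x j)) - g.μ * (1 - 5 * ε) * dens A (g.fib (inc x j))

-- deps: TENT BLK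
def S_FIB : Prop := ∀ (g : Geo) (x : ℕ → ℕ) (z H : ℝ) (A : Finset Fn) (U : Set Fn),
  8 * H ≤ g.μ → Cut A U → (∀ h ∈ A, Good (2 * g.n) z H h) →
    dens A (g.fib x) ^ 2 * (g.M * (g.μ : ℝ) ^ 3) ≤ 128

-- deps:
def S_WIN : Prop := ∀ (g : Geo) (t D b : ℕ) (z H Λ : ℝ), 0 ≤ z → 4 * z * g.μ ≤ (g.β : ℝ) ^ 2 →
  2 * z * g.a ≤ (b : ℝ) ^ 2 → g.μ ≤ g.a → (∀ k, ((lev g.n k).card : ℝ) ≤ Λ) →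
    ∑ s ∈ Ico t (t + D), g.Z s ≤
      (2 * g.μ * D + 2 * g.n * g.β + 2 * g.a * b + 1) * Λ + (bad (2 * g.n) z H).card

-- deps: BLK
def S_ROUGH : Prop := ∀ (n q : ℕ) (b : ℤ) (z H : ℝ) (A : Finset Fn) (U : Set Fn), 3 ≤ n →
  0 ≤ z → 0 ≤ H → 4 * z * n ≤ H ^ 2 → 16 * H ≤ n → Cut A U → A ⊆ low n q b →
  (∀ h ∈ A, Good (2 * n) z H h) →
    (A.card : ℝ) * (n : ℝ) ^ 2 ≤ 40 * H * (low n q b).card + 80 * n * (bad (2 * n) z H).card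

-- deps:
def S_BIN : Prop := (∀ k i : ℕ, k.choose i ^ 2 * k ≤ 4 ^ k) ∧
  ∀ n : ℕ, 16 ^ n ≤ 4 * (n + 1) * n.centralBinom ^ 2

-- deps: BAL BIN
def S_WCNT : Prop := ∀ n q b s : ℕ, s ^ 2 ≤ q → q + s ^ 2 ≤ 2 * n →
  (low n q b).card * s ^ 3 ≤ 8 * (b + 1) ^ 3 * (Dy n).card

-- deps: BAL
def S_LAM : Prop := ∀ (n H : ℕ) (z Λ : ℝ), 0 ≤ z → 4 * z * n ≤ (H : ℝ) ^ 2 →
  (∀ k, ((lev n k).card : ℝ) ≤ Λ) →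
    ((Dy n).card : ℝ) ≤ (2 * n * H + 1) * Λ + (bad (2 * n) z H).card ∧
      4 ^ n ≤ (2 * n + 1) ^ 2 * (Dy n).card

/-- Numerical consequences of the choice of the parameters. -/
structure Num (g : Geo) (y ρ : ℕ) : Prop where
  M2 : 2 ≤ g.M
  mu0 : 0 < g.μ
  rho0 : 0 < ρ
  mua : 2 * g.μ ≤ g.a
  Mn : y * (g.M + 1) ≤ g.n
  rat : g.β + 2 * (8 * y ^ 61 * ρ) + 2 ≤ g.a
  low1 : g.M * (g.β + 2) ≤ 2 * (8 * y ^ 61 * ρ)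
  low2 : y * (4 * (8 * y ^ 61 * ρ + 1)) ≤ g.μ
  top1 : (g.M + 1) * (3 * y ^ 21 * ρ) ≤ 6 * y ^ 61 * ρ
  top2 : 6 * y ^ 61 * ρ + y ^ 56 * ρ + 2 ≤ 8 * y ^ 61 * ρ
  fac1 : 10 * y ^ 80 * (5 * (8 * y ^ 61 * ρ + 1)) ≤ g.μ
  fac2 : 10 * y ^ 80 * 2 ≤ g.β + 1
  fac3 : 10 * y ^ 80 * (2 * (g.β + 2 * (8 * y ^ 61 * ρ) + 6)) ≤ g.a
  fac4 : g.a * g.M ≤ 2 * g.μ * y ^ 80
  mic1 : 4 * y ^ 2 * g.μ ≤ g.β ^ 2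
  mic2 : g.β ≤ 3 * y * ρ
  mic3 : y * (2 * y ^ 2 * ρ) ≤ 2 * g.μ
  mic4 : y * (4 * (3 * y ^ 21 * ρ)) ≤ g.μ
  win1 : 2 * y ^ 2 * g.a ≤ (2 * y ^ 19 * ρ) ^ 2
  win2 : y * (2 * g.n * g.β + 2 * g.a * (2 * y ^ 19 * ρ) + 1) ≤ 2 * g.μ * (y ^ 56 * ρ)
  big1 : 4 * y ^ 2 * g.n ≤ (3 * y ^ 21 * ρ) ^ 2
  big2 : 16 * (3 * y ^ 21 * ρ) ≤ g.n
  rgh1 : (y ^ 17 * ρ) ^ 2 ≤ g.a
  rgh2 : y * ((g.M + 1) * (40 * (3 * y ^ 21 * ρ) * (8 * (g.β + 1) ^ 3 *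
    (2 * (2 * g.n * (3 * y ^ 21 * ρ) + 1))))) ≤ (y ^ 17 * ρ) ^ 3 * g.n ^ 2
  eta : (y : ℝ) * ((y : ℝ) ^ 56 * ρ * (64 * (8 * (y : ℝ) ^ 61 * ρ) / (g.μ * (g.M : ℝ) ^ 3) +
    4 / g.μ + 16 * (8 * (y : ℝ) ^ 61 * ρ + 1) ^ 2 / (g.μ : ℝ) ^ 2)) ≤ 1

-- deps:
def S_NUM : Prop := ∀ (g : Geo) (y ρ : ℕ), g.Ok y ρ → Num g y ρ

-- deps: NUM RAT NM FAC PHI
def S_NMG : Prop := ∀ (g : Geo) (y ρ t : ℕ) (f f' : (ℕ → ℕ) → ℝ), g.Ok y ρ →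
  t ≤ 6 * y ^ 61 * ρ → (∀ x ∈ g.L t, ∀ j ≤ g.M, f x ≤ f' (inc x j)) →
    0 < g.Z t ∧ (∑ x ∈ g.L t, (g.fib x).card * f x) / g.Z t ≤
      (∑ x ∈ g.L (t + 1), (g.fib x).card * f' x) / g.Z (t + 1)

-- deps: NUM RAT DAY MIC FIB
def S_COV : Prop := ∀ (g : Geo) (y ρ : ℕ) (A : Finset Fn) (U : Set Fn) (c ν : ℝ), g.Ok y ρ →
  Cut A U → (∀ h ∈ A, h ∈ W (2 * g.n) ∧ Good (2 * g.n) ((y : ℝ) ^ 2) (3 * y ^ 21 * ρ : ℕ) h) →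
  c = g.μ * (1 - 5 / y) → ν = 17 / ((y : ℝ) ^ 20 * g.μ * ρ) → ∀ x : ℕ → ℕ,
    dens A (g.fib x) ≤ ν ∧ ((∀ i, x i ≤ 6 * y ^ 61 * ρ) → ∀ j ≤ g.M,
      dens U (g.fib x) + 2 * c * ν * g.pot (2 * y ^ 19 * ρ) x + c * dens A (g.fib x) ≤
        dens U (g.fib (inc x j)) + 2 * c * ν * g.pot (2 * y ^ 19 * ρ) (inc x j) -
          c * dens A (g.fib (inc x j)))

-- deps: NUM NMG COV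
def S_BULK : Prop := ∀ (g : Geo) (y ρ : ℕ) (A : Finset Fn) (U : Set Fn) (Zm : ℝ), g.Ok y ρ →
  Cut A U → A ⊆ Dy g.n →
  (∀ h ∈ A, Good (2 * g.n) ((y : ℝ) ^ 2) (3 * y ^ 21 * ρ : ℕ) h ∧ ∀ j ≤ g.M, (g.β : ℤ) ≤ h (g.q j)) →
  (∀ t ≤ 6 * y ^ 61 * ρ, g.Z t ≤ Zm) →
    (A.card : ℝ) * (2 * g.μ * (1 - 5 / y)) ≤ Zm * (1 + 140 / y)

-- deps: NUM RAT LOW WIN
def S_ZMAX : Prop := ∀ (g : Geo) (y ρ t : ℕ) (H Λ : ℝ), g.Ok y ρ → t ≤ 6 * y ^ 61 * ρ →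
  (∀ k, ((lev g.n k).card : ℝ) ≤ Λ) →
    g.Z t * (1 - 1 / y) ≤ 2 * g.μ * (1 + 1 / y) * Λ + (bad (2 * g.n) ((y : ℝ) ^ 2) H).card

-- deps: NUM BAD ROUGH WCNT LAM
def S_REST : Prop := ∀ (g : Geo) (y ρ : ℕ) (Λ : ℝ), g.Ok y ρ →
  (2 * (g.n : ℝ) + 1) ^ 10 ≤ Real.exp ((y : ℝ) ^ 2) → (∀ k, ((lev g.n k).card : ℝ) ≤ Λ) →
    ((bad (2 * g.n) ((y : ℝ) ^ 2) (3 * y ^ 21 * ρ : ℕ)).card : ℝ) * g.n ≤ Λ ∧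
    ∀ (A : Finset Fn) (U : Set Fn), Cut A U → A ⊆ Dy g.n →
      (∀ h ∈ A, Good (2 * g.n) ((y : ℝ) ^ 2) (3 * y ^ 21 * ρ : ℕ) h ∧
        ∃ j ≤ g.M, h (g.q j) ≤ g.β) → (A.card : ℝ) * y ≤ 2 * Λ

-- deps: NUM BULK ZMAX REST
def S_CORE : Prop := ∀ (g : Geo) (y ρ : ℕ) (Λ : ℝ) (A : Finset Fn), g.Ok y ρ →
  (2 * (g.n : ℝ) + 1) ^ 10 ≤ Real.exp ((y : ℝ) ^ 2) → (∀ k, ((lev g.n k).card : ℝ) ≤ Λ) →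
  A ⊆ Dy g.n → (∀ h ∈ A, ∀ h' ∈ A, h ≤ h' → h = h') → (A.card : ℝ) ≤ (1 + 200 / y) * Λ

-- deps:
def S_PAR : Prop := ∀ᶠ n : ℕ in atTop, ∃ (g : Geo) (y ρ : ℕ), g.Ok y ρ ∧ g.n = n ∧
  (2 * (n : ℝ) + 1) ^ 10 ≤ Real.exp ((y : ℝ) ^ 2) ∧ n ≤ (2 * y) ^ 450

-- deps:
def S_BRA : Prop := ∀ (n : ℕ), ∀ h ∈ Dy (n + 1), Psi n h ∈ E n ∧
  rank n (Psi n h) = (Dh n h).card ∧ (∀ h' : Fn, h ≤ h' → Le (Psi n h') (Psi n h)) ∧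
    ∀ h' ∈ Dy (n + 1), Psi n h = Psi n h' → Dh n h = Dh n h'

-- deps:
def S_BRB : Prop := ∀ (n : ℕ), ∀ h ∈ Dy (n + 1),
  2 * ((Dh n h).card : ℤ) + ar (2 * (n + 1)) h = ((n : ℤ) + 1) ^ 2 ∧
    ∀ h' ∈ Dy (n + 1), Dh n h = Dh n h' → h = h'

-- deps:
def S_BRC : Prop := ∀ (n : ℕ), ∀ A ∈ E n, A = {∅} ∨ ∃ h ∈ Dy (n + 1), Psi n h = A

-- deps: BRA BRB BRC
def S_BR : Prop := ∀ n : ℕ, 1 ≤ maxLevel n ∧ maxLevel n ≤ width n ∧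
  (∀ k, (lev (n + 1) k).card ≤ maxLevel n) ∧
  (width n ≤ 1 ∨ ∃ A ⊆ Dy (n + 1), (∀ h ∈ A, ∀ h' ∈ A, h ≤ h' → h = h') ∧ A.card = width n)

-- deps: CORE PAR BR
def S_FIN : Prop := ∃ C : ℝ, ∀ n : ℕ, 0 < n → maxLevel n ≤ width n ∧
  (width n : ℝ) ≤ (1 + C / (n : ℝ) ^ (1 / 450 : ℝ)) * maxLevel n

end Pool.Agent.P.MP_e6a929_co.AS
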