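import Pool.Agent.P.MP_e6a929_co.AS.Iface

/-! Step RAT of the asymptotic Sperner project. -/

namespace Pool.Agent.P.MP_e6a929_co.AS

open Finset Function Filter

open scoped Classical

namespace RATx

open Geo

theorem q_refl (g : Geo) {j : ℕ} (hj : j ≤ g.M) : g.q j + g.q (g.M - j) = 2 * g.n := by
  obtain ⟨k, hk⟩ := Nat.exists_eq_add_of_le hj
  rw [show g.M - j = k by omega]
  unfold q n
  rw [hk]
  ring

theorem card_le (g : Geo) {x x' : ℕ → ℕ} (h : ∀ i ≤ g.M, x' i = x (g.M - i)) :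
    (g.fib x).card ≤ (g.fib x').card := by
  have qM := q_M (g := g)
  refine card_le_card_of_injOn (sfx (2 * g.n) (2 * g.n)) (fun f hf => ?_) fun f hf f' hf' e => ?_
  · obtain ⟨hW, f1, f2, f3, f4⟩ := mem_fib.1 hf
    refine mem_fib.2 ⟨sfx_mem_W hW f1 le_rfl, by simp [sfx, W_zero hW], fun i hi => ?_,
      fun i hi => ?_, fun j hj => ?_⟩ <;> unfold sfx
    · rw [if_pos (by omega)]
      exact f3 _ (by omega)
    · split_ifs
      · exact f2 _ (by omega)
      · rfl
    · have := q_refl g hj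
      rw [if_pos (by omega), h j hj, ← f4 _ (Nat.sub_le ..)]
      congr 1
      omega
  · funext i
    by_cases hi : i ≤ 2 * g.n
    · simpa [sfx, Nat.sub_sub_self hi] using congrFun e (2 * g.n - i)
    · rw [W_after (fib_subset x hf) (by omega), W_after (fib_subset x hf') (by omega)]

theorem card_eq (g : Geo) {x x' : ℕ → ℕ} (h : ∀ i ≤ g.M, x' i = x (g.M - i)) :
    (g.fib x).card = (g.fib x').card :=
  (card_le g h).antisymm (card_le g fun i hi => by rw [h _ (Nat.sub_le ..), Nat.sub_sub_self hi])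

theorem base (g : Geo) {x : ℕ → ℕ} (hp : g.β % 2 = g.a % 2) (hb : g.β ≤ g.a)
    (h : ∀ j ≤ g.M, x j = 0) : (g.fib x).Nonempty := by
  have qM := q_le (g := g) le_rfl
  refine ⟨fun i => if i ≤ g.β then i else if i + g.β ≤ 2 * g.n then g.β + ((i : ℤ) - g.β) % 2
    else if i ≤ 2 * g.n then 2 * g.n - i else 0, mem_fib.2 ⟨mem_W.2 ⟨by simp, fun i hi => ?_,
    fun i hi => ?_⟩, ?_, fun i _ => ?_, fun i _ => ?_, fun j hj => ?_⟩⟩
  rotate_right
  · have := q_le (g := g) hj
    have e : g.q j = g.a + 2 * (g.μ * j) := by rw [q, mul_assoc]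
    have := h j hj
    split_ifs <;> omega
  all_goals split_ifs <;> omega

theorem r_pos (g : Geo) {x : ℕ → ℕ} {j : ℕ} (h : ∀ i, x i ≤ g.μ ∧ g.β + 2 * x i + 2 ≤ g.a)
    (hj : x j < g.μ) : 0 < g.r j x := by
  have hb : ∀ i, 0 < g.bb (x i) := fun i => by
    have : (g.β : ℝ) + 2 * x i + 2 ≤ g.a := by exact_mod_cast (h i).2
    exact div_pos (mul_pos (by linarith) (by positivity)) (by positivity)
  have ha : ∀ i, 0 < g.al ((x j : ℝ) - x i) := fun i => by
    have h1 : (x i : ℝ) ≤ g.μ := by exact_mod_cast (h i).1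
    have h2 : (x j : ℝ) < g.μ := by exact_mod_cast hj
    have h3 : (0 : ℝ) ≤ x i := by positivity
    have h4 : (0 : ℝ) ≤ x j := by positivity
    exact div_pos (by linarith) (by linarith)
  refine mul_pos ?_ ?_
  · unfold lf
    split_ifs
    exacts [hb _, ha _]
  · unfold rt
    split_ifs
    exacts [hb _, ha _]

end RATx

open RATx Geo in
theorem p_RAT (hRATI : S_RATI) (hRATZ : S_RATZ) : S_RAT := by
  intro g x hM hμ hp hx
  have key : ∀ x : ℕ → ℕ, (∀ i, x i ≤ g.μ ∧ g.β + 2 * x i + 2 ≤ g.a) →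
      ∀ j ≤ g.M, ((g.fib (inc x j)).card : ℝ) = g.r j x * (g.fib x).card := by
    intro x hx j hj
    rcases Nat.eq_zero_or_pos j with rfl | j0
    · exact hRATZ g x hM hμ hp (fun i => (hx i).1) (hx 0).2
    rcases hj.eq_or_lt with rfl | hj
    · have e := hRATZ g (fun i => x (g.M - i)) hM hμ hp (fun i => (hx _).1) (hx _).2
      rw [card_eq g (x := x) (x' := fun i => x (g.M - i)) fun _ _ => rfl,
        card_eq g (x := inc x g.M) (x' := inc (fun i => x (g.M - i)) 0) fun i hi => ?_, e]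
      · simp [r, lf, rt, hM.ne, hM.ne', mul_comm]
      · rcases Nat.eq_zero_or_pos i with rfl | i0
        · rw [inc_self, Nat.sub_zero, inc_self]
        · rw [inc_of_ne _ i0.ne', inc_of_ne _ (by omega)]
    · exact hRATI g x j hμ (fun i => (hx i).1) j0 hj
  refine ⟨key x hx, ?_⟩
  generalize ht : ∑ j ∈ range (g.M + 1), x j = t
  induction t generalizing x with
  | zero =>
    exact base g hp (by have := (hx 0).2; omega) fun j hj =>
      sum_eq_zero_iff.1 ht j (mem_range.2 (by omega))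
  | succ t ih =>
    obtain ⟨j, hj, h0⟩ := exists_ne_zero_of_sum_ne_zero (ht.trans_ne t.succ_ne_zero)
    have h1 := inc_dec (Nat.pos_of_ne_zero h0)
    have h2 : ∀ i, dec x j i ≤ g.μ ∧ g.β + 2 * dec x j i + 2 ≤ g.a := fun i => by
      have := (le_inc (dec x j) j i).1
      have := hx i
      rw [h1] at *
      omega
    have h3 := sum_inc (dec x j) hj
    have h4 := key _ h2 j (by have := mem_range.1 hj; omega)
    rw [h1] at h3 h4
    have h5 := card_pos.2 (ih _ h2 (by omega))
    have h6 := r_pos g h2 (j := j) (by have := (hx j).1; rw [dec_self]; omega)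
    refine card_pos.1 (Nat.cast_pos (α := ℝ).1 ?_)
    rw [h4]
    positivity

end Pool.Agent.P.MP_e6a929_co.AS
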