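import Pool.Agent.P.MP_e6a929_co.AS.Iface

/-! Step SBP of the asymptotic Sperner project. -/

namespace Pool.Agent.P.MP_e6a929_co.AS

open Finset Function Filter

open scoped Classical

namespace SBPx

theorem gp {N p : ℕ} {h : Fn} (hh : h ∈ W N) (hp : 0 < p) (hN : p < N) (c : ℝ) :
    c * (2 * (h p : ℝ) - h (p - 1) - h (p + 1)) / 2 =
      (if pk h p then c else 0) - (if val h p then c else 0) := by
  have h1 := W_step hh (show p - 1 < N by omega)
  have h2 := W_step hh hN
  rw [show p - 1 + 1 = p by omega] at h1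
  unfold pk val
  rcases h1 with h1 | h1 <;> rcases h2 with h2 | h2
  · have e1 : h (p - 1) = h p - 1 := by omega
    rw [if_neg (by omega), if_neg (by omega), e1, h2]
    push_cast
    ring
  · have e1 : h (p - 1) = h p - 1 := by omega
    rw [if_pos (by omega), if_neg (by omega), e1, h2]
    push_cast
    ring
  · have e1 : h (p - 1) = h p + 1 := by omega
    rw [if_neg (by omega), if_pos (by omega), e1, h2]
    push_cast
    ring
  · have e1 : h (p - 1) = h p + 1 := by omega
    rw [if_neg (by omega), if_neg (by omega), e1, h2]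
    push_cast
    ring

theorem key {X : Finset Fn} {p : ℕ} (hp : 0 < p) (hU : ∀ h ∈ X, val h p → up h p ∈ X)
    (ψ : Fn → ℝ) (hψ : ∀ h ∈ X, 0 ≤ ψ h) :
    ∑ h ∈ X, (if val h p then ψ (up h p) else 0) ≤ ∑ h ∈ X, if pk h p then ψ h else 0 := by
  rw [← sum_filter, ← sum_filter]
  have inj : Set.InjOn (fun h : Fn => up h p) (X.filter fun h => val h p) := by
    intro g _ g' _ e
    have := congrArg (fun h => dn h p) e
    simpa [dn_up] using this
  rw [← sum_image (f := ψ) inj]
  refine sum_le_sum_of_subset_of_nonneg (fun h hh => ?_) fun h hh _ => hψ h (mem_filter.1 hh).1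
  obtain ⟨g, hg, rfl⟩ := mem_image.1 hh
  obtain ⟨g1, g2⟩ := mem_filter.1 hg
  exact mem_filter.2 ⟨hU g g1 g2, pk_up hp g2⟩

theorem keyeq {X : Finset Fn} {p : ℕ} (hp : 0 < p) (hU : ∀ h ∈ X, val h p → up h p ∈ X)
    (hD : ∀ h ∈ X, pk h p → dn h p ∈ X) (ψ : Fn → ℝ) :
    ∑ h ∈ X, (if val h p then ψ (up h p) else 0) = ∑ h ∈ X, if pk h p then ψ h else 0 := by
  rw [← sum_filter, ← sum_filter]
  refine sum_bij' (fun h _ => up h p) (fun h _ => dn h p) (fun h hh => ?_) (fun h hh => ?_)
    (fun h _ => dn_up h p) (fun h _ => up_dn h p) fun _ _ => rfl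
  · obtain ⟨g1, g2⟩ := mem_filter.1 hh
    exact mem_filter.2 ⟨hU h g1 g2, pk_up hp g2⟩
  · obtain ⟨g1, g2⟩ := mem_filter.1 hh
    exact mem_filter.2 ⟨hD h g1 g2, val_dn hp g2⟩

end SBPx

theorem p_SBP : S_SBP := by
  intro N X S ω hX hS hU
  have hG : ∀ h ∈ X, ∀ c : ℝ, G ω S h * c =
      ∑ p ∈ S, ((if pk h p then ω p * c else 0) - (if val h p then ω p * c else 0)) := by
    intro h hh c
    unfold G
    rw [sum_mul]
    refine sum_congr rfl fun p hp => ?_
    rw [← SBPx.gp (hX hh) (hS p hp).1 (hS p hp).2]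
    ring
  refine ⟨fun A U θ hC hA hω hθ hinv => ?_, fun hD φ => ?_⟩
  · set ψ : Fn → ℝ := fun h => if h ∈ U then θ h else 0 with hψ
    have e1 : ∑ h ∈ sec U X, θ h * G ω S h = ∑ h ∈ X, G ω S h * ψ h := by
      unfold sec
      rw [sum_filter]
      refine sum_congr rfl fun h _ => ?_
      simp only [hψ]
      split_ifs <;> ring
    rw [e1, sum_congr rfl fun h hh => hG h hh (ψ h), sum_comm]
    simp only [Val, mul_sum]
    rw [sum_comm]
    refine sum_le_sum fun p hp => ?_
    have hk := SBPx.key (hS p hp).1 (fun h hh hv => hU h hh p hp hv) (fun h => ω p * ψ h)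
      (fun h hh => mul_nonneg (hω p hp) (by
        simp only [hψ]
        split_ifs
        · exact hθ h hh
        · exact le_rfl))
    rw [sum_sub_distrib]
    refine le_trans ?_ (sub_le_sub_right hk _)
    rw [← sum_sub_distrib]
    refine le_trans (le_of_eq ?_) (sum_le_sum_of_subset_of_nonneg hA fun h hh _ => ?_)
    · refine sum_congr rfl fun h hh => ?_
      by_cases hv : val h p
      · simp only [if_pos hv, hψ, if_neg (hC.disj h hh), if_pos (hC.above h hh _ (lt_up h p)),
          hinv h (hA hh) p hp hv]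
        ring
      · simp only [if_neg hv]
        ring
    · by_cases hv : val h p
      · simp only [if_pos hv, hψ]
        have h0 := mul_nonneg (hω p hp) (hθ h hh)
        by_cases hu : h ∈ U
        · rw [if_pos hu, if_pos (hC.upper (lt_up h p).le hu), hinv h hh p hp hv]
          simp
        · rw [if_neg hu]
          split_ifs
          · rw [hinv h hh p hp hv]
            simpa using h0
          · simp
      · simp only [if_neg hv]
        simp
  · rw [sum_congr rfl fun h hh => hG h hh (φ h), sum_comm, sum_comm (s := X)]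
    refine sum_congr rfl fun p hp => ?_
    rw [sum_sub_distrib, ← SBPx.keyeq (hS p hp).1 (fun h hh hv => hU h hh p hp hv)
      (fun h hh hv => hD h hh p hp hv) (fun h => ω p * φ h), ← sum_sub_distrib]
    refine sum_congr rfl fun h _ => ?_
    split_ifs <;> ring

end Pool.Agent.P.MP_e6a929_co.AS
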