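import Pool.Agent.P.MP_e6a929_co.AS.Iface

/-! Step WCNT of the asymptotic Sperner project. -/

namespace Pool.Agent.P.MP_e6a929_co.AS

open Finset Function Filter

open scoped Classical

namespace WCNTx

theorem bal_le (hBAL : S_BAL) (hBIN : S_BIN) (a σ : ℕ) :
    (bal a σ).card ^ 2 * (a + 1) ^ 3 ≤ (σ + 1) ^ 2 * 4 ^ (a + 1) := by
  rcases (bal a σ).eq_empty_or_nonempty with h | ⟨g, hg⟩
  · simp [h]
  obtain ⟨h1, -, h2⟩ := mem_bal.1 hg
  have h3 := W_parity h1 le_rfl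
  have h4 := (W_lip h1 (Nat.zero_le a) le_rfl).1
  rw [W_zero h1] at h4
  obtain ⟨k, rfl⟩ : ∃ k, a = σ + 2 * k := ⟨(a - σ) / 2, by omega⟩
  calc _ = ((bal (σ + 2 * k) σ).card * (σ + 2 * k + 1)) ^ 2 * (σ + 2 * k + 1) := by ring
    _ = (σ + 1) ^ 2 * ((σ + 2 * k + 1).choose k ^ 2 * (σ + 2 * k + 1)) := by
      rw [hBAL.1]
      ring
    _ ≤ _ := Nat.mul_le_mul_left _ (hBIN.1 _ _)

theorem fib_le {n q : ℕ} (hq : q ≤ 2 * n) (σ : ℤ) :
    ((Dy n).filter fun h => h q = σ).card ≤ (bal q σ).card * (bal (2 * n - q) σ).card := by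
  rw [← card_product]
  refine card_le_card_of_injOn (fun h => (pfx q h, sfx (2 * n) (2 * n - q) h)) (fun h hh => ?_)
    fun h hh g hg e => ?_
  · obtain ⟨h1, h2⟩ := mem_filter.1 (mem_coe.1 hh)
    obtain ⟨h3, h4, h5⟩ := mem_Dy.1 h1
    refine mem_coe.2 (mem_product.2 ⟨mem_bal.2 ⟨pfx_mem_W h3 hq, fun i => ?_, ?_⟩,
      mem_bal.2 ⟨sfx_mem_W h3 h5 (Nat.sub_le _ _), fun i => ?_, ?_⟩⟩)
    · simp only [pfx]
      split_ifs
      exacts [h4 _, le_rfl]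
    · simp [pfx, h2]
    · simp only [sfx]
      split_ifs
      exacts [h4 _, le_rfl]
    · simp [sfx, Nat.sub_sub_self hq, h2]
  · have h1 := (mem_Dy.1 (mem_filter.1 (mem_coe.1 hh)).1).1
    have h2 := (mem_Dy.1 (mem_filter.1 (mem_coe.1 hg)).1).1
    funext i
    by_cases c1 : i ≤ q
    · simpa [pfx, c1] using congrFun (congrArg Prod.fst e) i
    by_cases c2 : i ≤ 2 * n
    · have h3 := congrFun (congrArg Prod.snd e) (2 * n - i)
      simp only [sfx] at h3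
      rwa [if_pos (by omega), if_pos (by omega), Nat.sub_sub_self c2] at h3
    · rw [W_after h1 (by omega), W_after h2 (by omega)]

theorem prod_le (hBAL : S_BAL) (hBIN : S_BIN) {n q s : ℕ} (h1 : s ^ 2 ≤ q) (h2 : q + s ^ 2 ≤ 2 * n)
    (σ : ℕ) : (bal q σ).card * (bal (2 * n - q) σ).card * s ^ 3 ≤ 8 * (σ + 1) ^ 2 * (Dy n).card := by
  obtain ⟨r, hr⟩ : ∃ r, 2 * n = q + r := ⟨2 * n - q, by omega⟩
  have a1 := bal_le hBAL hBIN q σ
  have a2 := bal_le hBAL hBIN r σ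
  have a3 := hBIN.2 n
  rw [← hBAL.2.1] at a3
  have a4 : (n + 1) * s ^ 2 ≤ (q + 1) * (r + 1) := by
    rcases le_total q r with h | h
    · rw [mul_comm]
      exact Nat.mul_le_mul (by omega) (by omega)
    · exact Nat.mul_le_mul (by omega) (by omega)
  have a5 : 4 ^ (q + 1) * 4 ^ (r + 1) = 16 * 16 ^ n := by
    rw [← pow_add, show q + 1 + (r + 1) = 2 * (n + 1) by omega, pow_mul, pow_succ']
    rfl
  rw [show 2 * n - q = r by omega]
  generalize (bal q σ).card = B at *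
  generalize (bal r σ).card = C at *
  generalize (Dy n).card = D at *
  refine (Nat.pow_le_pow_iff_left two_ne_zero).1 (Nat.le_of_mul_le_mul_right (c := (n + 1) ^ 3) ?_
    (by positivity))
  calc _ = (B * C) ^ 2 * ((n + 1) * s ^ 2) ^ 3 := by ring
    _ ≤ (B * C) ^ 2 * ((q + 1) * (r + 1)) ^ 3 := by gcongr
    _ = B ^ 2 * (q + 1) ^ 3 * (C ^ 2 * (r + 1) ^ 3) := by ring
    _ ≤ (σ + 1) ^ 2 * 4 ^ (q + 1) * ((σ + 1) ^ 2 * 4 ^ (r + 1)) := Nat.mul_le_mul a1 a2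
    _ = (σ + 1) ^ 4 * 16 * 16 ^ n := by
      rw [mul_mul_mul_comm, a5]
      ring
    _ ≤ (σ + 1) ^ 4 * 16 * (4 * (n + 1) * ((n + 1) * D) ^ 2) := Nat.mul_le_mul_left _ a3
    _ = _ := by ring

end WCNTx

open WCNTx in
theorem p_WCNT (hBAL : S_BAL) (hBIN : S_BIN) : S_WCNT := by
  intro n q b s h1 h2
  have h3 : (low n q b).card ≤ ∑ σ ∈ range (b + 1), ((Dy n).filter fun h => h q = (σ : ℤ)).card := by
    refine (card_le_card fun h hh => ?_).trans card_biUnion_le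
    obtain ⟨h4, h5⟩ := mem_low.1 hh
    have h6 := (mem_Dy.1 h4).2.1 q
    exact mem_biUnion.2 ⟨(h q).toNat, mem_range.2 (by omega), mem_filter.2 ⟨h4, by omega⟩⟩
  refine (Nat.mul_le_mul_right _ h3).trans ?_
  rw [sum_mul]
  refine (sum_le_card_nsmul _ _ (8 * (b + 1) ^ 2 * (Dy n).card) fun σ hσ => ?_).trans (le_of_eq ?_)
  · refine (Nat.mul_le_mul_right _ (fib_le (by omega) _)).trans
      ((prod_le hBAL hBIN h1 h2 σ).trans ?_)
    have := mem_range.1 hσ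
    gcongr
    omega
  · rw [card_range, smul_eq_mul]
    ring

end Pool.Agent.P.MP_e6a929_co.AS
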